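import Pool.Agent.H.MP_0e7155_gt.CE.ZeroFree

open Set Topology Cardinal

namespace Pool.Agent.H.MP_0e7155_gt.CE

/-- The complement of a small set is dense: `#(Ioo a b) = 𝔠` (`Cardinal.mk_Ioo_real`). -/
theorem small_compl (E : Set ℝ) (hE : #E < 𝔠) {a b : ℝ} (h : a < b) :
    ∃ x, a < x ∧ x < b ∧ x ∉ E := by
  by_contra hc
  push Not at hc
  have h1 : Ioo a b ⊆ E := fun x hx => hc x hx.1 hx.2
  have h2 := Cardinal.mk_le_mk_of_subset h1
  rw [Cardinal.mk_Ioo_real h] at h2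
  exact absurd hE (not_lt.2 h2)

/-- (F3) The graph of `f` meets every nonempty open set.  Proof: `(x0, z0) ∈ O`. There are `ε > 0` and an open
neighbourhood `W` of `z0` with `Icc (x0 - ε) (x0 + ε) ×ˢ closure W ⊆ O` (`Z` is regular). The set
`F = Icc (x0 - ε) (x0 + ε) ×ˢ closure W` is closed; if the graph missed `F`, then by `D.fmiss` the set
`{x | ∃ z, (x, z) ∈ F ∧ Good D.Lam z}` would have cardinality `< 𝔠`; but it contains `Icc (x0 - ε) (x0 + ε)`
(`exists_zero_free` gives a zero-free, hence good, `z' ∈ W`), which has cardinality `𝔠`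
(`Cardinal.mk_Icc_real`). -/
theorem graph_dense (D : Dat) (O : Set (ℝ × Z)) (hO : IsOpen O) (hne : O.Nonempty) :
    ∃ x, (x, D.f x) ∈ O := by
  obtain ⟨⟨x0, z0⟩, h0⟩ := hne
  obtain ⟨A, hA, B, hB, hAB⟩ := mem_nhds_prod_iff.1 (hO.mem_nhds h0)
  obtain ⟨e, he, hAe⟩ := Metric.nhds_basis_closedBall.mem_iff.1 hA
  obtain ⟨W, hW, hWc, hWB⟩ := exists_mem_nhds_isClosed_subset hB
  by_contra hc
  push Not at hc
  have hFc : IsClosed (Metric.closedBall x0 e ×ˢ W) := Metric.isClosed_closedBall.prod hWc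
  have hsub : Metric.closedBall x0 e ×ˢ W ⊆ O := (Set.prod_mono hAe hWB).trans hAB
  have h1 := D.fmiss _ hFc (fun x hx => hc x (hsub hx))
  obtain ⟨z', hz', hz0⟩ := exists_zero_free z0 W hW
  have h2 : Icc (x0 - e) (x0 + e) ⊆
      {x : ℝ | ∃ z, (x, z) ∈ Metric.closedBall x0 e ×ˢ W ∧ Good D.Lam z} := by
    intro x hx
    refine ⟨z', ⟨?_, hz'⟩, fun m p _ => hz0 m p⟩
    rw [Real.closedBall_eq_Icc]
    exact hx
  have h3 := Cardinal.mk_le_mk_of_subset h2
  rw [Cardinal.mk_Icc_real (show x0 - e < x0 + e by linarith)] at h3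
  exact absurd h1 (not_lt.2 h3)

/-- Corollary: graph points over every interval with values in a given open set. Apply `graph_dense` to
`Ioo a b ×ˢ W`. -/
theorem graph_dense' (D : Dat) {a b : ℝ} (h : a < b) (W : Set Z) (hW : IsOpen W) (hne : W.Nonempty) :
    ∃ x, a < x ∧ x < b ∧ D.f x ∈ W := by
  obtain ⟨x, hx⟩ := graph_dense D (Ioo a b ×ˢ W) (isOpen_Ioo.prod hW)
    ⟨((a + b) / 2, hne.some), ⟨⟨by linarith, by linarith⟩, hne.some_mem⟩⟩
  exact ⟨x, hx.1.1, hx.1.2, hx.2⟩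

end Pool.Agent.H.MP_0e7155_gt.CE
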