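import Pool.Agent.H.MP_0e7155_gt.CE.Core
import Pool.Agent.H.MP_0e7155_gt.CE.Dense

open Set Topology Cardinal

namespace Pool.Agent.H.MP_0e7155_gt.CE

variable {L : Set P} {K : Core L} {t : ℕ}

theorem Box1_mk {x lo hi : ℝ} (h1 : K.a ≤ lo) (h2 : hi ≤ K.b) (hx1 : lo < x) (hx2 : x < hi)
    (g : FP) (e0 e1 : Pat)
    (hU : (x, Function.update g t e0) ∈ K.U) (hV : (x, Function.update g t e1) ∈ K.V)
    {ε : ℝ} (hε : 0 < ε) (n : ℕ) :
    ∃ B' : Box K t, lo < B'.l ∧ B'.r < hi ∧ B'.l < x ∧ x < B'.r ∧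
      B'.r - B'.l < ε ∧ n ≤ B'.M ∧ B'.a0 = e0 ∧ B'.a1 = e1 ∧ B'.g = g := by
  obtain ⟨ε0, hε0, M0, h3⟩ := K.opU x _ hU
  obtain ⟨ε1, hε1, M1, h4⟩ := K.opV x _ hV
  obtain ⟨η, hη, k0, k1, k2, k3, k4⟩ : ∃ η : ℝ, 0 < η ∧ η < ε0 ∧ η < ε1 ∧ η < ε / 2 ∧
      η < x - lo ∧ η < hi - x := by
    have hpos : 0 < min (min ε0 ε1) (min (ε / 2) (min (x - lo) (hi - x))) := by
      refine lt_min (lt_min hε0 hε1) (lt_min (by linarith) (lt_min (by linarith) (by linarith)))
    refine ⟨min (min ε0 ε1) (min (ε / 2) (min (x - lo) (hi - x))) / 2, by linarith, ?_, ?_, ?_, ?_,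
      ?_⟩
    · have := (min_le_left (min ε0 ε1) (min (ε / 2) (min (x - lo) (hi - x)))).trans
        (min_le_left ε0 ε1)
      linarith
    · have := (min_le_left (min ε0 ε1) (min (ε / 2) (min (x - lo) (hi - x)))).trans
        (min_le_right ε0 ε1)
      linarith
    · have := (min_le_right (min ε0 ε1) (min (ε / 2) (min (x - lo) (hi - x)))).trans
        (min_le_left _ _)
      linarith
    · have := (min_le_right (min ε0 ε1) (min (ε / 2) (min (x - lo) (hi - x)))).trans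
        ((min_le_right _ _).trans (min_le_left _ _))
      linarith
    · have := (min_le_right (min ε0 ε1) (min (ε / 2) (min (x - lo) (hi - x)))).trans
        ((min_le_right _ _).trans (min_le_right _ _))
      linarith
  have hupd : ∀ (g'' : FP) (e : Pat) (M : ℕ), M ≤ max (max M0 M1) n →
      (∀ m < max (max M0 M1) n, m ≠ t → g'' m = g m) →
      ∀ m < M, Function.update g'' t e m = Function.update g t e m := by
    intro g'' e M hM hg m hm
    by_cases hmt : m = t
    · rw [hmt, Function.update_self, Function.update_self]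
    · rw [Function.update_of_ne hmt, Function.update_of_ne hmt]
      exact hg m (hm.trans_le hM) hmt
  refine ⟨{ l := x - η, r := x + η, hlr := by linarith, hl := by linarith, hr := by linarith,
            M := max (max M0 M1) n, g := g, a0 := e0, a1 := e1, hU := ?_, hV := ?_ },
    ?_, ?_, ?_, ?_, ?_, ?_, rfl, rfl, rfl⟩
  · intro x' g'' hx' hx'' hg
    refine h3 x' _ ?_ (hupd g'' e0 M0 ((le_max_left _ _).trans (le_max_left _ _)) hg)
    rw [abs_lt]
    constructor <;> linarith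
  · intro x' g'' hx' hx'' hg
    refine h4 x' _ ?_ (hupd g'' e1 M1 ((le_max_right _ _).trans (le_max_left _ _)) hg)
    rw [abs_lt]
    constructor <;> linarith
  · show lo < x - η
    linarith
  · show x + η < hi
    linarith
  · show x - η < x
    linarith
  · show x < x + η
    linarith
  · show x + η - (x - η) < ε
    linarith
  · exact le_max_right _ _

/-- (9.5)(i) A sub-box with prescribed patterns `e0, e1`.  Proof: `K.opU` at `(x, update g' t e0)` gives `ε0, M0`, `K.opV` at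
`(x, update g' t e1)` gives `ε1, M1`. Take `l = x - η`, `r = x + η` with `η > 0` smaller than `ε0, ε1, ε / 2, x - B.l, B.r - x`
(say half of the minimum), `M = max` of `M0, M1, B.M, n`, `g = g'`, `a0 = e0`, `a1 = e1`. `hU`: if `g''` agrees with `g'` on
`{m < M, m ≠ t}` then `update g'' t e0` agrees with `update g' t e0` below `M0`. -/
theorem Box.exists_sub (B : Box K t) {x : ℝ} (hx1 : B.l < x) (hx2 : x < B.r) (g' : FP)
    (hg : ∀ m < B.M, m ≠ t → g' m = B.g m) (e0 e1 : Pat)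
    (he0 : ∀ p, p ∉ B.Del → e0.1 p = B.a0.1 p) (he1 : ∀ p, p ∉ B.Del → e1.1 p = B.a0.1 p)
    (hU : (x, Function.update g' t e0) ∈ K.U) (hV : (x, Function.update g' t e1) ∈ K.V)
    {ε : ℝ} (hε : 0 < ε) (n : ℕ) :
    ∃ B' : Box K t, B'.le B ∧ B.l < B'.l ∧ B'.r < B.r ∧ B'.l < x ∧ x < B'.r ∧
      B'.r - B'.l < ε ∧ n ≤ B'.M ∧ B'.a0 = e0 ∧ B'.a1 = e1 := by
  obtain ⟨B', k1, k2, k3, k4, k5, k6, k7, k8, k9⟩ :=
    Box1_mk B.hl B.hr hx1 hx2 g' e0 e1 hU hV hε (max n B.M)
  refine ⟨B', ⟨k1.le, k2.le, (le_max_right n B.M).trans k6, ?_, ?_⟩, k1, k2, k3, k4, k5,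
    (le_max_left n B.M).trans k6, k7, k8⟩
  · intro m hm hmt
    rw [k9]
    exact hg m hm hmt
  · intro p hp
    rw [k7, k8]
    exact ⟨he0 p hp, he1 p hp⟩

/-- A first box, from dependence on the coordinate `t`.  Proof: as in `exists_sub` with the interval `(K.a, K.b)`. -/
theorem Core.first_box (K : Core L) (t : ℕ) (h : K.DepAt t) : Nonempty (Box K t) := by
  obtain ⟨x, g, e0, e1, hx1, hx2, _, hU, hV⟩ := h
  obtain ⟨B', _⟩ := Box1_mk le_rfl le_rfl hx1 hx2 g e0 e1 hU hV zero_lt_one 0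
  exact ⟨B'⟩

end Pool.Agent.H.MP_0e7155_gt.CE
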