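import Pool.Agent.H.MP_0e7155_gt.CE.Box1

open Set Topology Cardinal

namespace Pool.Agent.H.MP_0e7155_gt.CE

variable {L : Set P} {K : Core L} {t : ℕ}

/-- Two patterns glued along a cylinder-type condition: the function equal to `a1` at the points `p` whose first `n` coordinates
satisfy `Q`, equal to `a0` elsewhere, is a pattern. `Q` is any predicate which depends only on the first `n` coordinates. -/
theorem exists_glue (a0 a1 : Pat) (n : ℕ) (Q : P → Prop) (hQ : ∀ p p' : P, (∀ i < n, p i = p' i) → (Q p ↔ Q p')) :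
    ∃ e : Pat, (∀ p, Q p → e.1 p = a1.1 p) ∧ ∀ p, ¬ Q p → e.1 p = a0.1 p := by
  classical
  obtain ⟨n0, h0⟩ := a0.2
  obtain ⟨n1, h1⟩ := a1.2
  refine ⟨⟨fun p => if Q p then a1.1 p else a0.1 p, max n (max n0 n1), ?_⟩, ?_, ?_⟩
  · intro p p' hp
    have e0 := h0 p p' fun i hi => hp i (lt_of_lt_of_le hi ((le_max_left _ _).trans (le_max_right _ _)))
    have e1 := h1 p p' fun i hi => hp i (lt_of_lt_of_le hi ((le_max_right _ _).trans (le_max_right _ _)))
    have e2 := hQ p p' fun i hi => hp i (lt_of_lt_of_le hi (le_max_left _ _))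
    change (if Q p then a1.1 p else a0.1 p) = if Q p' then a1.1 p' else a0.1 p'
    rw [e0, e1]
    by_cases h : Q p
    · rw [if_pos h, if_pos (e2.1 h)]
    · rw [if_neg h, if_neg fun h' => h (e2.2 h')]
  · intro p hp
    exact if_pos hp
  · intro p hp
    exact if_neg hp

/-- (9.5)(ii) combined with (i): a small sub-box whose pivots lie in one cylinder of length `n`.  Proof.  Choose `x` in
`(B.l, B.r) \ K.E` (`small_compl`) and `g' = B.g`. Enumerate the `2 ^ n` words of length `n` (e.g. by a bijection of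
`Fin n → Bool` with `Fin k`, `Fintype.equivFin`, rank function `ρ : P → ℕ` depending only on the first `n` coordinates, `ρ p = ρ p'`
iff `p, p'` agree below `n`, `ρ < k`). Let `e j` (`0 ≤ j ≤ k`) be the pattern equal to `a1` at the points with
`ρ p < j` and to `a0` elsewhere (`exists_glue`). `e 0 = a0` and `e k = a1` (extensionality), so `(x, update g' t (e 0)) ∈ U`,
`(x, update g' t (e k)) ∈ V`, and by `K.cov` and `K.disj` there is `j < k` with `(x, update g' t (e j)) ∈ U` and
`(x, update g' t (e (j + 1))) ∈ V` (first `j` for which the side is not `U`). Apply `exists_sub` with `e0 = e j`,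
`e1 = e (j + 1)`: the new `Del` is contained in `{p | ρ p = j}`, contained in `cyl p0 n` for any point `p0` of it
(`Box.Del_nonempty`). -/
theorem Box.shrink (B : Box K t) {ε : ℝ} (hε : 0 < ε) (n : ℕ) :
    ∃ B' : Box K t, B'.le B ∧ B.l < B'.l ∧ B'.r < B.r ∧ B'.r - B'.l < ε ∧ n ≤ B'.M ∧
      ∃ p, B'.Del ⊆ cyl p n := by
  classical
  obtain ⟨x, hx1, hx2, hxE⟩ := small_compl K.E K.small B.hlr
  obtain ⟨ρ, hρ⟩ : ∃ ρ : P → ℕ,
      ρ = fun p => (Fintype.equivFin (Fin n → Bool) (fun i => p i.1)).1 := ⟨_, rfl⟩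
  have hρ1 : ∀ p p' : P, (∀ i < n, p i = p' i) → ρ p = ρ p' := by
    intro p p' h
    have h1 : (fun i : Fin n => p i.1) = fun i : Fin n => p' i.1 := funext fun i => h i.1 i.2
    rw [hρ]
    change (Fintype.equivFin (Fin n → Bool) (fun i => p i.1)).1 =
      (Fintype.equivFin (Fin n → Bool) (fun i => p' i.1)).1
    rw [h1]
  have hρ2 : ∀ p p' : P, ρ p = ρ p' → ∀ i < n, p i = p' i := by
    intro p p' h i hi
    rw [hρ] at h
    have h1 := (Fintype.equivFin (Fin n → Bool)).injective (Fin.ext h)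
    exact congrFun h1 ⟨i, hi⟩
  have hρ3 : ∀ p, ρ p < Fintype.card (Fin n → Bool) := by
    intro p
    rw [hρ]
    exact (Fintype.equivFin (Fin n → Bool) (fun i => p i.1)).2
  have hex : ∀ j : ℕ, ∃ e : Pat, (∀ p, ρ p < j → e.1 p = B.a1.1 p) ∧
      ∀ p, ¬ ρ p < j → e.1 p = B.a0.1 p := fun j =>
    exists_glue B.a0 B.a1 n (fun p => ρ p < j) fun p p' h => by rw [hρ1 p p' h]
  choose e he1 he0 using hex
  have hE0 : e 0 = B.a0 := Subtype.ext (funext fun p => he0 0 p (Nat.not_lt_zero _))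
  have hEk : e (Fintype.card (Fin n → Bool)) = B.a1 :=
    Subtype.ext (funext fun p => he1 _ p (hρ3 p))
  have hEnd : ∀ j p, p ∉ B.Del → (e j).1 p = B.a0.1 p := by
    intro j p hp
    have h1 : B.a0.1 p = B.a1.1 p := by
      by_contra h
      exact hp h
    by_cases h : ρ p < j
    · rw [he1 j p h, h1]
    · exact he0 j p h
  have hV : ∃ j, (x, Function.update B.g t (e j)) ∈ K.V :=
    ⟨_, by rw [hEk]; exact B.hV x B.g hx1 hx2 fun _ _ _ => rfl⟩
  have hU0 : (x, Function.update B.g t (e 0)) ∈ K.U := by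
    rw [hE0]
    exact B.hU x B.g hx1 hx2 fun _ _ _ => rfl
  obtain ⟨j, hj⟩ : ∃ j, Nat.find hV = j + 1 := by
    refine Nat.exists_eq_succ_of_ne_zero fun h => ?_
    have h1 := Nat.find_spec hV
    rw [h] at h1
    exact K.disj _ hU0 h1
  have hVj : (x, Function.update B.g t (e (j + 1))) ∈ K.V := by
    rw [← hj]
    exact Nat.find_spec hV
  have hUj : (x, Function.update B.g t (e j)) ∈ K.U := by
    rcases K.cov x (B.hl.trans_lt hx1) (hx2.trans_le B.hr) hxE (Function.update B.g t (e j)) with h | h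
    · exact h
    · exact absurd h (Nat.find_min hV (by omega))
  obtain ⟨B', h1, h2, h3, -, -, h4, h5, h6, h7⟩ := B.exists_sub hx1 hx2 B.g (fun _ _ _ => rfl) (e j)
    (e (j + 1)) (hEnd j) (hEnd (j + 1)) hUj hVj hε n
  have hDel : ∀ p ∈ B'.Del, ρ p = j := by
    intro p hp
    have h8 : B'.a0.1 p ≠ B'.a1.1 p := hp
    rw [h6, h7] at h8
    by_contra h9
    apply h8
    rcases lt_or_gt_of_ne h9 with h10 | h10
    · rw [he1 j p h10, he1 (j + 1) p (by omega)]
    · rw [he0 j p (by omega), he0 (j + 1) p (by omega)]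
  obtain ⟨p0, hp0⟩ := B'.Del_nonempty
  refine ⟨B', h1, h2, h3, h4, h5, p0, fun p hp => ?_⟩
  exact hρ2 p p0 (by rw [hDel p hp, hDel p0 hp0])

end Pool.Agent.H.MP_0e7155_gt.CE
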