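import Pool.Agent.H.MP_0e7155_gt.CE.Box1b

open Set Topology Cardinal

namespace Pool.Agent.H.MP_0e7155_gt.CE

variable {L : Set P} {K : Core L} {t : ℕ}

/-- Splitting a box in two.  Proof: the hypothesis gives `C0, C1 ≤ B` with disjoint `Del`. Choose points `x0 ≠ x1` with
`C0.l < x0 < C0.r`, `C1.l < x1 < C1.r`, both not in `K.E` is not needed. Apply `Box.exists_sub` to `C0` at `x0` and to `C1` at
`x1` (with `g' = C0.g`, `e0 = C0.a0`, `e1 = C0.a1`, using `C0.hU`, `C0.hV`; for a pivot-free point `p ∉ C0.Del`, `C0.a1.1 p = C0.a0.1 p`)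
with length smaller than `|x0 - x1| / 2` and than `ε`: the closed intervals are disjoint. Then apply `Box.shrink` to both
(with the same bounds). `Box.le_trans`, `Box.Del_mono`. -/
theorem Box.split (B : Box K t)
    (h : ∃ C0 C1 : Box K t, C0.le B ∧ C1.le B ∧ Disjoint C0.Del C1.Del)
    {ε : ℝ} (hε : 0 < ε) (n : ℕ) :
    ∃ B0 B1 : Box K t, B0.le B ∧ B1.le B ∧ Disjoint B0.Del B1.Del ∧
      (B0.r < B1.l ∨ B1.r < B0.l) ∧
      (B.l < B0.l ∧ B0.r < B.r ∧ B0.r - B0.l < ε ∧ n ≤ B0.M ∧ ∃ p, B0.Del ⊆ cyl p n) ∧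
      (B.l < B1.l ∧ B1.r < B.r ∧ B1.r - B1.l < ε ∧ n ≤ B1.M ∧ ∃ p, B1.Del ⊆ cyl p n) := by
  obtain ⟨C0, C1, hC0, hC1, hD⟩ := h
  obtain ⟨x0, h0l, h0r⟩ := exists_between C0.hlr
  obtain ⟨x1, h1l, h1r, hne⟩ : ∃ x1, C1.l < x1 ∧ x1 < C1.r ∧ x0 ≠ x1 := by
    obtain ⟨y, hy1, hy2⟩ := exists_between C1.hlr
    by_cases hy : x0 = y
    · obtain ⟨z, hz1, hz2⟩ := exists_between hy2
      exact ⟨z, hy1.trans hz1, hz2, by rw [hy]; exact hz1.ne⟩
    · exact ⟨y, hy1, hy2, hy⟩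
  have hδ : 0 < |x0 - x1| / 2 := by
    have : 0 < |x0 - x1| := abs_pos.2 (sub_ne_zero.2 hne)
    linarith
  have hU : ∀ (C : Box K t) x, C.l < x → x < C.r →
      (x, Function.update C.g t C.a0) ∈ K.U := fun C x h1 h2 => C.hU x C.g h1 h2 fun _ _ _ => rfl
  have hV : ∀ (C : Box K t) x, C.l < x → x < C.r →
      (x, Function.update C.g t C.a1) ∈ K.V := fun C x h1 h2 => C.hV x C.g h1 h2 fun _ _ _ => rfl
  have hpf : ∀ (C : Box K t) p, p ∉ C.Del → C.a1.1 p = C.a0.1 p := by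
    intro C p hp
    by_contra h'
    exact hp fun h'' => h' h''.symm
  obtain ⟨A0, hA0, _, _, a0l, a0r, a0s, _, a00, a01⟩ := C0.exists_sub h0l h0r C0.g
    (fun _ _ _ => rfl) C0.a0 C0.a1 (fun _ _ => rfl) (hpf C0) (hU C0 x0 h0l h0r)
    (hV C0 x0 h0l h0r) hδ n
  obtain ⟨A1, hA1, _, _, a1l, a1r, a1s, _, a10, a11⟩ := C1.exists_sub h1l h1r C1.g
    (fun _ _ _ => rfl) C1.a0 C1.a1 (fun _ _ => rfl) (hpf C1) (hU C1 x1 h1l h1r)
    (hV C1 x1 h1l h1r) hδ n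
  obtain ⟨B0, hB0, b0l, b0r, b0s, b0M, b0p⟩ := A0.shrink hε n
  obtain ⟨B1, hB1, b1l, b1r, b1s, b1M, b1p⟩ := A1.shrink hε n
  have i0l := hC0.1
  have i0r := hC0.2.1
  have i1l := hC1.1
  have i1r := hC1.2.1
  have j0l := hA0.1
  have j0r := hA0.2.1
  have j1l := hA1.1
  have j1r := hA1.2.1
  refine ⟨B0, B1, Box.le_trans hB0 (Box.le_trans hA0 hC0),
    Box.le_trans hB1 (Box.le_trans hA1 hC1), ?_, ?_, ⟨by linarith, by linarith, b0s, b0M, b0p⟩,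
    ⟨by linarith, by linarith, b1s, b1M, b1p⟩⟩
  · refine hD.mono ?_ ?_
    · exact (Box.Del_mono hB0).trans (Box.Del_mono hA0)
    · exact (Box.Del_mono hB1).trans (Box.Del_mono hA1)
  · rcases lt_or_gt_of_ne hne with h | h
    · left
      have e : |x0 - x1| = x1 - x0 := by rw [abs_sub_comm]; exact abs_of_pos (by linarith)
      rw [e] at a0s a1s
      linarith
    · right
      have e : |x0 - x1| = x0 - x1 := abs_of_pos (by linarith)
      rw [e] at a0s a1s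
      linarith

end Pool.Agent.H.MP_0e7155_gt.CE
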