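import Pool.Agent.H.MP_0e7155_gt.CE.Core

open Set Topology Cardinal

namespace Pool.Agent.H.MP_0e7155_gt.CE

variable {L : Set P} {K : Core L} {t : ℕ}

/-- The path of a branch: `path β n = [β (n - 1), ..., β 0]`. -/
def path (β : ℕ → Bool) : ℕ → List Bool
  | 0 => []
  | n + 1 => β n :: path β n

theorem Box2b_len (β : ℕ → Bool) (n : ℕ) : (path β n).length = n := by
  induction n with
  | zero => rfl
  | succ n ih => simp [path, ih]

/-- Branch points.  Proof.  Let `B n = F (path β n)`. Abscissa: `l` is strictly increasing and `r` strictly decreasing along the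
branch and `l < r`; `x = sup l` satisfies `(B n).l < (B (n+1)).l ≤ x ≤ (B (n+1)).r < (B n).r`. Pivot: the sets `(B n).Del` are
closed, nonempty (`Box.Del_closed`, `Box.Del_nonempty`), decreasing (`Box.Del_mono`), `P` is compact: the intersection is nonempty
(`IsCompact.nonempty_iInter_of_directed_nonempty_isCompact_isClosed` or its sequence version). -/
theorem tree_branch (F : List Bool → Box K t)
    (hF : ∀ i u, (F (i :: u)).le (F u) ∧ (F u).l < (F (i :: u)).l ∧ (F (i :: u)).r < (F u).r)
    (β : ℕ → Bool) :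
    ∃ (x : ℝ) (p : P), (∀ n, (F (path β n)).l < x ∧ x < (F (path β n)).r) ∧
      ∀ n, p ∈ (F (path β n)).Del := by
  have hl : StrictMono (fun n => (F (path β n)).l) := strictMono_nat_of_lt_succ (fun n => (hF (β n) (path β n)).2.1)
  have hr : StrictAnti (fun n => (F (path β n)).r) := strictAnti_nat_of_succ_lt (fun n => (hF (β n) (path β n)).2.2)
  have hlr : ∀ n m, (F (path β n)).l < (F (path β m)).r := by
    intro n m
    calc (F (path β n)).l ≤ (F (path β (max n m))).l := hl.monotone (le_max_left _ _)
      _ < (F (path β (max n m))).r := (F (path β (max n m))).hlr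
      _ ≤ (F (path β m)).r := hr.antitone (le_max_right _ _)
  have hbdd : BddAbove (Set.range (fun n => (F (path β n)).l)) := by
    refine ⟨(F (path β 0)).r, ?_⟩
    rintro _ ⟨n, rfl⟩
    exact (hlr n 0).le
  obtain ⟨p, hp⟩ := IsCompact.nonempty_iInter_of_sequence_nonempty_isCompact_isClosed
    (fun n => (F (path β n)).Del) (fun n => Box.Del_mono (hF (β n) (path β n)).1)
    (fun n => Box.Del_nonempty _) (Box.Del_closed _).isCompact (fun n => Box.Del_closed _)
  refine ⟨⨆ n, (F (path β n)).l, p, ?_, fun n => Set.mem_iInter.1 hp n⟩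
  intro n
  refine ⟨?_, ?_⟩
  · exact lt_of_lt_of_le (hl (Nat.lt_succ_self n)) (le_ciSup hbdd (n + 1))
  · refine lt_of_le_of_lt (ciSup_le (fun m => (hlr m (n + 1)).le)) (hr (Nat.lt_succ_self n))

/-- The pivot lemma along a branch: `K.piv` with `g n = (F (path β n)).g`, `a0 n = (F (path β n)).a0`, `a1 n = (F (path β n)).a1`.
Hypotheses of `K.piv`: the first two from `Box.hU`, `Box.hV` at `x` (with `g' = g n`); the third: for `m < n ≤ n'`, `m ≠ t`,
`F (path β n') ≤ F (path β n)` (induction with `Box.le_trans`) and `n ≤ (F (path β n)).M`, so `m < M`; the fourth: for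
`p' ∉ cyl p n` we have `p' ∉ (F (path β n)).Del` (it is contained in a cylinder of length `n` which contains `p`; for `n = 0`,
`cyl p 0 = univ`), and `F (path β n') ≤ F (path β n)` gives both equalities. -/
theorem tree_piv (F : List Bool → Box K t)
    (hF : ∀ i u, (F (i :: u)).le (F u) ∧ u.length + 1 ≤ (F (i :: u)).M ∧
        ∃ p, (F (i :: u)).Del ⊆ cyl p (u.length + 1))
    (β : ℕ → Bool) (x : ℝ) (p : P) (hx : ∀ n, (F (path β n)).l < x ∧ x < (F (path β n)).r)
    (hp : ∀ n, p ∈ (F (path β n)).Del) (hE : x ∉ K.E) : p ∈ L := by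
  have hle : ∀ n n', n ≤ n' → (F (path β n')).le (F (path β n)) := by
    intro n n' hn
    induction n', hn using Nat.le_induction with
    | base => exact Box.le_refl _
    | succ k _ ih => exact Box.le_trans (hF (β k) (path β k)).1 ih
  have hM : ∀ n, n ≤ (F (path β n)).M := by
    intro n
    cases n with
    | zero => exact Nat.zero_le _
    | succ k =>
      have := (hF (β k) (path β k)).2.1
      rwa [Box2b_len] at this
  have hD : ∀ n, (F (path β n)).Del ⊆ cyl p n := by
    intro n
    cases n with
    | zero => intro p' _ i hi; exact absurd hi (Nat.not_lt_zero i)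
    | succ k =>
      obtain ⟨q, hq⟩ := (hF (β k) (path β k)).2.2
      rw [Box2b_len] at hq
      intro p' hp' i hi
      rw [hq hp' i hi, hq (hp (k + 1)) i hi]
  refine K.piv x (lt_of_le_of_lt (F (path β 0)).hl (hx 0).1) (lt_of_lt_of_le (hx 0).2 (F (path β 0)).hr) hE t p
    (fun n => (F (path β n)).g) (fun n => (F (path β n)).a0) (fun n => (F (path β n)).a1) ?_ ?_ ?_ ?_
  · intro n
    exact (F (path β n)).hU x _ (hx n).1 (hx n).2 (fun _ _ _ => rfl)
  · intro n
    exact (F (path β n)).hV x _ (hx n).1 (hx n).2 (fun _ _ _ => rfl)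
  · intro n n' m hm hn hmt
    exact (hle n n' hn).2.2.2.1 m (lt_of_lt_of_le hm (hM n)) hmt
  · intro n n' p' hn hp'
    exact (hle n n' hn).2.2.2.2 p' (fun h => hp' (hD n h))

end Pool.Agent.H.MP_0e7155_gt.CE
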