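import Pool.Agent.H.MP_0e7155_gt.CE.Box2t
import Pool.Agent.H.MP_0e7155_gt.CE.Box2b

open Set Topology Cardinal

namespace Pool.Agent.H.MP_0e7155_gt.CE

variable {L : Set P} {K : Core L} {t : ℕ}

theorem Box2c_len (β : ℕ → Bool) (n : ℕ) : (path β n).length = n := by
  induction n with
  | zero => rfl
  | succ n ih => simp [path, ih]

theorem Box2c_path (β β' : ℕ → Bool) (n : ℕ) (h : ∀ i < n, β i = β' i) :
    path β n = path β' n := by
  induction n with
  | zero => rfl
  | succ n ih =>
    simp only [path]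
    rw [ih (fun i hi => h i (Nat.lt_succ_of_lt hi)), h n (Nat.lt_succ_self n)]

/-- The first difference. -/
theorem Box2c_diff (β β' : ℕ → Bool) (h : β ≠ β') :
    ∃ n, β n ≠ β' n ∧ path β n = path β' n := by
  classical
  have h1 : ∃ n, β n ≠ β' n := by
    by_contra h2
    exact h (funext fun n => by_contra fun h3 => h2 ⟨n, h3⟩)
  refine ⟨Nat.find h1, Nat.find_spec h1, Box2c_path β β' _ (fun i hi => ?_)⟩
  exact not_not.1 (Nat.find_min h1 hi)

theorem Box2c_bool {a b : Bool} (h : a ≠ b) : (a = false ∧ b = true) ∨ (a = true ∧ b = false) := by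
  cases a <;> cases b <;> simp_all

theorem Box2c_card : 𝔠 = #(ℕ → Bool) := by
  rw [← Cardinal.power_def, Cardinal.mk_bool, Cardinal.mk_nat, Cardinal.two_power_aleph0]

/-- (9.6) CASE 1 is impossible.  Proof.  Take the tree (`Box.exists_tree`), branch points `x β`, `p β` (`tree_branch`, choice).
`x` is injective: if `β ≠ β'`, let `n` be the first difference; `path β n = path β' n = u` and the branches continue with
different `i :: u`, whose intervals are disjoint. `p` is injective (disjoint `Del`). `p` is continuous: if `β, β'` agree below `n + 1` then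
`path β (n+1) = path β' (n+1)` and both pivots are in a common cylinder of length `n + 1`, so they agree at `n`; so each
coordinate of `p` depends on finitely many coordinates (`Dep.continuous`, `continuous_pi`). So `C = range p` is compact, closed,
of cardinality at least `#(ℕ → Bool) = 𝔠`, and `hL` gives `𝔠 ≤ #(C \ L)`. But for `p β ∉ L` we have `x β ∈ K.E` (`tree_piv`), so
`#(C \ L) ≤ #{β | x β ∈ K.E} ≤ #K.E < 𝔠`. Contradiction. -/
theorem Box.case1 (B : Box K t)
    (hL : ∀ C : Set P, IsClosed C → 𝔠 ≤ #C → 𝔠 ≤ #(C \ L : Set P))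
    (h : ∀ B' : Box K t, B'.le B →
      ∃ C0 C1 : Box K t, C0.le B' ∧ C1.le B' ∧ Disjoint C0.Del C1.Del) : False := by
  obtain ⟨F, -, hFd, hFi, hF⟩ := B.exists_tree h
  have hF1 : ∀ i u, (F (i :: u)).le (F u) ∧ (F u).l < (F (i :: u)).l ∧
      (F (i :: u)).r < (F u).r := fun i u => ⟨(hF i u).1, (hF i u).2.1, (hF i u).2.2.1⟩
  have hF2 : ∀ i u, (F (i :: u)).le (F u) ∧ u.length + 1 ≤ (F (i :: u)).M ∧
      ∃ p, (F (i :: u)).Del ⊆ cyl p (u.length + 1) :=
    fun i u => ⟨(hF i u).1, (hF i u).2.2.2.2.1, (hF i u).2.2.2.2.2⟩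
  choose x p hx hp using tree_branch F hF1
  have hxinj : Function.Injective x := by
    intro β β' hβ
    by_contra hne
    obtain ⟨n, hn, hu⟩ := Box2c_diff β β' hne
    have h1 := hx β (n + 1)
    have h2 := hx β' (n + 1)
    simp only [path] at h1 h2
    rw [← hu] at h2
    rw [hβ] at h1
    rcases Box2c_bool hn with ⟨e1, e2⟩ | ⟨e1, e2⟩ <;> rw [e1] at h1 <;> rw [e2] at h2 <;>
      rcases hFi (path β n) with h3 | h3 <;> linarith [h1.1, h1.2, h2.1, h2.2]
  have hpinj : Function.Injective p := by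
    intro β β' hβ
    by_contra hne
    obtain ⟨n, hn, hu⟩ := Box2c_diff β β' hne
    have h1 := hp β (n + 1)
    have h2 := hp β' (n + 1)
    simp only [path] at h1 h2
    rw [← hu] at h2
    rw [hβ] at h1
    rcases Box2c_bool hn with ⟨e1, e2⟩ | ⟨e1, e2⟩ <;> rw [e1] at h1 <;> rw [e2] at h2
    · exact Set.disjoint_left.1 (hFd (path β n)) h1 h2
    · exact Set.disjoint_left.1 (hFd (path β n)) h2 h1
  have hpcont : Continuous p := by
    refine continuous_pi (fun n => ?_)
    refine Dep.continuous (n := n + 1) (f := fun β : P => p β n) (fun β β' hβ => ?_)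
    have e := Box2c_path β β' (n + 1) hβ
    have h1 := hp β (n + 1)
    have h2 := hp β' (n + 1)
    rw [← e] at h2
    simp only [path] at h1 h2
    obtain ⟨p0, hp0⟩ := (hF2 (β n) (path β n)).2.2
    rw [Box2c_len] at hp0
    exact (hp0 h1 n (Nat.lt_succ_self n)).trans (hp0 h2 n (Nat.lt_succ_self n)).symm
  have hC : IsClosed (Set.range p) := (isCompact_range hpcont).isClosed
  have hcard : 𝔠 ≤ #(Set.range p) := by
    rw [Cardinal.mk_range_eq p hpinj, ← Box2c_card]
  have h1 := hL _ hC hcard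
  have h2 : (Set.range p \ L : Set P) ⊆ p '' (x ⁻¹' K.E) := by
    rintro _ ⟨⟨β, rfl⟩, hβ⟩
    refine ⟨β, ?_, rfl⟩
    by_contra hE
    exact hβ (tree_piv F hF2 β (x β) (p β) (hx β) (hp β) hE)
  have h3 : #(Set.range p \ L : Set P) ≤ #K.E :=
    ((Cardinal.mk_le_mk_of_subset h2).trans Cardinal.mk_image_le).trans
      (Cardinal.mk_preimage_of_injective x K.E hxinj)
  exact absurd (h1.trans h3) (not_le.2 K.small)

end Pool.Agent.H.MP_0e7155_gt.CE
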