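import Pool.Agent.H.MP_0e7155_gt.CE.Box2

open Set Topology Cardinal

namespace Pool.Agent.H.MP_0e7155_gt.CE

variable {L : Set P} {K : Core L} {t : ℕ}

/-- THE TREE.  Proof: recursion on the list. Work in the subtype `{B' : Box K t // B'.le B}`; root `B`; given the box at `u`, apply
`Box.split` to it with `ε = 1 / (u.length + 1)` and `n = u.length + 1` and choose the two children. -/
theorem Box.exists_tree (B : Box K t)
    (h : ∀ B' : Box K t, B'.le B → ∃ C0 C1 : Box K t, C0.le B' ∧ C1.le B' ∧ Disjoint C0.Del C1.Del) :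
    ∃ F : List Bool → Box K t, F [] = B ∧
      (∀ u, Disjoint (F (false :: u)).Del (F (true :: u)).Del) ∧
      (∀ u, (F (false :: u)).r < (F (true :: u)).l ∨ (F (true :: u)).r < (F (false :: u)).l) ∧
      ∀ i u, (F (i :: u)).le (F u) ∧ (F u).l < (F (i :: u)).l ∧ (F (i :: u)).r < (F u).r ∧
        (F (i :: u)).r - (F (i :: u)).l < 1 / (u.length + 1) ∧ u.length + 1 ≤ (F (i :: u)).M ∧
        ∃ p, (F (i :: u)).Del ⊆ cyl p (u.length + 1) := by
  have step : ∀ (n : ℕ) (B' : {B' : Box K t // B'.le B}),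
      ∃ c : Bool → {B' : Box K t // B'.le B},
        Disjoint (c false).1.Del (c true).1.Del ∧
        ((c false).1.r < (c true).1.l ∨ (c true).1.r < (c false).1.l) ∧
        ∀ i, (c i).1.le B'.1 ∧ B'.1.l < (c i).1.l ∧ (c i).1.r < B'.1.r ∧
          (c i).1.r - (c i).1.l < 1 / ((n : ℝ) + 1) ∧ n + 1 ≤ (c i).1.M ∧
          ∃ p, (c i).1.Del ⊆ cyl p (n + 1) := by
    intro n B'
    obtain ⟨B0, B1, h0, h1, hd, hs, hb0, hb1⟩ := Box.split B'.1 (h B'.1 B'.2)
      (ε := 1 / ((n : ℝ) + 1)) (by positivity) (n + 1)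
    refine ⟨fun i => if i then ⟨B1, Box.le_trans h1 B'.2⟩ else ⟨B0, Box.le_trans h0 B'.2⟩, ?_, ?_, ?_⟩
    · simpa using hd
    · simpa using hs
    · intro i
      cases i
      · exact ⟨h0, hb0.1, hb0.2.1, hb0.2.2.1, hb0.2.2.2.1, hb0.2.2.2.2⟩
      · exact ⟨h1, hb1.1, hb1.2.1, hb1.2.2.1, hb1.2.2.2.1, hb1.2.2.2.2⟩
  choose ch hd hs hi using step
  let F' : List Bool → {B' : Box K t // B'.le B} := fun u =>
    List.rec ⟨B, Box.le_refl B⟩ (fun i u ih => ch u.length ih i) u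
  refine ⟨fun u => (F' u).1, rfl, ?_, ?_, ?_⟩
  · intro u
    exact hd u.length (F' u)
  · intro u
    exact hs u.length (F' u)
  · intro i u
    exact hi u.length (F' u) i

end Pool.Agent.H.MP_0e7155_gt.CE
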