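import Pool.Agent.H.MP_0e7155_gt.CE.Box1b

open Set Topology Cardinal

namespace Pool.Agent.H.MP_0e7155_gt.CE

variable {L : Set P} {K : Core L} {t : ℕ}

/-- (9.6) CASE 2, the common pivot.  Proof: for every `n`, `Box.shrink` gives `C n ≤ B` with `(C n).Del ⊆ cyl (c n) n`. For `n ≤ n'` the
sets `(C n).Del`, `(C n').Del` meet, so `c n` and `c n'` agree below `n`. Let `p i = c (i + 1) i`. Then `p ∈ cyl (c n) n` for all `n`, i.e.
`cyl p n = cyl (c n) n`. For every `B' ≤ B` and every `n`: `B'.Del` meets `(C n).Del ⊆ cyl p n`. As `B'.Del` is closed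
(`Box.Del_closed`) and the `cyl p n` form a neighbourhood basis of `p`, `p ∈ B'.Del`. (Neighbourhood basis: an open set containing
`p` contains some `cyl p n`, e.g. from `PiNat` or from the definition of the product topology; alternatively: choose
`p_n ∈ B'.Del ∩ cyl p n`; `p_n` tends to `p` coordinatewise, `tendsto_pi_nhds`, and `IsClosed.mem_of_tendsto`.) -/
theorem Box.common (B : Box K t)
    (h : ∀ B' B'' : Box K t, B'.le B → B''.le B → (B'.Del ∩ B''.Del).Nonempty) :
    ∃ p, ∀ B' : Box K t, B'.le B → p ∈ B'.Del := by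
  have h1 : ∀ n : ℕ, ∃ C : Box K t, C.le B ∧ ∃ c, C.Del ⊆ cyl c n := by
    intro n
    obtain ⟨B', hB', -, -, -, -, c, hc⟩ := B.shrink one_pos n
    exact ⟨B', hB', c, hc⟩
  choose C hC c hc using h1
  have h2 : ∀ n n' i, i < n → n ≤ n' → c n i = c n' i := by
    intro n n' i hi hn
    obtain ⟨p, hp1, hp2⟩ := h (C n) (C n') (hC n) (hC n')
    have e1 : p i = c n i := hc n hp1 i hi
    have e2 : p i = c n' i := hc n' hp2 i (lt_of_lt_of_le hi hn)
    rw [← e1, ← e2]
  refine ⟨fun i => c (i + 1) i, fun B' hB' => ?_⟩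
  rw [← B'.Del_closed.closure_eq, mem_closure_iff_nhds]
  intro W hW
  obtain ⟨n, hn⟩ := ZeroFree_cyl_subset hW
  obtain ⟨p', hp1, hp2⟩ := h B' (C n) hB' (hC n)
  refine ⟨p', hn (fun i hi => ?_), hp1⟩
  have e1 : p' i = c n i := hc n hp2 i hi
  rw [e1]
  exact (h2 (i + 1) n i (Nat.lt_succ_self i) hi).symm

/-- (LB) The leaf property.  Proof: let `x, g', e` be as in `Box.Leaf`. Suppose `e.1 p = B.a0.1 p` and not
`(x, update g' t e) ∈ U`; by `K.cov` (`K.a ≤ B.l < x < B.r ≤ K.b`) it is in `V`. `Box.exists_sub` with `e0 = B.a0`, `e1 = e` (`B.hU` gives the first membership)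
gives `B' ≤ B` with `B'.Del = {p' | B.a0.1 p' ≠ e.1 p'}`, which does not contain `p`: contradiction. Suppose `e.1 p = B.a1.1 p` and not
in `V`; then it is in `U` and `exists_sub` with `e0 = e`, `e1 = B.a1` gives the same contradiction. -/
theorem Box.leaf (B : Box K t) (p : P) (hp : ∀ B' : Box K t, B'.le B → p ∈ B'.Del) :
    B.Leaf p := by
  intro x hx1 hx2 hxE g' hg e he
  have hxa : K.a < x := lt_of_le_of_lt B.hl hx1
  have hxb : x < K.b := lt_of_lt_of_le hx2 B.hr
  have hcov := K.cov x hxa hxb hxE (Function.update g' t e)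
  constructor
  · intro hep
    rcases hcov with h | h
    · exact h
    · exfalso
      obtain ⟨B', hB', -, -, -, -, -, -, h0, h1⟩ := B.exists_sub hx1 hx2 g' hg B.a0 e
        (fun _ _ => rfl) he (B.hU x g' hx1 hx2 hg) h one_pos 0
      have h2 := hp B' hB'
      apply h2
      rw [h0, h1, hep]
  · intro hep
    rcases hcov with h | h
    · exfalso
      obtain ⟨B', hB', -, -, -, -, -, -, h0, h1⟩ := B.exists_sub hx1 hx2 g' hg e B.a1
        he (fun q hq => by
          by_contra h2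
          exact hq (fun h3 => h2 h3.symm)) h (B.hV x g' hx1 hx2 hg) one_pos 0
      have h2 := hp B' hB'
      apply h2
      rw [h0, h1, hep]
    · exact h

/-- The pivot is protected.  Proof: choose `x` with `B.l < x < B.r`, `x ∉ K.E` (`small_compl`). Apply `K.piv` with `g n = B.g`,
`a0 n = B.a0`, `a1 n` = the pattern equal to `B.a1` on `cyl p n` and to `B.a0` elsewhere (`exists_glue` with
`Q p' = p' ∈ cyl p n`). By the leaf property `(x, update B.g t (a1 n)) ∈ V` because `(a1 n).1 p = B.a1.1 p`. -/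
theorem Box.leaf_prot (B : Box K t) (p : P) (hl : B.Leaf p) : p ∈ L := by
  obtain ⟨x, hx1, hx2, hxE⟩ := small_compl K.E K.small B.hlr
  have hxa : K.a < x := lt_of_le_of_lt B.hl hx1
  have hxb : x < K.b := lt_of_lt_of_le hx2 B.hr
  have h1 : ∀ n : ℕ, ∃ e : Pat, (∀ p', p' ∈ cyl p n → e.1 p' = B.a1.1 p') ∧
      ∀ p', ¬ (p' ∈ cyl p n) → e.1 p' = B.a0.1 p' := by
    intro n
    refine exists_glue B.a0 B.a1 n (fun p' => p' ∈ cyl p n) (fun q q' hq => ?_)
    constructor
    · intro h i hi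
      rw [← hq i hi]
      exact h i hi
    · intro h i hi
      rw [hq i hi]
      exact h i hi
  choose a1 ha1 ha1' using h1
  refine K.piv x hxa hxb hxE t p (fun _ => B.g) (fun _ => B.a0) a1 ?_ ?_ ?_ ?_
  · intro n
    exact B.hU x B.g hx1 hx2 (fun _ _ _ => rfl)
  · intro n
    refine (hl x hx1 hx2 hxE B.g (fun _ _ _ => rfl) (a1 n) ?_).2 (ha1 n p (fun _ _ => rfl))
    intro p' hp'
    by_cases h : p' ∈ cyl p n
    · rw [ha1 n p' h]
      by_contra h2
      exact hp' (fun h3 => h2 h3.symm)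
    · exact ha1' n p' h
  · intros
    rfl
  · intro n n' p' hn hp'
    exact ⟨rfl, ha1' n' p' (fun h => hp' (fun i hi => h i (lt_of_lt_of_le hi hn)))⟩

end Pool.Agent.H.MP_0e7155_gt.CE
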