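import Pool.Agent.H.MP_0e7155_gt.CE.Box2c
import Pool.Agent.H.MP_0e7155_gt.CE.Box3

open Set Topology Cardinal

namespace Pool.Agent.H.MP_0e7155_gt.CE

variable {L : Set P}

/-- CORE THEOREM (9.6): dependence on the coordinate `t` gives a leaf box with a protected pivot. -/
theorem Core.leaf_box (K : Core L) (t : ℕ)
    (hL : ∀ C : Set P, IsClosed C → 𝔠 ≤ #C → 𝔠 ≤ #(C \ L : Set P)) (h : K.DepAt t) :
    ∃ (B : Box K t) (p : P), p ∈ B.Del ∧ p ∈ L ∧ B.Leaf p := by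
  obtain ⟨B0⟩ := K.first_box t h
  by_cases h1 : ∀ B' : Box K t, B'.le B0 →
      ∃ C0 C1 : Box K t, C0.le B' ∧ C1.le B' ∧ Disjoint C0.Del C1.Del
  · exact (B0.case1 hL h1).elim
  · push Not at h1
    obtain ⟨B, _, h2⟩ := h1
    have h3 : ∀ B' B'' : Box K t, B'.le B → B''.le B → (B'.Del ∩ B''.Del).Nonempty := by
      intro B' B'' k1 k2
      exact Set.not_disjoint_iff_nonempty_inter.1 (h2 B' B'' k1 k2)
    obtain ⟨p, hp⟩ := B.common h3
    have hl := B.leaf p hp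
    exact ⟨B, p, hp B B.le_refl, B.leaf_prot p hl, hl⟩

end Pool.Agent.H.MP_0e7155_gt.CE
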