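import Pool.Agent.H.MP_0e7155_gt.CE.XNhd

open Set Topology Cardinal

namespace Pool.Agent.H.MP_0e7155_gt.CE

/-- (7b) A preconnected set which has points on both sides of `x` contains the graph point over `x`.  Proof: suppose not.
The sets `{y | pi D y < x} ∪ interior {y | pi D y ≤ x}` (open) and `{y | x < pi D y}` (open) are disjoint and cover `E`: the
points of `E` over `x` are special points `kk D q` with `pos q = x`, and these are in the interior of
`{y | pi D y ≤ pos q}` by `left_nhd`. Both meet `E`, contradiction to preconnectedness. -/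
theorem mid_mem (D : Dat) (E : Set (X D)) (hE : IsPreconnected E) {y1 y2 : X D} (h1 : y1 ∈ E)
    (h2 : y2 ∈ E) {x : ℝ} (hx1 : pi D y1 < x) (hx2 : x < pi D y2) : pp D x ∈ E := by
  by_contra hx
  have hA : IsOpen (interior {y : X D | pi D y ≤ x}) := isOpen_interior
  have hB : IsOpen {y : X D | x < pi D y} := isOpen_lt continuous_const (continuous_pi D)
  have hlt : ∀ y : X D, pi D y < x → y ∈ interior {y : X D | pi D y ≤ x} := fun y hy =>
    interior_maximal (fun z (hz : pi D z < x) => hz.le)
      (isOpen_lt (continuous_pi D) continuous_const) hy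
  have hcov : E ⊆ interior {y : X D | pi D y ≤ x} ∪ {y : X D | x < pi D y} := by
    intro y hy
    rcases lt_trichotomy (pi D y) x with h | h | h
    · exact Or.inl (hlt y h)
    · rcases X_cases D y with ⟨x', rfl⟩ | ⟨q, rfl⟩
      · rw [pi_pp] at h
        exact absurd (h ▸ hy) hx
      · rw [pi_kk] at h
        left
        rw [mem_interior_iff_mem_nhds, ← h]
        exact left_nhd D q
    · exact Or.inr h
  obtain ⟨z, _, hz1, hz2⟩ := hE _ _ hA hB hcov ⟨y1, h1, hlt y1 hx1⟩ ⟨y2, h2, hx2⟩
  have h3 : z ∈ {y : X D | pi D y ≤ x} := interior_subset hz1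
  have h4 : pi D z ≤ x := h3
  have h5 : x < pi D z := hz2
  exact absurd h5 (not_lt.mpr h4)

/-- A special point is isolated in its fibre.  Proof: take `O = {y | ‖(iota D y).2 0 - zq q 0‖ < min 1 (rho D q)}`, open
by `continuous_snd_iota`. A graph point over `pos q` has this norm equal to `rho D q`; for a special point `kk D q'`, `q' ≠ q`, the norm is
at least `1` (`zq_zero_one` and `ContinuousMap.norm_coe_le_norm`). -/
theorem kk_isolated (D : Dat) (q : S) :
    ∃ O ∈ 𝓝 (kk D q), ∀ y ∈ O, pi D y = pos q → y = kk D q := by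
  have hr := rho_pos D q
  refine ⟨{y : X D | ‖(iota D y).2 0 - zq q 0‖ < min 1 (rho D q)}, ?_, ?_⟩
  · refine IsOpen.mem_nhds (isOpen_lt ?_ continuous_const) ?_
    · exact (((continuous_apply 0).comp (continuous_snd_iota D)).sub continuous_const).norm
    · change ‖(iota D (kk D q)).2 0 - zq q 0‖ < min 1 (rho D q)
      rw [iota_kk, sub_self, norm_zero]
      exact lt_min one_pos hr
  · intro y hy hpi
    have hy' : ‖(iota D y).2 0 - zq q 0‖ < min 1 (rho D q) := hy
    rcases X_cases D y with ⟨x, rfl⟩ | ⟨q', rfl⟩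
    · rw [pi_pp] at hpi
      subst hpi
      exact absurd (hy'.trans_le (min_le_right _ _)) (lt_irrefl _)
    · by_cases h : q = q'
      · rw [h]
      · exfalso
        obtain ⟨p, hp0, hp1⟩ := zq_zero_one q q' h
        have h1 : ‖(zq q' 0 - zq q 0) p‖ ≤ ‖zq q' 0 - zq q 0‖ :=
          ContinuousMap.norm_coe_le_norm _ p
        have h2 : ‖(zq q' 0 - zq q 0) p‖ = 1 := by
          rw [ContinuousMap.sub_apply, hp0, sub_zero]
          rcases hp1 with h3 | h3 <;> rw [h3] <;> simp
        rw [h2] at h1
        exact absurd (h1.trans_lt (hy'.trans_le (min_le_left _ _))) (lt_irrefl _)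

/-- If a preconnected set `E` meets a neighbourhood `O` of a point `y0 ∈ E` only in `y0`, then `E ⊆ {y0}`.  Proof: the open
sets `interior O` and `{y0}ᶜ` (`X D` is T1 by `X_metrizable`) cover `E` and are disjoint on `E`. -/
theorem single_of_isolated (D : Dat) (E : Set (X D)) (hE : IsPreconnected E) (y0 : X D)
    (h0 : y0 ∈ E) (O : Set (X D)) (hO : O ∈ 𝓝 y0) (h : ∀ y ∈ E, y ∈ O → y = y0) :
    ∀ y ∈ E, y = y0 := by
  have := X_metrizable D
  intro y hy
  by_contra hne
  obtain ⟨z, hz, hz1, hz2⟩ := hE (interior O) {y0}ᶜ isOpen_interior isOpen_compl_singleton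
    (fun z _ => by
      by_cases h' : z = y0
      · left
        rw [h', mem_interior_iff_mem_nhds]
        exact hO
      · exact Or.inr h')
    ⟨y0, h0, mem_interior_iff_mem_nhds.mpr hO⟩ ⟨y, hy, hne⟩
  exact hz2 (h z hz (interior_subset hz1))

/-- (7c) A preconnected subset of a fibre has at most one point: if it contains a special point use `kk_isolated` and
`single_of_isolated`; otherwise it contains only the graph point over `t`. -/
theorem fibre_sub (D : Dat) (E : Set (X D)) (hE : IsPreconnected E) (t : ℝ)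
    (h : ∀ y ∈ E, pi D y = t) : E.Subsingleton := by
  by_cases hk : ∃ q, kk D q ∈ E
  · obtain ⟨q, hq⟩ := hk
    obtain ⟨O, hO, hO'⟩ := kk_isolated D q
    have ht : pos q = t := h _ hq
    have h1 := single_of_isolated D E hE (kk D q) hq O hO fun y hy hyO =>
      hO' y hyO ((h y hy).trans ht.symm)
    intro y hy y' hy'
    rw [h1 y hy, h1 y' hy']
  · have h1 : ∀ y ∈ E, y = pp D t := by
      intro y hy
      rcases X_cases D y with ⟨x, rfl⟩ | ⟨q, rfl⟩
      · have := h _ hy
        rw [pi_pp] at this
        rw [this]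
      · exact absurd ⟨q, hy⟩ hk
    intro y hy y' hy'
    rw [h1 y hy, h1 y' hy']

/-- (7d) A preconnected set which contains a special point and another point has a point strictly to the left.  Proof:
otherwise `pos q ≤ pi D y'` for all `y' ∈ E`; with `O` from `kk_isolated`, `single_of_isolated` applies to
`O ∩ {y | pi D y ≤ pos q}` (`left_nhd`). -/
theorem left_point (D : Dat) (E : Set (X D)) (hE : IsPreconnected E) (q : S) (hq : kk D q ∈ E)
    (y : X D) (hy : y ∈ E) (hne : y ≠ kk D q) : ∃ y' ∈ E, pi D y' < pos q := by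
  by_contra hc
  obtain ⟨O, hO, hO'⟩ := kk_isolated D q
  refine hne (single_of_isolated D E hE (kk D q) hq (O ∩ {y : X D | pi D y ≤ pos q})
    (Filter.inter_mem hO (left_nhd D q)) (fun z hz hzO => ?_) y hy)
  refine hO' z hzO.1 (le_antisymm hzO.2 ?_)
  by_contra hlt
  exact hc ⟨z, hz, not_le.mp hlt⟩

end Pool.Agent.H.MP_0e7155_gt.CE
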