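import Pool.Agent.H.MP_0e7155_gt.CE.Conn1
import Pool.Agent.H.MP_0e7155_gt.CE.Dense

open Set Topology Cardinal

namespace Pool.Agent.H.MP_0e7155_gt.CE

/-- A preconnected set which contains all graph points over an interval contains a zero of each
evaluation. -/
theorem ThmA_core (D : Dat) (Y : Set (X D)) (hY : IsPreconnected Y) (m : ℕ) (p : P)
    (h0 : ∀ y ∈ Y, (iota D y).2 m p ≠ 0) {a b : ℝ} (hab : a < b)
    (hpp : ∀ x, a < x → x < b → pp D x ∈ Y) : False := by
  have hev : Continuous fun z : Z => z m p :=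
    (continuous_eval_const (F := C(P, ℝ)) p).comp (continuous_apply m)
  obtain ⟨x, hx1, hx2, hx3⟩ := graph_dense' D hab {z : Z | 0 < z m p}
    (isOpen_lt continuous_const hev) ⟨fun _ => ContinuousMap.const P 1, by
      show (0 : ℝ) < 1
      norm_num⟩
  obtain ⟨x', hx1', hx2', hx3'⟩ := graph_dense' D hab {z : Z | z m p < 0}
    (isOpen_lt hev continuous_const) ⟨fun _ => ContinuousMap.const P (-1), by
      show (-1 : ℝ) < 0
      norm_num⟩
  have h1 : IsPreconnected ((fun y : X D => (iota D y).2 m p) '' Y) :=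
    hY.image _ (continuous_ev D m p).continuousOn
  have h2 : D.f x' m p ∈ (fun y : X D => (iota D y).2 m p) '' Y :=
    ⟨pp D x', hpp x' hx1' hx2', rfl⟩
  have h3 : D.f x m p ∈ (fun y : X D => (iota D y).2 m p) '' Y :=
    ⟨pp D x, hpp x hx1 hx2, rfl⟩
  have h4 : (0 : ℝ) ∈ (fun y : X D => (iota D y).2 m p) '' Y :=
    h1.Icc_subset h2 h3 ⟨le_of_lt hx3', le_of_lt hx3⟩
  obtain ⟨y, hy, hy0⟩ := h4
  exact h0 y hy hy0

/-- THEOREM A (section 8 of the paper proof).  Let `B = AI A c d ∉ J`. By `D.maxi` there are `v, a < b` with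
`N0 = TI v a b \ B ∈ J`. `v = vv m` (`vv_surj`). Let `p ∈ D.Lam` with `NN p = N0` (`D.lamE`). Let `a' = max a c`,
`b' = min b d`. Then `a' < b'`: some `q ∈ TI v a b` is in `B`, because otherwise `TI v a b = N0 ∈ J`, against `D.big`.
Suppose `YY D A c d` is preconnected. By `restrict` (graph points over `(c, d)` are in `YY D A c d`, `pp_ne_kk`) the set
`Y = {y ∈ YY D A c d | a' < pi D y ∧ pi D y < b'}` is preconnected. The continuous function
`φ y = (iota D y).2 m p` (`continuous_ev`) has no zero on `Y`: for graph points by `D.fgood`; for `kk D q ∈ Y` (so `q ∉ A`,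
`a < pos q < b`, `c < pos q < d`): `zq q m p = 0` would mean `q ∈ T (vv m)` and `q ∉ NN p = N0` (the other values are
plus or minus one); but `q ∈ TI v a b` and `q ∉ B` (as `q ∉ A`), so `q ∈ N0`. By `graph_dense'` (over `(a', b')`, open sets
`{z | 0 < z m p}` and `{z | z m p < 0}`, nonempty by constants) `φ` takes both signs on `Y`. Contradiction (the image
`φ '' Y` is preconnected in `ℝ`, so contains `0`). -/
theorem thmA (D : Dat) (A : Set S) {c d : ℝ} (hA : AI A c d ∉ D.J) :
    ¬ IsPreconnected (YY D A c d) := by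
  intro hpre
  obtain ⟨v, a, b, hab, hJ⟩ := D.maxi _ hA
  obtain ⟨m, rfl⟩ := vv_surj v
  obtain ⟨p, hpL, hp⟩ := D.lamE _ hJ
  have hlt : max a c < min b d := by
    by_contra hcon
    rw [not_lt] at hcon
    have h1 : TI (vv m) a b \ AI A c d = TI (vv m) a b := by
      ext q
      constructor
      · intro h
        exact h.1
      · intro h
        refine ⟨h, fun h2 => ?_⟩
        have h3 : max a c < pos q := max_lt h.2.1 h2.2.1
        have h4 : pos q < min b d := lt_min h.2.2 h2.2.2
        exact absurd (h3.trans h4) (not_lt.2 hcon)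
    rw [h1] at hJ
    exact D.big _ _ _ hab hJ
  have hpp : ∀ x, max a c < x → x < min b d → pp D x ∈ YY D A c d := by
    intro x hx hx'
    refine ⟨?_, ?_, ?_⟩
    · rw [pi_pp]
      exact (le_max_right a c).trans_lt hx
    · rw [pi_pp]
      exact hx'.trans_le (min_le_right b d)
    · intro q _
      exact pp_ne_kk D x q
  have hres := restrict D (YY D A c d) hpre hpp
  refine ThmA_core D _ hres m p ?_ hlt (fun x hx hx' => ⟨hpp x hx hx', hx, hx'⟩)
  rintro y ⟨hy, hy1, hy2⟩
  rcases X_cases D y with ⟨x, rfl⟩ | ⟨q, rfl⟩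
  · rw [iota_pp]
    exact D.fgood x m p hpL
  · rw [iota_kk]
    rw [pi_kk] at hy1 hy2
    have h5 : ¬ (q ∈ T (vv m) ∧ q ∉ NN p) := by
      rintro ⟨h6, h7⟩
      apply h7
      rw [hp]
      refine ⟨⟨h6, (le_max_left a c).trans_lt hy1, hy2.trans_le (min_le_left b d)⟩, fun h8 => ?_⟩
      exact hy.2.2 q h8.1 rfl
    have h9 : zq q m p = sg ((kap (lab q m)).1 p) := by
      simp only [zq, ContinuousMap.coe_mk]
      rw [if_neg h5]
    show zq q m p ≠ 0
    rw [h9, sg]
    split_ifs
    · norm_num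
    · norm_num

/-- The graph alone is not preconnected (section 11): with `p` from `exists_p0` the continuous function
`φ y = (iota D y).2 0 p` has no zero on the set of graph points (`D.fgood`), and takes both signs there (`graph_dense'`). -/
theorem graph_not (D : Dat) : ¬ IsPreconnected (Set.range (pp D)) := by
  intro hpre
  obtain ⟨p, hpL, _⟩ := exists_p0 D
  refine ThmA_core D _ hpre 0 p ?_ (zero_lt_one' ℝ) (fun x _ _ => ⟨x, rfl⟩)
  rintro y ⟨x, rfl⟩
  rw [iota_pp]
  exact D.fgood x 0 p hpL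

end Pool.Agent.H.MP_0e7155_gt.CE
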