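import Pool.Agent.H.MP_0e7155_gt.CE.EndC

open Set Topology Cardinal

namespace Pool.Agent.H.MP_0e7155_gt.CE

/-- THEOREM B. -/
theorem thmB (D : Dat) (A : Set S) {c d : ℝ} (hA : AI A c d ∈ D.J) :
    IsPreconnected (YY D A c d) := by
  by_contra h
  obtain ⟨s⟩ := exists_Sepn D A h
  exact s.false hA

end Pool.Agent.H.MP_0e7155_gt.CE
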