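import Pool.Agent.H.MP_0e7155_gt.CE.Conn1
import Pool.Agent.H.MP_0e7155_gt.CE.Conn2
import Pool.Agent.H.MP_0e7155_gt.CE.ThmA
import Pool.Agent.H.MP_0e7155_gt.CE.ThmB

open Set Topology Cardinal

namespace Pool.Agent.H.MP_0e7155_gt.CE

/-- Points over the right end are in the closure of `YY D A c t`.  Proof: `y = pp D t`: a neighbourhood contains `iota D ⁻¹' W`
(`nhds_pp`), and `graph_dense` applied to the interior of `W` intersected with the strip `c < x < t` (nonempty: `(t, D.f t)` is in the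
interior of `W`, so points slightly to the left too) gives a graph point. `y = kk D q`, `pos q = t`: `nhds_kk` and `graph_dense'` over
`(max c (t - ε), t)` with the interior of `W`. -/
theorem mem_closure_right (D : Dat) (A : Set S) {c t : ℝ} (h : c < t) (y : X D) (hy : pi D y = t) :
    y ∈ closure (YY D A c t) := by
  rw [mem_closure_iff_nhds]
  intro O hO
  rcases X_cases D y with ⟨x, rfl⟩ | ⟨q, rfl⟩
  · rw [pi_pp] at hy
    subst hy
    obtain ⟨W, hW, hWO⟩ := nhds_pp D x O hO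
    obtain ⟨U, hU, V, hV, hUV⟩ := mem_nhds_prod_iff.1 hW
    obtain ⟨e, he, heU⟩ := Metric.mem_nhds_iff.1 hU
    obtain ⟨x', h1, h2, h3⟩ := graph_dense' D (a := max c (x - e)) (b := x)
      (max_lt h (by linarith)) (interior V) isOpen_interior ⟨_, mem_interior_iff_mem_nhds.2 hV⟩
    have h4 : x - e < x' := lt_of_le_of_lt (le_max_right _ _) h1
    refine ⟨pp D x', hWO (hUV ⟨heU ?_, interior_subset h3⟩), lt_of_le_of_lt (le_max_left _ _) h1, h2,
      fun q _ => pp_ne_kk D x' q⟩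
    show x' ∈ Metric.ball x e
    rw [Metric.mem_ball, Real.dist_eq, abs_lt]
    constructor <;> linarith
  · rw [pi_kk] at hy
    obtain ⟨e, he, W, hW, hWO⟩ := nhds_kk D q O hO
    obtain ⟨x', h1, h2, h3⟩ := graph_dense' D (a := max c (t - e)) (b := t)
      (max_lt h (by linarith)) (interior W) isOpen_interior ⟨_, mem_interior_iff_mem_nhds.2 hW⟩
    have h4 : t - e < x' := lt_of_le_of_lt (le_max_right _ _) h1
    refine ⟨pp D x', hWO _ ?_ ?_ (interior_subset h3), lt_of_le_of_lt (le_max_left _ _) h1, h2,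
      fun q _ => pp_ne_kk D x' q⟩
    · rw [pi_pp]; linarith
    · rw [pi_pp]; linarith

/-- The graph point over the left end is in the closure of `YY D A c t`; as before. -/
theorem mem_closure_left (D : Dat) (A : Set S) {c t : ℝ} (h : c < t) :
    pp D c ∈ closure (YY D A c t) := by
  rw [mem_closure_iff_nhds]
  intro O hO
  obtain ⟨W, hW, hWO⟩ := nhds_pp D c O hO
  obtain ⟨U, hU, V, hV, hUV⟩ := mem_nhds_prod_iff.1 hW
  obtain ⟨e, he, heU⟩ := Metric.mem_nhds_iff.1 hU
  obtain ⟨x', h1, h2, h3⟩ := graph_dense' D (a := c) (b := min t (c + e))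
    (lt_min h (by linarith)) (interior V) isOpen_interior ⟨_, mem_interior_iff_mem_nhds.2 hV⟩
  have h4 : x' < c + e := lt_of_lt_of_le h2 (min_le_right _ _)
  refine ⟨pp D x', hWO (hUV ⟨heU ?_, interior_subset h3⟩), h1, lt_of_lt_of_le h2 (min_le_left _ _),
    fun q _ => pp_ne_kk D x' q⟩
  show x' ∈ Metric.ball c e
  rw [Metric.mem_ball, Real.dist_eq, abs_lt]
  constructor <;> linarith

/-- Left room.  If `E` is preconnected, `y1, y2 ∈ E` are different, `pi D y1 ≤ pi D y2`, then: either `y1` is a graph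
point with `pi D y1 < pi D y2`, or there is `c0 < pi D y1` such that `E` contains all graph points over `(c0, pi D y2)`.
Proof: if `y1 = kk D q`: `left_point` gives `y' ∈ E` with `pi D y' < pos q`; take `c0 = pi D y'` and `mid_mem` for `y', y2`. If `y1 = pp D t`
and `pi D y2 = t`, then `y2 = kk D q` with `pos q = t`; use `left_point` for `q`. -/
theorem left_room (D : Dat) (E : Set (X D)) (hE : IsPreconnected E) {y1 y2 : X D} (h1 : y1 ∈ E)
    (h2 : y2 ∈ E) (hne : y1 ≠ y2) (hle : pi D y1 ≤ pi D y2) :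
    (y1 = pp D (pi D y1) ∧ pi D y1 < pi D y2) ∨
      ∃ c0, c0 < pi D y1 ∧ ∀ x, c0 < x → x < pi D y2 → pp D x ∈ E := by
  rcases X_cases D y1 with ⟨x, rfl⟩ | ⟨q, rfl⟩
  · rw [pi_pp] at hle ⊢
    rcases hle.lt_or_eq with hlt | heq
    · exact Or.inl ⟨rfl, hlt⟩
    · right
      rcases X_cases D y2 with ⟨x2, rfl⟩ | ⟨q, rfl⟩
      · rw [pi_pp] at heq
        exact absurd (congrArg (pp D) heq) hne
      · obtain ⟨y', hy', hlt⟩ := left_point D E hE q h2 _ h1 hne
        rw [pi_kk] at heq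
        refine ⟨pi D y', by rw [heq]; exact hlt, fun x' hx1 hx2 => mid_mem D E hE hy' h2 hx1 hx2⟩
  · right
    obtain ⟨y', hy', hlt⟩ := left_point D E hE q h1 _ h2 hne.symm
    exact ⟨pi D y', hlt, fun x' hx1 hx2 => mid_mem D E hE hy' h2 hx1 hx2⟩

/-- The set of missing special points of a preconnected set over an interval is in `J`.  Proof: by `restrict` the set
`{y ∈ E | c < pi D y < t}` is preconnected; it equals `YY D A c t` with `A = {q | kk D q ∉ E}` (`X_cases`); by `thmA`, `AI A c t ∈ J`. -/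
theorem missing_mem (D : Dat) (E : Set (X D)) (hE : IsPreconnected E) {c t : ℝ}
    (hp : ∀ x, c < x → x < t → pp D x ∈ E) : AI {q | kk D q ∉ E} c t ∈ D.J := by
  by_contra hJ
  apply thmA D _ hJ
  have h1 := restrict D E hE hp
  have h2 : {y | y ∈ E ∧ c < pi D y ∧ pi D y < t} = YY D {q | kk D q ∉ E} c t := by
    ext y
    constructor
    · rintro ⟨hy, h3, h4⟩
      exact ⟨h3, h4, fun q hq hyq => hq (hyq ▸ hy)⟩
    · rintro ⟨h3, h4, h5⟩
      refine ⟨?_, h3, h4⟩
      rcases X_cases D y with ⟨x, rfl⟩ | ⟨q, rfl⟩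
      · exact hp x h3 h4
      · by_contra hq
        exact h5 q hq rfl
  rwa [h2] at h1

/-- Two points of the intersection of two preconnected sets lie in a preconnected subset of the intersection (section 10).
Proof: by symmetry `pi D y1 ≤ pi D y2` in the next theorem. Let `t2 = pi D y2`. `left_room` for `E1` and `E2`: if `y1` is a graph point
with `pi D y1 < t2` take `c = pi D y1` (graph points over `(c, t2)` are in both sets by `mid_mem`); otherwise both have `c1, c2 < pi D y1`, take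
`c = max c1 c2`. Let `A = {q | kk D q ∉ E1} ∪ {q | kk D q ∉ E2}`; `AI A c t2 ∈ J` (`missing_mem`, `D.un`, `D.down`). `Y = YY D A c t2` is preconnected (`thmB`),
contained in `E1 ∩ E2` (`X_cases`). `y2 ∈ closure Y` (`mem_closure_right`); `y1 ∈ closure Y`: in the first case by `mem_closure_left`, in the second
case `y1` is over `t2` (`mem_closure_right`) or `y1 ∈ Y` because `c < pi D y1 < t2` and `y1 ∈ E1 ∩ E2`. So `Y ∪ {y1, y2}` is preconnected
(`IsPreconnected.subset_closure`). -/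
theorem pair_le (D : Dat) (E1 E2 : Set (X D)) (h1 : IsPreconnected E1) (h2 : IsPreconnected E2)
    {y1 y2 : X D} (hy1 : y1 ∈ E1 ∩ E2) (hy2 : y2 ∈ E1 ∩ E2) (hle : pi D y1 ≤ pi D y2) :
    ∃ T', T' ⊆ E1 ∩ E2 ∧ y1 ∈ T' ∧ y2 ∈ T' ∧ IsPreconnected T' := by
  by_cases hne : y1 = y2
  · subst hne
    exact ⟨{y1}, singleton_subset_iff.2 hy1, rfl, rfl, isPreconnected_singleton⟩
  have key : ∀ c : ℝ, c < pi D y2 → (∀ x, c < x → x < pi D y2 → pp D x ∈ E1) →
      (∀ x, c < x → x < pi D y2 → pp D x ∈ E2) →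
      (∀ A : Set S, (∀ q ∈ A, y1 ≠ kk D q) → y1 ∈ closure (YY D A c (pi D y2))) →
      ∃ T', T' ⊆ E1 ∩ E2 ∧ y1 ∈ T' ∧ y2 ∈ T' ∧ IsPreconnected T' := by
    intro c hc hp1 hp2 hcl
    have hA : AI ({q | kk D q ∉ E1} ∪ {q | kk D q ∉ E2}) c (pi D y2) ∈ D.J := by
      refine D.down _ _ ?_ (D.un _ _ (missing_mem D E1 h1 hp1) (missing_mem D E2 h2 hp2))
      rintro q ⟨hq | hq, h3⟩
      · exact Or.inl ⟨hq, h3⟩
      · exact Or.inr ⟨hq, h3⟩
    have hY := thmB D ({q | kk D q ∉ E1} ∪ {q | kk D q ∉ E2}) hA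
    refine ⟨YY D ({q | kk D q ∉ E1} ∪ {q | kk D q ∉ E2}) c (pi D y2) ∪ {y1, y2}, ?_,
      Or.inr (Or.inl rfl), Or.inr (Or.inr rfl), hY.subset_closure subset_union_left ?_⟩
    · rintro y (⟨h3, h4, h5⟩ | hy | hy)
      · rcases X_cases D y with ⟨x, rfl⟩ | ⟨q, rfl⟩
        · exact ⟨hp1 x h3 h4, hp2 x h3 h4⟩
        · constructor
          · by_contra hq
            exact h5 q (Or.inl hq) rfl
          · by_contra hq
            exact h5 q (Or.inr hq) rfl
      · rw [hy]; exact hy1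
      · rw [mem_singleton_iff.1 hy]; exact hy2
    · rintro y (hy | hy | hy)
      · exact subset_closure hy
      · rw [hy]
        refine hcl _ ?_
        rintro q (hq | hq) rfl
        · exact hq hy1.1
        · exact hq hy1.2
      · rw [mem_singleton_iff.1 hy]
        exact mem_closure_right D _ hc y2 rfl
  have hA : (y1 = pp D (pi D y1) ∧ pi D y1 < pi D y2) →
      ∃ T', T' ⊆ E1 ∩ E2 ∧ y1 ∈ T' ∧ y2 ∈ T' ∧ IsPreconnected T' := by
    rintro ⟨h3, h4⟩
    refine key (pi D y1) h4 (fun x hx1 hx2 => mid_mem D E1 h1 hy1.1 hy2.1 hx1 hx2)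
      (fun x hx1 hx2 => mid_mem D E2 h2 hy1.2 hy2.2 hx1 hx2) (fun A _ => ?_)
    have h5 := mem_closure_left D A h4
    rwa [← h3] at h5
  rcases left_room D E1 h1 hy1.1 hy2.1 hne hle with h3 | ⟨c1, hc1, hp1⟩
  · exact hA h3
  rcases left_room D E2 h2 hy1.2 hy2.2 hne hle with h3 | ⟨c2, hc2, hp2⟩
  · exact hA h3
  have hc : max c1 c2 < pi D y1 := max_lt hc1 hc2
  refine key (max c1 c2) (hc.trans_le hle)
    (fun x hx1 hx2 => hp1 x ((le_max_left _ _).trans_lt hx1) hx2)
    (fun x hx1 hx2 => hp2 x ((le_max_right _ _).trans_lt hx1) hx2) (fun A hA' => ?_)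
  rcases hle.lt_or_eq with hlt | heq
  · exact subset_closure ⟨hc, hlt, hA'⟩
  · exact mem_closure_right D A (hc.trans_le hle) y1 heq

/-- THE CONNECTED INTERSECTION PROPERTY. -/
theorem cip (D : Dat) (E1 E2 : Set (X D)) (h1 : IsPreconnected E1) (h2 : IsPreconnected E2) :
    IsPreconnected (E1 ∩ E2) := by
  refine isPreconnected_of_forall_pair (fun y1 hy1 y2 hy2 => ?_)
  rcases le_total (pi D y1) (pi D y2) with h | h
  · obtain ⟨T', k1, k2, k3, k4⟩ := pair_le D E1 E2 h1 h2 hy1 hy2 h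
    exact ⟨T', k1, k2, k3, k4⟩
  · obtain ⟨T', k1, k2, k3, k4⟩ := pair_le D E1 E2 h1 h2 hy2 hy1 h
    exact ⟨T', k1, k3, k2, k4⟩

end Pool.Agent.H.MP_0e7155_gt.CE
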