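import Pool.Agent.H.MP_0e7155_gt.CE.XNhd

open Set Topology Cardinal

namespace Pool.Agent.H.MP_0e7155_gt.CE

open Classical in
/-- The retraction to the right. -/
noncomputable def Conn1_rr (D : Dat) (a : ℝ) (y : X D) : X D := if a < pi D y then y else pp D a

open Classical in
/-- The retraction to the left. -/
noncomputable def Conn1_rl (D : Dat) (b : ℝ) (y : X D) : X D := if pi D y ≤ b then y else pp D b

theorem Conn1_rr_of_lt (D : Dat) {a : ℝ} {y : X D} (h : a < pi D y) : Conn1_rr D a y = y := by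
  unfold Conn1_rr
  rw [if_pos h]

theorem Conn1_rr_of_le (D : Dat) {a : ℝ} {y : X D} (h : pi D y ≤ a) : Conn1_rr D a y = pp D a := by
  unfold Conn1_rr
  rw [if_neg (not_lt.2 h)]

theorem Conn1_rl_of_le (D : Dat) {b : ℝ} {y : X D} (h : pi D y ≤ b) : Conn1_rl D b y = y := by
  unfold Conn1_rl
  rw [if_pos h]

theorem Conn1_rl_of_lt (D : Dat) {b : ℝ} {y : X D} (h : b < pi D y) : Conn1_rl D b y = pp D b := by
  unfold Conn1_rl
  rw [if_neg (not_le.2 h)]

theorem Conn1_lt_nhds (D : Dat) {a : ℝ} {y : X D} (h : pi D y < a) : ∀ᶠ y' in 𝓝 y, pi D y' < a :=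
  (continuous_pi D).continuousAt.eventually_lt_const h

theorem Conn1_gt_nhds (D : Dat) {a : ℝ} {y : X D} (h : a < pi D y) : ∀ᶠ y' in 𝓝 y, a < pi D y' :=
  (continuous_pi D).continuousAt.eventually_const_lt h

theorem Conn1_rr_continuous (D : Dat) (a : ℝ) : Continuous (Conn1_rr D a) := by
  rw [continuous_iff_continuousAt]
  intro y
  rcases lt_trichotomy (pi D y) a with h | h | h
  · have h1 : Conn1_rr D a =ᶠ[𝓝 y] fun _ => pp D a := by
      filter_upwards [Conn1_lt_nhds D h] with y' hy'
      exact Conn1_rr_of_le D hy'.le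
    exact (continuousAt_const (y := pp D a)).congr h1.symm
  · rcases X_cases D y with ⟨x, rfl⟩ | ⟨q, rfl⟩
    · rw [pi_pp] at h
      subst h
      unfold ContinuousAt
      rw [Conn1_rr_of_le D (le_of_eq (pi_pp D x))]
      intro O hO
      rw [Filter.mem_map]
      filter_upwards [hO] with y' hy'
      by_cases h1 : x < pi D y'
      · rw [mem_preimage, Conn1_rr_of_lt D h1]
        exact hy'
      · rw [mem_preimage, Conn1_rr_of_le D (not_lt.1 h1)]
        exact mem_of_mem_nhds hO
    · rw [pi_kk] at h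
      have h1 : Conn1_rr D a =ᶠ[𝓝 (kk D q)] fun _ => pp D a := by
        filter_upwards [left_nhd D q] with y' hy'
        exact Conn1_rr_of_le D (le_of_le_of_eq hy' h)
      exact (continuousAt_const (y := pp D a)).congr h1.symm
  · have h1 : Conn1_rr D a =ᶠ[𝓝 y] fun y' => y' := by
      filter_upwards [Conn1_gt_nhds D h] with y' hy'
      exact Conn1_rr_of_lt D hy'
    exact continuousAt_id.congr h1.symm

theorem Conn1_rl_continuous (D : Dat) (b : ℝ) : Continuous (Conn1_rl D b) := by
  rw [continuous_iff_continuousAt]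
  intro y
  rcases lt_trichotomy (pi D y) b with h | h | h
  · have h1 : Conn1_rl D b =ᶠ[𝓝 y] fun y' => y' := by
      filter_upwards [Conn1_lt_nhds D h] with y' hy'
      exact Conn1_rl_of_le D hy'.le
    exact continuousAt_id.congr h1.symm
  · rcases X_cases D y with ⟨x, rfl⟩ | ⟨q, rfl⟩
    · rw [pi_pp] at h
      subst h
      unfold ContinuousAt
      rw [Conn1_rl_of_le D (le_of_eq (pi_pp D x))]
      intro O hO
      rw [Filter.mem_map]
      filter_upwards [hO] with y' hy'
      by_cases h1 : pi D y' ≤ x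
      · rw [mem_preimage, Conn1_rl_of_le D h1]
        exact hy'
      · rw [mem_preimage, Conn1_rl_of_lt D (not_le.1 h1)]
        exact mem_of_mem_nhds hO
    · rw [pi_kk] at h
      have h1 : Conn1_rl D b =ᶠ[𝓝 (kk D q)] fun y' => y' := by
        filter_upwards [left_nhd D q] with y' hy'
        exact Conn1_rl_of_le D (le_of_le_of_eq hy' h)
      exact continuousAt_id.congr h1.symm
  · have h1 : Conn1_rl D b =ᶠ[𝓝 y] fun _ => pp D b := by
      filter_upwards [Conn1_gt_nhds D h] with y' hy'
      exact Conn1_rl_of_lt D hy'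
    exact (continuousAt_const (y := pp D b)).congr h1.symm

/-- The retraction to the right: if `E` is preconnected and contains `pp D a` then the set
`{pp D a} ∪ {y ∈ E | a < pi D y}` is preconnected.  Proof: it is the image of `E` under
`r y = y` if `a < pi D y`, `r y = pp D a` otherwise. `r` is continuous on `X D`
(`IsPreconnected.image` needs `ContinuousOn r E`): at `y` with `pi D y < a` it is constant near `y`, with `a < pi D y` it is
the identity near `y` (`continuous_pi`); at `y = kk D q`, `pos q = a`, it is constant near `y` by `left_nhd`; at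
`y = pp D a`: for every neighbourhood `O` of `pp D a = r (pp D a)` and `y' ∈ O` we have `r y' ∈ O`. -/
theorem ret_right (D : Dat) (E : Set (X D)) (hE : IsPreconnected E) (a : ℝ) (ha : pp D a ∈ E) :
    IsPreconnected ({pp D a} ∪ {y | y ∈ E ∧ a < pi D y}) := by
  have h := hE.image (Conn1_rr D a) (Conn1_rr_continuous D a).continuousOn
  have h1 : Conn1_rr D a '' E = {pp D a} ∪ {y | y ∈ E ∧ a < pi D y} := by
    ext y
    constructor
    · rintro ⟨y', hy', rfl⟩
      by_cases h2 : a < pi D y'
      · right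
        rw [Conn1_rr_of_lt D h2]
        exact ⟨hy', h2⟩
      · left
        rw [Conn1_rr_of_le D (not_lt.1 h2)]
        rfl
    · rintro (h2 | h2)
      · rw [mem_singleton_iff] at h2
        subst h2
        exact ⟨pp D a, ha, Conn1_rr_of_le D (le_of_eq (pi_pp D a))⟩
      · exact ⟨y, h2.1, Conn1_rr_of_lt D h2.2⟩
  rwa [h1] at h

/-- The retraction to the left: if `E` is preconnected and contains `pp D b` then the set
`{y ∈ E | pi D y ≤ b}` is preconnected.  Proof: it is the image of `E` under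
`r y = y` if `pi D y ≤ b`, `r y = pp D b` otherwise. `r` is continuous: at `y` with `pi D y < b` or `b < pi D y` clear; at
`y = kk D q`, `pos q = b`, it is the identity near `y` by `left_nhd`; at `y = pp D b` for every neighbourhood `O` of
`pp D b` and `y' ∈ O` we have `r y' ∈ O`. -/
theorem ret_left (D : Dat) (E : Set (X D)) (hE : IsPreconnected E) (b : ℝ) (hb : pp D b ∈ E) :
    IsPreconnected {y | y ∈ E ∧ pi D y ≤ b} := by
  have h := hE.image (Conn1_rl D b) (Conn1_rl_continuous D b).continuousOn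
  have h1 : Conn1_rl D b '' E = {y | y ∈ E ∧ pi D y ≤ b} := by
    ext y
    constructor
    · rintro ⟨y', hy', rfl⟩
      by_cases h2 : pi D y' ≤ b
      · rw [Conn1_rl_of_le D h2]
        exact ⟨hy', h2⟩
      · rw [Conn1_rl_of_lt D (not_le.1 h2)]
        exact ⟨hb, le_of_eq (pi_pp D b)⟩
    · intro h2
      exact ⟨y, h2.1, Conn1_rl_of_le D h2.2⟩
  rwa [h1] at h

/-- (7a) Restriction to an open interval.  Proof: for `a < a' < b' < b` the set
`{pp D a'} ∪ {y ∈ E | a' < pi D y ≤ b'}` is preconnected: apply `ret_left` (with `b'`) and then `ret_right` (with `a'`) to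
`E`. All these sets are contained in the set in question; any two points `y1, y2` of the set in question lie in a common
one (choose `a'` below and `b'` above both abscissas): `isPreconnected_of_forall_pair`. -/
theorem restrict (D : Dat) (E : Set (X D)) (hE : IsPreconnected E) {a b : ℝ}
    (hp : ∀ x, a < x → x < b → pp D x ∈ E) :
    IsPreconnected {y | y ∈ E ∧ a < pi D y ∧ pi D y < b} := by
  refine isPreconnected_of_forall_pair fun y1 hy1 y2 hy2 => ?_
  obtain ⟨h1, h1a, h1b⟩ := hy1
  obtain ⟨h2, h2a, h2b⟩ := hy2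
  obtain ⟨b', hb1, hb2, hb3⟩ : ∃ b' : ℝ, pi D y1 ≤ b' ∧ pi D y2 ≤ b' ∧ b' < b :=
    ⟨max (pi D y1) (pi D y2), le_max_left _ _, le_max_right _ _, max_lt h1b h2b⟩
  obtain ⟨a', ha, ha1, ha2⟩ : ∃ a' : ℝ, a < a' ∧ a' < pi D y1 ∧ a' < pi D y2 := by
    obtain ⟨a', ha, ha'⟩ := exists_between (lt_min h1a h2a)
    exact ⟨a', ha, lt_of_lt_of_le ha' (min_le_left _ _), lt_of_lt_of_le ha' (min_le_right _ _)⟩
  have hb' : pp D b' ∈ E := hp b' (by linarith) hb3
  have ha' : pp D a' ∈ {y | y ∈ E ∧ pi D y ≤ b'} := by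
    refine ⟨hp a' ha (by linarith), ?_⟩
    rw [pi_pp]
    linarith
  refine ⟨_, ?_, ?_, ?_, ret_right D _ (ret_left D E hE b' hb') a' ha'⟩
  · rintro y (hy | hy)
    · rw [mem_singleton_iff] at hy
      subst hy
      refine ⟨ha'.1, ?_, ?_⟩
      · rw [pi_pp]; exact ha
      · rw [pi_pp]; linarith
    · exact ⟨hy.1.1, ha.trans hy.2, lt_of_le_of_lt hy.1.2 hb3⟩
  · exact Or.inr ⟨⟨h1, hb1⟩, ha1⟩
  · exact Or.inr ⟨⟨h2, hb2⟩, ha2⟩

end Pool.Agent.H.MP_0e7155_gt.CE
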