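import Pool.Agent.H.MP_0e7155_gt.CE.Defs

open Set Topology Cardinal

namespace Pool.Agent.H.MP_0e7155_gt.CE

/-- The combinatorial core of a separation: two disjoint open sets of pairs (abscissa, full pattern) which cover everything over
the abscissas in `(a, b)` outside the small set `E`, with the pivot property for the protected set `L`. -/
structure Core (L : Set P) where
  a : ℝ
  b : ℝ
  hab : a < b
  E : Set ℝ
  small : #E < 𝔠
  U : Set (ℝ × FP)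
  V : Set (ℝ × FP)
  opU : ∀ x g, (x, g) ∈ U → ∃ ε > 0, ∃ M : ℕ, ∀ x' g', |x' - x| < ε →
    (∀ m < M, g' m = g m) → (x', g') ∈ U
  opV : ∀ x g, (x, g) ∈ V → ∃ ε > 0, ∃ M : ℕ, ∀ x' g', |x' - x| < ε →
    (∀ m < M, g' m = g m) → (x', g') ∈ V
  disj : ∀ w, w ∈ U → w ∈ V → False
  cov : ∀ x, a < x → x < b → x ∉ E → ∀ g, (x, g) ∈ U ∨ (x, g) ∈ V
  piv : ∀ x, a < x → x < b → x ∉ E → ∀ (t : ℕ) (p : P) (g : ℕ → FP) (a0 a1 : ℕ → Pat),
    (∀ n, (x, Function.update (g n) t (a0 n)) ∈ U) →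
    (∀ n, (x, Function.update (g n) t (a1 n)) ∈ V) →
    (∀ n n' m, m < n → n ≤ n' → m ≠ t → g n' m = g n m) →
    (∀ n n' p', n ≤ n' → p' ∉ cyl p n →
      (a0 n').1 p' = (a0 n).1 p' ∧ (a1 n').1 p' = (a0 n).1 p') → p ∈ L

/-- The core depends on the coordinate `t`. -/
def Core.DepAt {L : Set P} (K : Core L) (t : ℕ) : Prop :=
  ∃ x g e0 e1, K.a < x ∧ x < K.b ∧ x ∉ K.E ∧ (x, Function.update g t e0) ∈ K.U ∧
    (x, Function.update g t e1) ∈ K.V

/-- A box at the coordinate `t`. -/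
structure Box {L : Set P} (K : Core L) (t : ℕ) where
  l : ℝ
  r : ℝ
  hlr : l < r
  hl : K.a ≤ l
  hr : r ≤ K.b
  M : ℕ
  g : FP
  a0 : Pat
  a1 : Pat
  hU : ∀ x g', l < x → x < r → (∀ m < M, m ≠ t → g' m = g m) →
    (x, Function.update g' t a0) ∈ K.U
  hV : ∀ x g', l < x → x < r → (∀ m < M, m ≠ t → g' m = g m) →
    (x, Function.update g' t a1) ∈ K.V

/-- the set of pivots of a box -/
def Box.Del {L : Set P} {K : Core L} {t : ℕ} (B : Box K t) : Set P := {p | B.a0.1 p ≠ B.a1.1 p}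

/-- `B'` is a sub-box of `B` -/
def Box.le {L : Set P} {K : Core L} {t : ℕ} (B' B : Box K t) : Prop :=
  B.l ≤ B'.l ∧ B'.r ≤ B.r ∧ B.M ≤ B'.M ∧ (∀ m < B.M, m ≠ t → B'.g m = B.g m) ∧
    ∀ p, p ∉ B.Del → B'.a0.1 p = B.a0.1 p ∧ B'.a1.1 p = B.a0.1 p

/-- The leaf property of a box `B` with pivot `p`. -/
def Box.Leaf {L : Set P} {K : Core L} {t : ℕ} (B : Box K t) (p : P) : Prop :=
  ∀ x, B.l < x → x < B.r → x ∉ K.E → ∀ g' : FP, (∀ m < B.M, m ≠ t → g' m = B.g m) →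
    ∀ e : Pat, (∀ p', p' ∉ B.Del → e.1 p' = B.a0.1 p') →
      (e.1 p = B.a0.1 p → (x, Function.update g' t e) ∈ K.U) ∧
      (e.1 p = B.a1.1 p → (x, Function.update g' t e) ∈ K.V)

variable {L : Set P} {K : Core L} {t : ℕ}

theorem Box.le_refl (B : Box K t) : B.le B := by
  refine ⟨_root_.le_refl _, _root_.le_refl _, _root_.le_refl _, fun _ _ _ => rfl, fun p hp => ⟨rfl, ?_⟩⟩
  by_contra h
  exact hp (fun h' => h h'.symm)

theorem Box.Del_mono {B' B : Box K t} (h : B'.le B) : B'.Del ⊆ B.Del := by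
  intro p hp
  by_contra h'
  obtain ⟨h1, h2⟩ := h.2.2.2.2 p h'
  exact hp (h1.trans h2.symm)

theorem Box.le_trans {B'' B' B : Box K t} (h1 : B''.le B') (h2 : B'.le B) : B''.le B := by
  refine ⟨_root_.le_trans h2.1 h1.1, _root_.le_trans h1.2.1 h2.2.1, _root_.le_trans h2.2.2.1 h1.2.2.1, ?_, ?_⟩
  · intro m hm hmt
    rw [h1.2.2.2.1 m (lt_of_lt_of_le hm h2.2.2.1) hmt, h2.2.2.2.1 m hm hmt]
  · intro p hp
    have hp' : p ∉ B'.Del := fun h => hp (Box.Del_mono h2 h)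
    obtain ⟨k1, k2⟩ := h1.2.2.2.2 p hp'
    obtain ⟨k3, k4⟩ := h2.2.2.2.2 p hp
    exact ⟨k1.trans k3, k2.trans k3⟩

theorem Box.Del_closed (B : Box K t) : IsClosed B.Del := by
  have h1 : IsOpen {p : P | B.a0.1 p = B.a1.1 p} := by
    have h2 : Continuous (fun p => (B.a0.1 p, B.a1.1 p)) := B.a0.cont.prodMk B.a1.cont
    exact (isOpen_discrete {w : Bool × Bool | w.1 = w.2}).preimage h2
  have h3 : B.Del = {p : P | B.a0.1 p = B.a1.1 p}ᶜ := by
    ext p; simp [Box.Del]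
  rw [h3]
  exact h1.isClosed_compl

/-- Take `x` the midpoint of the interval and `g' = B.g`: if `a0 = a1` then a point is in `U` and in `V`. -/
theorem Box.Del_nonempty (B : Box K t) : B.Del.Nonempty := by
  by_contra h
  have h1 : B.a0 = B.a1 := by
    refine Subtype.ext (funext fun p => ?_)
    by_contra h2
    exact h ⟨p, h2⟩
  have hx1 : B.l < (B.l + B.r) / 2 := by linarith [B.hlr]
  have hx2 : (B.l + B.r) / 2 < B.r := by linarith [B.hlr]
  have hu := B.hU _ B.g hx1 hx2 (fun _ _ _ => rfl)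
  have hv := B.hV _ B.g hx1 hx2 (fun _ _ _ => rfl)
  rw [h1] at hu
  exact K.disj _ hu hv

end Pool.Agent.H.MP_0e7155_gt.CE
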