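import Pool.Agent.H.MP_0e7155_gt.CE.Sel

open Set Topology Cardinal

namespace Pool.Agent.H.MP_0e7155_gt.CE

/-- THE FUNCTION `f`.  Proof (section 4 of the paper proof): `ℝ × Z` is second countable (`C(P, ℝ)` is a separable
metric space because `P` is compact metrizable; there is an instance for second countability of `C(X, Y)`). Let `E`
list its closed subsets (`exists_list_closed`). `A e = {x | ∃ z, (x, z) ∈ E e ∧ Good L z}`. Index type
`I = {e : Set ℕ // 𝔠 ≤ #(A e)}`; `select` gives an injective `g : I → ℝ` with `g i ∈ A i`. Define `f x`: if `x = g i`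
for some (unique) `i`, a chosen good `z` with `(x, z) ∈ E i`; otherwise the constant sequence of the constant
function `1` (good). If `F = E e` is closed and missed by the graph, then `#(A e) < 𝔠`, because otherwise
`i = ⟨e, _⟩` is an index and `(g i, f (g i)) ∈ F`. -/
theorem exists_f (L : Set P) : ∃ f : ℝ → Z, (∀ x, Good L (f x)) ∧
    ∀ F : Set (ℝ × Z), IsClosed F → (∀ x, (x, f x) ∉ F) →
      #{x : ℝ | ∃ z, (x, z) ∈ F ∧ Good L z} < 𝔠 := by
  classical
  obtain ⟨E, -, hE2⟩ := exists_list_closed (ℝ × Z)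
  let A : Set ℕ → Set ℝ := fun e => {x : ℝ | ∃ z, (x, z) ∈ E e ∧ Good L z}
  let I : Type := {e : Set ℕ // 𝔠 ≤ #(A e)}
  have hI : #I ≤ 𝔠 := by
    refine (Cardinal.mk_subtype_le _).trans ?_
    rw [Cardinal.mk_set, Cardinal.mk_nat, Cardinal.two_power_aleph0]
  obtain ⟨g, gi, gA⟩ := select (I := I) (fun i => A i.1) hI (fun i => i.2)
  have hone : Good L (fun _ => (1 : C(P, ℝ))) := by
    intro m p _
    exact one_ne_zero
  have hch : ∀ i : I, ∃ z, (g i, z) ∈ E i.1 ∧ Good L z := fun i => gA i
  choose z hz1 hz2 using hch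
  let f : ℝ → Z := fun x => if h : ∃ i, g i = x then z h.choose else fun _ => 1
  have hf : ∀ i, f (g i) = z i := by
    intro i
    have h : ∃ j, g j = g i := ⟨i, rfl⟩
    have h2 : h.choose = i := gi h.choose_spec
    show (if h : ∃ j, g j = g i then z h.choose else fun _ => 1) = z i
    rw [dif_pos h, h2]
  refine ⟨f, ?_, ?_⟩
  · intro x
    by_cases h : ∃ i, g i = x
    · obtain ⟨i, rfl⟩ := h
      rw [hf]
      exact hz2 i
    · show Good L (if h : ∃ i, g i = x then z h.choose else fun _ => 1)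
      rw [dif_neg h]
      exact hone
  · intro F hF hmiss
    obtain ⟨e, rfl⟩ := hE2 F hF
    by_contra hcon
    have hcon' : 𝔠 ≤ #(A e) := not_lt.1 hcon
    have := hz1 ⟨e, hcon'⟩
    rw [← hf] at this
    exact hmiss _ this

end Pool.Agent.H.MP_0e7155_gt.CE
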