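import Pool.Agent.H.MP_0e7155_gt.CE.Sel

open Set Topology Cardinal

namespace Pool.Agent.H.MP_0e7155_gt.CE

open Classical in
/-- the point which codes `A` at the even coordinates and `θ` at the odd ones -/
noncomputable def LamF_pt (A : Set S) (θ : ℕ → Bool) : P := fun n =>
  if n % 2 = 0 then decide (∃ q ∈ A, Encodable.encode q = n / 2) else θ (n / 2)

theorem LamF_NN (A : Set S) (θ : ℕ → Bool) : NN (LamF_pt A θ) = A := by
  ext q
  have h1 : (2 * Encodable.encode q) % 2 = 0 := by omega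
  have h2 : (2 * Encodable.encode q) / 2 = Encodable.encode q := by omega
  simp only [NN, Set.mem_setOf_eq, LamF_pt, h1, h2, if_true, decide_eq_true_eq]
  constructor
  · rintro ⟨q', hq', he⟩
    rwa [← Encodable.encode_injective he]
  · intro hq
    exact ⟨q, hq, rfl⟩

theorem LamF_inj (A : Set S) : Function.Injective (LamF_pt A) := by
  intro θ θ' h
  funext i
  have h1 : (2 * i + 1) % 2 ≠ 0 := by omega
  have h2 : (2 * i + 1) / 2 = i := by omega
  have h3 := congrFun h (2 * i + 1)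
  simpa only [LamF_pt, h1, h2, if_false] using h3

theorem LamF_mkP : #P = 𝔠 := by
  simp [P]

/-- There are continuum many `p` with `NN p = A`: for every `θ : ℕ → Bool` the point `p` with `p (2 * i)` true iff
there is `q ∈ A` with `Encodable.encode q = i`, and `p (2 * i + 1) = θ i`, satisfies `NN p = A`
(`Encodable.encode_injective`); `θ ↦ p` is injective; `#(ℕ → Bool) = 𝔠`. -/
theorem mk_NN_fibre (A : Set S) : 𝔠 ≤ #{p : P | NN p = A} := by
  rw [← LamF_mkP]
  refine Cardinal.mk_le_of_injective (f := fun θ : P => (⟨LamF_pt A θ, LamF_NN A θ⟩ : {p : P | NN p = A})) ?_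
  intro θ θ' h
  exact LamF_inj A (congrArg Subtype.val h)

theorem LamF_mkI : #(Set S ⊕ (Set ℕ × Set ℕ)) ≤ 𝔠 := by
  have h1 : #(Set S) = 𝔠 := by
    rw [Cardinal.mk_set, Cardinal.mk_eq_aleph0, Cardinal.two_power_aleph0]
  have h2 : #(Set ℕ) = 𝔠 := by
    rw [Cardinal.mk_set, Cardinal.mk_eq_aleph0, Cardinal.two_power_aleph0]
  rw [Cardinal.mk_sum, Cardinal.mk_prod]
  simp only [Cardinal.lift_id, Cardinal.lift_uzero, h1, h2]
  rw [Cardinal.continuum_mul_self, Cardinal.continuum_add_self]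

open Classical in
/-- the sets used in the selection -/
noncomputable def LamF_A (E : Set ℕ → Set P) : Set S ⊕ (Set ℕ × Set ℕ) → Set P :=
  Sum.elim (fun A => {p | NN p = A}) (fun e => if 𝔠 ≤ #(E e.1) then E e.1 else Set.univ)

theorem LamF_A_big (E : Set ℕ → Set P) (i) : 𝔠 ≤ #(LamF_A E i) := by
  rcases i with A | e
  · exact mk_NN_fibre A
  · by_cases h : 𝔠 ≤ #(E e.1)
    · have : LamF_A E (Sum.inr e) = E e.1 := by simp [LamF_A, h]
      rw [this]; exact h
    · have : LamF_A E (Sum.inr e) = Set.univ := by simp [LamF_A, h]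
      rw [this, Cardinal.mk_univ, LamF_mkP]

/-- THE PROTECTED SET.  Proof (section 3 of the paper proof): let `E` list the closed subsets of `P`
(`exists_list_closed`). Index type `I = Set S ⊕ (Set ℕ × Set ℕ)`, of cardinality at most `𝔠`. Sets:
`inl A ↦ {p | NN p = A}` (`mk_NN_fibre`), `inr (e, α) ↦ E e` if `𝔠 ≤ #(E e)`, and `univ` otherwise. `select`
gives an injective `g`. Put `Lam = {p | ∃ A ∈ J, g (inl A) = p}`. For `p = g (inl A)` we have `NN p = A`. For
closed `C = E e` with `𝔠 ≤ #C` the map `α ↦ g (inr (e, α))` is injective from `Set ℕ` into `C \ Lam`. -/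
theorem exists_Lam (J : Set (Set S)) : ∃ Lam : Set P, (∀ p ∈ Lam, NN p ∈ J) ∧
    (∀ A ∈ J, ∃ p ∈ Lam, NN p = A) ∧
    (∀ C : Set P, IsClosed C → 𝔠 ≤ #C → 𝔠 ≤ #(C \ Lam : Set P)) := by
  obtain ⟨E, hE, hE2⟩ := exists_list_closed P
  obtain ⟨g, hg, hgA⟩ := select (LamF_A E) LamF_mkI (LamF_A_big E)
  have hN : ∀ A : Set S, NN (g (Sum.inl A)) = A := fun A => hgA (Sum.inl A)
  refine ⟨{p | ∃ A ∈ J, g (Sum.inl A) = p}, ?_, ?_, ?_⟩
  · rintro p ⟨A, hA, rfl⟩
    rw [hN A]; exact hA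
  · intro A hA
    exact ⟨g (Sum.inl A), ⟨A, hA, rfl⟩, hN A⟩
  · intro C hC hC2
    obtain ⟨e, rfl⟩ := hE2 C hC
    have h1 : #(Set ℕ) = 𝔠 := by
      rw [Cardinal.mk_set, Cardinal.mk_eq_aleph0, Cardinal.two_power_aleph0]
    rw [← h1]
    have h2 : ∀ α : Set ℕ, g (Sum.inr (e, α)) ∈ E e \ {p | ∃ A ∈ J, g (Sum.inl A) = p} := by
      intro α
      refine ⟨?_, ?_⟩
      · have := hgA (Sum.inr (e, α))
        simpa [LamF_A, hC2] using this
      · rintro ⟨A, -, hA⟩
        exact absurd (hg hA) (by simp)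
    refine Cardinal.mk_le_of_injective
      (f := fun α : Set ℕ => (⟨g (Sum.inr (e, α)), h2 α⟩ : (E e \ {p | ∃ A ∈ J, g (Sum.inl A) = p} : Set P))) ?_
    intro α β h
    have h3 := hg (congrArg Subtype.val h)
    simpa using h3

end Pool.Agent.H.MP_0e7155_gt.CE
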