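import Pool.Agent.H.MP_0e7155_gt.CE.JJ
import Pool.Agent.H.MP_0e7155_gt.CE.LamF
import Pool.Agent.H.MP_0e7155_gt.CE.FF

open Set Topology Cardinal

namespace Pool.Agent.H.MP_0e7155_gt.CE

theorem exists_Dat : Nonempty Dat := by
  obtain ⟨J, h1, h2, h3, h4, h5⟩ := exists_J
  obtain ⟨Lam, k1, k2, k3⟩ := exists_Lam J
  obtain ⟨f, f1, f2⟩ := exists_f Lam
  exact ⟨⟨J, h1, h2, h3, h4, h5, Lam, k1, k2, k3, f, f1, f2⟩⟩

end Pool.Agent.H.MP_0e7155_gt.CE
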