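import Mathlib

/-!
# MP_0e7155_gt: the ZFC counterexample.  Definitions.
Paper proof: h37_0e7155_PROOF.md (sections 0 to 11).
-/

open Set Topology Cardinal

namespace Pool.Agent.H.MP_0e7155_gt.CE

/-- the Cantor set -/
abbrev P : Type := ℕ → Bool

/-- the cylinder of all points which agree with `p` below `n` -/
def cyl (p : P) (n : ℕ) : Set P := {p' | ∀ i < n, p' i = p i}

/-- `f` depends only on the coordinates below `n` -/
def Dep {α : Type} (n : ℕ) (f : P → α) : Prop :=
  ∀ p p' : P, (∀ i < n, p i = p' i) → f p = f p'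

theorem cyl_open (p : P) (n : ℕ) : IsOpen (cyl p n) := by
  have : cyl p n = ⋂ i ∈ Finset.range n, {p' : P | p' i = p i} := by
    ext p'; simp [cyl]
  rw [this]
  refine isOpen_biInter_finset (fun i _ => ?_)
  exact (isOpen_discrete ({p i} : Set Bool)).preimage (continuous_apply (A := fun _ => Bool) i)

theorem Dep.continuous {α : Type} [TopologicalSpace α] {n : ℕ} {f : P → α} (h : Dep n f) :
    Continuous f := by
  refine continuous_iff_continuousAt.2 (fun p => ?_)
  have h1 : f =ᶠ[𝓝 p] fun _ => f p := by
    filter_upwards [(cyl_open p n).mem_nhds (fun i _ => rfl)] with p' hp'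
    exact h p' p hp'
  exact (continuousAt_const (y := f p)).congr h1.symm

theorem Dep.mono {α : Type} {n m : ℕ} {f : P → α} (h : Dep n f) (hm : n ≤ m) : Dep m f :=
  fun p p' hp => h p p' (fun i hi => hp i (lt_of_lt_of_le hi hm))

/-- patterns: functions on the Cantor set with values true, false depending on finitely many
coordinates -/
def Pat : Type := {a : P → Bool // ∃ n, Dep n a}

/-- full patterns -/
abbrev FP : Type := ℕ → Pat

theorem Pat.cont (a : Pat) : Continuous a.1 := by
  obtain ⟨n, hn⟩ := a.2
  exact hn.continuous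

instance : Inhabited Pat := ⟨⟨fun _ => true, 0, fun _ _ _ => rfl⟩⟩

/-- extend a finite sequence by false -/
def extF {n : ℕ} (u : Fin n → Bool) : P := fun i => if h : i < n then u ⟨i, h⟩ else false

instance : Countable Pat := by
  have h1 : ∀ n : ℕ, (Set.range (fun (b : (Fin n → Bool) → Bool) =>
      (⟨fun p => b (fun i : Fin n => p i.1), n, fun p p' h => by
        have : (fun i : Fin n => p i.1) = fun i : Fin n => p' i.1 := by
          funext i; exact h i.1 i.2
        simp only [this]⟩ : Pat))).Countable := fun n => Set.countable_range _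
  have h2 : (⋃ n : ℕ, Set.range (fun (b : (Fin n → Bool) → Bool) =>
      (⟨fun p => b (fun i : Fin n => p i.1), n, fun p p' h => by
        have : (fun i : Fin n => p i.1) = fun i : Fin n => p' i.1 := by
          funext i; exact h i.1 i.2
        simp only [this]⟩ : Pat))).Countable := Set.countable_iUnion h1
  have h3 : (Set.univ : Set Pat).Countable := by
    refine h2.mono (fun a _ => ?_)
    obtain ⟨a, n, hn⟩ := a
    refine Set.mem_iUnion.2 ⟨n, fun u => a (extF u), ?_⟩
    refine Subtype.ext ?_
    funext p
    refine hn _ _ (fun i hi => ?_)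
    simp [extF, hi]
  exact Set.countable_univ_iff.1 h3

/-- an enumeration of all patterns -/
noncomputable def kap : ℕ → Pat := Classical.choose (exists_surjective_nat Pat)

theorem kap_surj : Function.Surjective kap := Classical.choose_spec (exists_surjective_nat Pat)

/-- the fibre -/
abbrev Z : Type := ℕ → C(P, ℝ)

/-- the sign of a truth value -/
def sg (b : Bool) : ℝ := if b then 1 else -1

/-- the point with values plus minus one with signs given by the full pattern `g` -/
noncomputable def zg (g : FP) : Z := fun m =>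
  ⟨fun p => sg ((g m).1 p), by
    have h : Continuous sg := continuous_of_discreteTopology
    exact h.comp (g m).cont⟩

/-- the convex cell of all points (without zeros) whose signs are given by the full pattern -/
def CC (g : FP) : Set Z := {z | ∀ m p, 0 < sg ((g m).1 p) * z m p}

/-- positions with labels -/
abbrev S : Type := List ℕ × ℚ

/-- the label of `q`: an infinite sequence of naturals, eventually zero -/
def lab (q : S) (i : ℕ) : ℕ := q.1.getD i 0

/-- the position of `q` -/
def pos (q : S) : ℝ := (q.2 : ℝ)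

/-- all `q` whose label extends the finite sequence `v` -/
def T (v : List ℕ) : Set S := {q | ∀ i < v.length, lab q i = v.getD i 0}

/-- all `q` whose label extends `v` and whose position is strictly between `a` and `b` -/
def TI (v : List ℕ) (a b : ℝ) : Set S := {q | q ∈ T v ∧ a < pos q ∧ pos q < b}

/-- an enumeration of the finite sequences, `vv m` has length at most `m` -/
def vv (m : ℕ) : List ℕ := Denumerable.ofNat (List ℕ) m

theorem vv_surj (v : List ℕ) : ∃ m, vv m = v := ⟨Encodable.encode v, Denumerable.ofNat_encode v⟩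

theorem vv_len (m : ℕ) : (vv m).length ≤ m := by
  have := Encodable.length_le_encode (vv m)
  rwa [show Encodable.encode (vv m) = m from Denumerable.encode_ofNat m] at this

theorem vv_zero : vv 0 = [] := by
  have := vv_len 0
  exact List.length_eq_zero_iff.1 (Nat.le_zero.1 this)

theorem T_vv_zero : T (vv 0) = Set.univ := by
  rw [vv_zero]; ext q; simp [T]

/-- the subset of `S` coded by the even coordinates of `p` -/
def NN (p : P) : Set S := {q | p (2 * Encodable.encode q) = true}

open Classical in
/-- the point of the fibre in which the special point `q` sits -/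
noncomputable def zq (q : S) : Z := fun m =>
  ⟨fun p => if q ∈ T (vv m) ∧ q ∉ NN p then 0 else sg ((kap (lab q m)).1 p), by
    obtain ⟨n, hn⟩ := (kap (lab q m)).2
    have h : Dep (max n (2 * Encodable.encode q + 1))
        (fun p : P => if q ∈ T (vv m) ∧ q ∉ NN p then (0 : ℝ) else sg ((kap (lab q m)).1 p)) := by
      intro p p' hp
      have h1 : (kap (lab q m)).1 p = (kap (lab q m)).1 p' :=
        hn p p' (fun i hi => hp i (lt_of_lt_of_le hi (le_max_left _ _)))
      have h2 : p (2 * Encodable.encode q) = p' (2 * Encodable.encode q) :=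
        hp _ (lt_of_lt_of_le (Nat.lt_succ_self _) (le_max_right _ _))
      have h3 : (q ∈ NN p) ↔ (q ∈ NN p') := by simp [NN, h2]
      simp only [h1]
      by_cases h4 : q ∈ T (vv m) ∧ q ∉ NN p
      · have h5 : q ∈ T (vv m) ∧ q ∉ NN p' := by rwa [← h3]
        rw [if_pos h4, if_pos h5]
      · have h5 : ¬ (q ∈ T (vv m) ∧ q ∉ NN p') := by rwa [← h3]
        rw [if_neg h4, if_neg h5]
    exact h.continuous⟩

/-- `z` has no zero on the protected leaves `(m, p)`, `p ∈ L` -/
def Good (L : Set P) (z : Z) : Prop := ∀ m, ∀ p ∈ L, z m p ≠ 0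

/-- The data of the construction: a maximal ideal `J` of allowed sets, the protected set `Lam`, the
function `f`. -/
structure Dat where
  J : Set (Set S)
  down : ∀ A B, A ⊆ B → B ∈ J → A ∈ J
  un : ∀ A B, A ∈ J → B ∈ J → A ∪ B ∈ J
  sing : ∀ q, {q} ∈ J
  big : ∀ v a b, a < b → TI v a b ∉ J
  maxi : ∀ A, A ∉ J → ∃ v a b, a < b ∧ TI v a b \ A ∈ J
  Lam : Set P
  lamJ : ∀ p ∈ Lam, NN p ∈ J
  lamE : ∀ A ∈ J, ∃ p ∈ Lam, NN p = A
  lamT : ∀ C : Set P, IsClosed C → 𝔠 ≤ #C → 𝔠 ≤ #(C \ Lam : Set P)
  f : ℝ → Z
  fgood : ∀ x, Good Lam (f x)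
  fmiss : ∀ F : Set (ℝ × Z), IsClosed F → (∀ x, (x, f x) ∉ F) →
    #{x : ℝ | ∃ z, (x, z) ∈ F ∧ Good Lam z} < 𝔠

theorem Dat.empty (D : Dat) : (∅ : Set S) ∈ D.J := D.down _ _ (Set.empty_subset _) (D.sing default)

/-- the underlying set of the space -/
def X (_ : Dat) : Type := ℝ ⊕ S

/-- the graph point over `x` -/
def pp (D : Dat) (x : ℝ) : X D := Sum.inl x

/-- the special point with index `q` -/
def kk (D : Dat) (q : S) : X D := Sum.inr q

/-- the position in `ℝ × Z` -/
noncomputable def iota (D : Dat) : X D → ℝ × Z :=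
  Sum.elim (fun x => (x, D.f x)) (fun q => (pos q, zq q))

/-- the projection to the line -/
noncomputable def pi (D : Dat) (y : X D) : ℝ := (iota D y).1

@[simp] theorem iota_pp (D : Dat) (x : ℝ) : iota D (pp D x) = (x, D.f x) := rfl
@[simp] theorem iota_kk (D : Dat) (q : S) : iota D (kk D q) = (pos q, zq q) := rfl
@[simp] theorem pi_pp (D : Dat) (x : ℝ) : pi D (pp D x) = x := rfl
@[simp] theorem pi_kk (D : Dat) (q : S) : pi D (kk D q) = pos q := rfl

theorem X_cases (D : Dat) (y : X D) : (∃ x, y = pp D x) ∨ ∃ q, y = kk D q := by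
  rcases y with x | q
  · exact Or.inl ⟨x, rfl⟩
  · exact Or.inr ⟨q, rfl⟩

theorem pp_ne_kk (D : Dat) (x : ℝ) (q : S) : pp D x ≠ kk D q := by
  intro h; exact Sum.inl_ne_inr h

theorem pp_inj (D : Dat) {x x' : ℝ} (h : pp D x = pp D x') : x = x' := Sum.inl_injective h
theorem kk_inj (D : Dat) {q q' : S} (h : kk D q = kk D q') : q = q' := Sum.inr_injective h

/-- distance in the coordinate `0` of the fibre between `f (pos q)` and `zq q` -/
noncomputable def rho (D : Dat) (q : S) : ℝ := ‖D.f (pos q) 0 - zq q 0‖

open Classical in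
/-- the additional coordinate `h_q` -/
noncomputable def hh (D : Dat) (q : S) (w : ℝ × Z) : ℝ :=
  if pos q < w.1 then max 0 (1 - ‖w.2 0 - zq q 0‖ / rho D q) else 0

/-- the embedding which defines the topology -/
noncomputable def Phi (D : Dat) (y : X D) : (ℝ × Z) × (S → ℝ) :=
  (iota D y, fun q => hh D q (iota D y))

noncomputable instance (D : Dat) : TopologicalSpace (X D) :=
  TopologicalSpace.induced (Phi D) inferInstance

/-- all points over the open interval `(c, d)` except the special points with index in `A` -/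
def YY (D : Dat) (A : Set S) (c d : ℝ) : Set (X D) :=
  {y | c < pi D y ∧ pi D y < d ∧ ∀ q ∈ A, y ≠ kk D q}

/-- the part of `A` with position in `(c, d)` -/
def AI (A : Set S) (c d : ℝ) : Set S := {q | q ∈ A ∧ c < pos q ∧ pos q < d}

end Pool.Agent.H.MP_0e7155_gt.CE
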