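import Pool.Agent.H.MP_0e7155_gt.CE.SepCore

open Set Topology Cardinal

namespace Pool.Agent.H.MP_0e7155_gt.CE

/-- If the core does not depend on the coordinates `m < s`, the side does not change when a full pattern is changed in
finitely many coordinates below `s`.  Proof: it is enough to change one coordinate `t < s` (induction on the number of changed
coordinates, i.e. on `s' ≤ s`: patterns which agree with `g'` below `s'` and with `g` from `s'` on): suppose
`(x, g) ∈ U` and `(x, update g t e) ∉ U`; by `K.cov` it is in `V`; with `e0 = g t` (`Function.update_eq_self`) this is dependence at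
`t`. -/
theorem Core.change_low {L : Set P} (K : Core L) (s : ℕ) (hs : ∀ t < s, ¬ K.DepAt t) {x : ℝ}
    (ha : K.a < x) (hb : x < K.b) (hx : x ∉ K.E) (g g' : FP) (hg : ∀ m, s ≤ m → g m = g' m)
    (h : (x, g) ∈ K.U) : (x, g') ∈ K.U := by
  classical
  have key : ∀ s' ≤ s, (x, fun m => if m < s' then g' m else g m) ∈ K.U := by
    intro s'
    induction s' with
    | zero => intro _; simpa using h
    | succ k ih =>
      intro hk
      have h1 := ih (by omega)
      have h2 : (fun m => if m < k + 1 then g' m else g m) =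
          Function.update (fun m => if m < k then g' m else g m) k (g' k) := by
        funext m
        by_cases hm : m = k
        · subst hm; simp
        · rw [Function.update_of_ne hm]
          by_cases hm2 : m < k
          · simp [hm2, Nat.lt_succ_of_lt hm2]
          · have hm3 : ¬ m < k + 1 := by omega
            simp [hm2, hm3]
      rcases K.cov x ha hb hx (fun m => if m < k + 1 then g' m else g m) with h3 | h3
      · exact h3
      · exfalso
        refine hs k (by omega) ⟨x, fun m => if m < k then g' m else g m,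
          (fun m => if m < k then g' m else g m) k, g' k, ha, hb, hx, ?_, ?_⟩
        · rw [Function.update_eq_self]; exact h1
        · rw [← h2]; exact h3
  have h4 := key s le_rfl
  have h5 : (fun m => if m < s then g' m else g m) = g' := by
    funext m
    by_cases hm : m < s
    · simp [hm]
    · simp [hm, hg m (by omega)]
  rwa [h5] at h4

/-- If the core depends on no coordinate then over every abscissa all full patterns are on the same side.  Proof: suppose
`(x, g) ∈ U` and `(x, g') ∉ U`, so `(x, g') ∈ V` (`K.cov`). By `K.opU` there is `M` with `(x, g'') ∈ U` for every `g''` which agrees with `g`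
below `M`; take `g''` equal to `g` below `M` and to `g'` from `M` on; then `Core.change_low` with `s = M` gives `(x, g') ∈ U`,
contradiction. -/
theorem Core.all_same {L : Set P} (K : Core L) (hs : ∀ t, ¬ K.DepAt t) {x : ℝ}
    (ha : K.a < x) (hb : x < K.b) (hx : x ∉ K.E) :
    (∀ g, (x, g) ∈ K.U) ∨ (∀ g, (x, g) ∈ K.V) := by
  classical
  by_contra hc
  rw [not_or] at hc
  push Not at hc
  obtain ⟨⟨g, hg⟩, ⟨g', hg'⟩⟩ := hc
  have h1 : (x, g) ∈ K.V := (K.cov x ha hb hx g).resolve_left hg
  have h2 : (x, g') ∈ K.U := (K.cov x ha hb hx g').resolve_right hg'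
  obtain ⟨ε, hε, M, hM⟩ := K.opU x g' h2
  have h3 : (x, fun m => if m < M then g' m else g m) ∈ K.U :=
    hM x _ (by simpa using hε) (fun m hm => by simp [hm])
  exact hg (K.change_low M (fun t _ => hs t) ha hb hx _ g
    (fun m hm => by simp [not_lt.2 hm]) h3)

/-- (9.7), first part: the core of a separation depends on some coordinate, if graph points over `(a, b)` are on both sides.
Proof: suppose not. Let `IU = {x | a < x ∧ x < b ∧ ∃ z, (x, z) ∈ s.U}`, `IV` similarly: open subsets of `ℝ` (unions over `z` of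
preimages of open sets), nonempty by `h1`, `h2`, covering `(a, b)` by `s.cov`. As `(a, b)` is preconnected (`isPreconnected_Ioo`)
`IU ∩ IV` is nonempty; it is open, so it contains some `x ∉ s.DD a b` (`small_compl` with `s.DD_small`; find an interval around a point of
the open set). There is `z` with `(x, z) ∈ U`; `{z | (x, z) ∈ U}` is open, so by `exists_zero_free` it contains a
zero-free `z'`, `z' ∈ CC g` (`exists_CC`), and by `Sepn.cell` `(x, zg g) ∈ U` (`zg_mem_CC`). Similarly some `(x, zg g') ∈ V`. This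
contradicts `Core.all_same` and disjointness. -/
theorem Sepn.dep {D : Dat} {A : Set S} {c d : ℝ} (s : Sepn D A c d) {a b : ℝ} (ha : c < a) (hab : a < b) (hb : b < d)
    (h1 : ∃ x, a < x ∧ x < b ∧ (x, D.f x) ∈ s.U) (h2 : ∃ x, a < x ∧ x < b ∧ (x, D.f x) ∈ s.V) :
    ∃ t, (s.core ha hab hb).DepAt t := by
  classical
  by_contra hdep
  push Not at hdep
  have hU : IsOpen {x : ℝ | ∃ z, (x, z) ∈ s.U} := by
    have : {x : ℝ | ∃ z, (x, z) ∈ s.U} = ⋃ z : Z, (fun x : ℝ => (x, z)) ⁻¹' s.U := by
      ext x; simp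
    rw [this]
    exact isOpen_iUnion fun z => s.oU.preimage (by fun_prop)
  have hV : IsOpen {x : ℝ | ∃ z, (x, z) ∈ s.V} := by
    have : {x : ℝ | ∃ z, (x, z) ∈ s.V} = ⋃ z : Z, (fun x : ℝ => (x, z)) ⁻¹' s.V := by
      ext x; simp
    rw [this]
    exact isOpen_iUnion fun z => s.oV.preimage (by fun_prop)
  obtain ⟨x1, hx1a, hx1b, hx1⟩ := h1
  obtain ⟨x2, hx2a, hx2b, hx2⟩ := h2
  obtain ⟨x0, ⟨hx0a, hx0b⟩, hx0U, hx0V⟩ := (isPreconnected_Ioo (a := a) (b := b)) _ _ hU hV
    (fun x hx => by
      rcases s.cov x (lt_trans ha hx.1) (lt_trans hx.2 hb) with h | h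
      · exact Or.inl ⟨_, h⟩
      · exact Or.inr ⟨_, h⟩) ⟨x1, ⟨hx1a, hx1b⟩, _, hx1⟩ ⟨x2, ⟨hx2a, hx2b⟩, _, hx2⟩
  have hO : IsOpen (({x : ℝ | ∃ z, (x, z) ∈ s.U} ∩ {x : ℝ | ∃ z, (x, z) ∈ s.V}) ∩ Ioo a b) :=
    (hU.inter hV).inter isOpen_Ioo
  obtain ⟨ε, hε, hball⟩ := Metric.isOpen_iff.1 hO x0 ⟨⟨hx0U, hx0V⟩, hx0a, hx0b⟩
  obtain ⟨x, hxa, hxb, hxD⟩ := small_compl (s.DD a b) (s.DD_small ha hb)
    (show x0 - ε < x0 + ε by linarith)
  have hx := hball (show x ∈ Metric.ball x0 ε by
    rw [Real.ball_eq_Ioo]; exact ⟨hxa, hxb⟩)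
  obtain ⟨⟨⟨z1, hz1⟩, ⟨z2, hz2⟩⟩, hxa', hxb'⟩ := hx
  have side : ∀ O : Set (ℝ × Z), IsOpen O → ∀ z, (x, z) ∈ O → ∃ g : FP, ∃ z' ∈ CC g, (x, z') ∈ O := by
    intro O hO z hz
    have hc : Continuous fun z : Z => (x, z) := continuous_const.prodMk continuous_id
    obtain ⟨z', hz', hnz⟩ := exists_zero_free z ((fun z : Z => (x, z)) ⁻¹' O)
      ((hO.preimage hc).mem_nhds hz)
    obtain ⟨g, hg⟩ := exists_CC z' hnz
    exact ⟨g, z', hg, hz'⟩
  obtain ⟨g1, w1, hw1, hw1U⟩ := side s.U s.oU z1 hz1
  obtain ⟨g2, w2, hw2, hw2V⟩ := side s.V s.oV z2 hz2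
  have hg1 : (x, zg g1) ∈ s.U := by
    rcases s.cell hxa'.le hxb'.le hxD g1 with h | h
    · exact h _ (zg_mem_CC g1)
    · exact (s.disj _ hw1U (h _ hw1)).elim
  have hg2 : (x, zg g2) ∈ s.V := by
    rcases s.cell hxa'.le hxb'.le hxD g2 with h | h
    · exact (s.disj _ (h _ hw2) hw2V).elim
    · exact h _ (zg_mem_CC g2)
  rcases (s.core ha hab hb).all_same hdep hxa' hxb' hxD with h | h
  · exact s.disj _ (h g2) hg2
  · exact s.disj _ hg1 (h g1)

end Pool.Agent.H.MP_0e7155_gt.CE
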