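import Pool.Agent.H.MP_0e7155_gt.CE.ZeroFree

open Set Topology Cardinal

namespace Pool.Agent.H.MP_0e7155_gt.CE

/-- Choice of the special point in (9.7).  Proof: let `v` be the list of length `M` with entries `v i = (vv s).getD i 0` for
`i < s` and `v i` a natural number with `kap (v i) = w i` (`kap_surj`) for `s ≤ i < M` (use `List.ofFn` or `(List.range M).map`). If `TI v a b ⊆ B`
then `TI v a b ∈ D.J` (`D.down`), against `D.big`. So there is `q ∈ TI v a b`, `q ∉ B`. For `i < M`, `lab q i = v i`. As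
`(vv s).length ≤ s < M` (`vv_len`), `q ∈ T (vv s)`. -/
theorem exists_q (D : Dat) (B : Set S) (hB : B ∈ D.J) (s M : ℕ) (hM : s < M) {a b : ℝ} (hab : a < b)
    (w : FP) : ∃ q, q ∈ T (vv s) ∧ q ∉ B ∧ a < pos q ∧ pos q < b ∧
      ∀ m, s ≤ m → m < M → kap (lab q m) = w m := by
  classical
  choose c hc using fun i => kap_surj (w i)
  obtain ⟨v, hlen, hget⟩ : ∃ v : List ℕ, v.length = M ∧
      ∀ i < M, v.getD i 0 = if i < s then (vv s).getD i 0 else c i := by
    refine ⟨(List.range M).map (fun i => if i < s then (vv s).getD i 0 else c i), by simp, ?_⟩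
    intro i hi
    rw [List.getD_eq_getElem?_getD, List.getElem?_map, List.getElem?_range hi]
    rfl
  have h1 : ¬ (TI v a b ⊆ B) := fun h => D.big v a b hab (D.down _ _ h hB)
  obtain ⟨q, hq, hqB⟩ := Set.not_subset.1 h1
  obtain ⟨hT, ha, hb⟩ := hq
  have hl : ∀ i < M, lab q i = v.getD i 0 := fun i hi => hT i (by rw [hlen]; exact hi)
  refine ⟨q, ?_, hqB, ha, hb, ?_⟩
  · intro i hi
    have hi1 : i < s := lt_of_lt_of_le hi (vv_len s)
    rw [hl i (by omega), hget i (by omega), if_pos hi1]
  · intro m hm hmM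
    rw [hl m hmM, hget m hmM, if_neg (by omega), hc]

/-- Points of two cells near a special point.  `e` is a pattern which differs from `kap (lab q s)` only at leaves where `zq q s`
vanishes. Then the cell of the full pattern `(kap (lab q m))_m` with the coordinate `s` replaced by `e` meets every
neighbourhood of `zq q`.  Proof: for `ε > 0` let `z ε m = (1 + ε) * (zq q m)`-like: precisely
`z ε m p = zq q m p + ε * sg ((kap (lab q m)).1 p)` for `m ≠ s` and `z ε s p = zq q s p + ε * sg (e.1 p)`. Each is continuous, at sup distance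
`≤ ε` from `zq q m` in every coordinate, so `z ε → zq q` in the product as `ε → 0+` (`tendsto_pi_nhds`, `ContinuousMap.norm_le` or
`ContinuousMap.dist_le`), so `z ε ∈ W` for some `ε ∈ (0, 1)`. Signs: where `zq q m p = 0` the value is `ε` times the sign; where
`zq q m p ≠ 0` it is `sg ((kap (lab q m)).1 p)` and the two signs agree (for `m = s` by the hypothesis `he`). -/
theorem near_cell (q : S) (W : Set Z) (hW : W ∈ 𝓝 (zq q)) (s : ℕ) (e : Pat)
    (he : ∀ p, e.1 p ≠ (kap (lab q s)).1 p → q ∈ T (vv s) ∧ q ∉ NN p) :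
    ∃ z ∈ W, z ∈ CC (Function.update (fun m => kap (lab q m)) s e) := by
  classical
  set g : FP := Function.update (fun m => kap (lab q m)) s e with hg
  have h1 : ∀ k : ℕ, (0 : ℝ) < 1 / ((k : ℝ) + 1) := fun k => Nat.one_div_pos_of_nat
  let z : ℕ → Z := fun k m => zq q m + (1 / ((k : ℝ) + 1)) • zg g m
  have h2 : Filter.Tendsto z Filter.atTop (𝓝 (zq q)) := by
    rw [tendsto_pi_nhds]
    intro m
    have h3 : Filter.Tendsto (fun k : ℕ => zq q m + (1 / ((k : ℝ) + 1)) • zg g m) Filter.atTop
        (𝓝 (zq q m + (0 : ℝ) • zg g m)) :=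
      tendsto_const_nhds.add (tendsto_one_div_add_atTop_nhds_zero_nat.smul_const (zg g m))
    rw [zero_smul, add_zero] at h3
    exact h3
  obtain ⟨k, hk⟩ := (h2.eventually hW).exists
  refine ⟨z k, hk, fun m p => ?_⟩
  have hsg : ∀ b : Bool, sg b * sg b = 1 := by
    intro b
    unfold sg
    split_ifs <;> norm_num
  have h4 : z k m p = zq q m p + (1 / ((k : ℝ) + 1)) * sg ((g m).1 p) := rfl
  have h5 : 0 ≤ sg ((g m).1 p) * zq q m p := by
    by_cases h6 : q ∈ T (vv m) ∧ q ∉ NN p
    · have h7 : zq q m p = 0 := if_pos h6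
      rw [h7, mul_zero]
    · have h7 : zq q m p = sg ((kap (lab q m)).1 p) := if_neg h6
      have h8 : (g m).1 p = (kap (lab q m)).1 p := by
        by_cases hm : m = s
        · subst hm
          have h9 : g m = e := by rw [hg, Function.update_self]
          rw [h9]
          by_contra hne
          exact h6 (he p hne)
        · have h9 : g m = kap (lab q m) := by rw [hg, Function.update_of_ne hm]
          rw [h9]
      rw [h7, h8, hsg]
      exact zero_le_one
  rw [h4, mul_add]
  have h10 : sg ((g m).1 p) * (1 / ((k : ℝ) + 1) * sg ((g m).1 p)) = 1 / ((k : ℝ) + 1) := by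
    rw [mul_left_comm, hsg, mul_one]
  rw [h10]
  exact add_pos_of_nonneg_of_pos h5 (h1 k)

/-- The pattern `a` made false on the set of those `p` with `a0.1 p ≠ a1.1 p` and `q ∉ NN p`; it depends on finitely many
coordinates (`NN` at `q` is read off from one coordinate of `p`). -/
theorem exists_minus (a a0 a1 : Pat) (q : S) : ∃ e : Pat,
    (∀ p, a0.1 p ≠ a1.1 p → q ∉ NN p → e.1 p = false) ∧
    ∀ p, ¬ (a0.1 p ≠ a1.1 p ∧ q ∉ NN p) → e.1 p = a.1 p := by
  classical
  obtain ⟨n, hn⟩ := a.2
  obtain ⟨n0, hn0⟩ := a0.2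
  obtain ⟨n1, hn1⟩ := a1.2
  have hdep : Dep (max (max n (max n0 n1)) (2 * Encodable.encode q + 1))
      (fun p : P => if a0.1 p ≠ a1.1 p ∧ q ∉ NN p then false else a.1 p) := by
    intro p p' hp
    have e0 : a.1 p = a.1 p' := hn p p' (fun i hi => hp i (by omega))
    have e1 : a0.1 p = a0.1 p' := hn0 p p' (fun i hi => hp i (by omega))
    have e2 : a1.1 p = a1.1 p' := hn1 p p' (fun i hi => hp i (by omega))
    have e3 : p (2 * Encodable.encode q) = p' (2 * Encodable.encode q) :=
      hp _ (by omega)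
    have e4 : (q ∈ NN p) = (q ∈ NN p') := by simp [NN, e3]
    simp only [e0, e1, e2, e4]
  refine ⟨⟨_, _, hdep⟩, fun p h1 h2 => if_pos ⟨h1, h2⟩, fun p h => if_neg h⟩

end Pool.Agent.H.MP_0e7155_gt.CE
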