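import Pool.Agent.H.MP_0e7155_gt.CE.SepCore

open Set Topology Cardinal

namespace Pool.Agent.H.MP_0e7155_gt.CE

/-- Graph points on both sides near a special point.  `U` is one side of a separation (`s` or `s.swap`). If over all non-exceptional abscissas
`x` just left of `pos q` the cell of a full pattern `k'` which has points arbitrarily near `zq q` is on the side `U`, then every left half box of
`kk D q` contains graph points in `U`.  Proof: choose `x` with `pos q - min ε η < x < pos q`, `x ∉ s.DD a b` (`small_compl`, `s.DD_small`),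
`a ≤ x ≤ b`; `z ∈ interior W`, `z ∈ CC k'` (`hk` for `interior W`). By `Sepn.cell` `(x, z) ∈ U` (the cell is not on the side `V` because
`(x, zg k') ∈ U`). The open set `U ∩ (Ioo (pos q - ε) (pos q) ×ˢ interior W)` is nonempty, so contains a graph point (`graph_dense`). -/
theorem Sepn.near_side {D : Dat} {A : Set S} {c d : ℝ} (s : Sepn D A c d) {a b : ℝ} (ha : c < a)
    (hb : b < d) (q : S) {η : ℝ} (hη : 0 < η) (hqa : a < pos q - η) (hqb : pos q < b) (k' : FP)
    (hk : ∀ W ∈ 𝓝 (zq q), ∃ z ∈ W, z ∈ CC k')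
    (hU : ∀ x, pos q - η < x → x < pos q → x ∉ s.DD a b → (x, zg k') ∈ s.U)
    {ε : ℝ} (hε : 0 < ε) (W : Set Z) (hW : W ∈ 𝓝 (zq q)) :
    ∃ x, pos q - ε < x ∧ x < pos q ∧ D.f x ∈ W ∧ (x, D.f x) ∈ s.U := by
  have hm : 0 < min ε η := lt_min hε hη
  obtain ⟨x, hx1, hx2, hx3⟩ := small_compl (s.DD a b) (s.DD_small ha hb)
    (a := pos q - min ε η) (b := pos q) (by linarith)
  have h1 : min ε η ≤ ε := min_le_left _ _
  have h2 : min ε η ≤ η := min_le_right _ _
  obtain ⟨z, hzW, hzC⟩ := hk (interior W) (interior_mem_nhds.2 hW)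
  have hzU : (x, z) ∈ s.U := by
    rcases s.cell (by linarith) (by linarith) hx3 k' with h | h
    · exact h z hzC
    · exact (s.disj _ (hU x (by linarith) hx2 hx3) (h _ (zg_mem_CC k'))).elim
  obtain ⟨x', hx'⟩ := graph_dense D (s.U ∩ (Ioo (pos q - ε) (pos q) ×ˢ interior W))
    (s.oU.inter (isOpen_Ioo.prod isOpen_interior))
    ⟨(x, z), hzU, ⟨⟨by simp only; linarith, hx2⟩, hzW⟩⟩
  exact ⟨x', hx'.2.1.1, hx'.2.1.2, interior_subset hx'.2.2, hx'.1⟩

end Pool.Agent.H.MP_0e7155_gt.CE
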