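import Pool.Agent.H.MP_0e7155_gt.CE.EndC1
import Pool.Agent.H.MP_0e7155_gt.CE.EndC2

open Set Topology Cardinal

namespace Pool.Agent.H.MP_0e7155_gt.CE

/-- The exceptional set does not change when the two sides are exchanged. -/
theorem EndC_swap_DD {D : Dat} {A : Set S} {c d : ℝ} (s : Sepn D A c d) (a b : ℝ) :
    s.swap.DD a b = s.DD a b := by
  ext x
  constructor
  · rintro ⟨h1, h2, z, h3, h4, h5⟩
    exact ⟨h1, h2, z, h4, h3, h5⟩
  · rintro ⟨h1, h2, z, h3, h4, h5⟩
    exact ⟨h1, h2, z, h4, h3, h5⟩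

/-- The contradiction near a special point: near it there are graph points on both sides. -/
theorem EndC_absurd {D : Dat} {A : Set S} {c d : ℝ} (s : Sepn D A c d) {a b : ℝ} (ha : c < a)
    (hb : b < d) (q : S) (hqA : q ∉ A) {η : ℝ} (hη : 0 < η) (hqa : a < pos q - η)
    (hqb : pos q < b) (k1 k2 : FP)
    (hk1 : ∀ W ∈ 𝓝 (zq q), ∃ z ∈ W, z ∈ CC k1)
    (hk2 : ∀ W ∈ 𝓝 (zq q), ∃ z ∈ W, z ∈ CC k2)
    (h1 : ∀ x, pos q - η < x → x < pos q → x ∉ s.DD a b → (x, zg k1) ∈ s.U)
    (h2 : ∀ x, pos q - η < x → x < pos q → x ∉ s.DD a b → (x, zg k2) ∈ s.V) : False := by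
  obtain ⟨ε, hε, W, hW, h | h⟩ := s.half q hqA (by linarith) (by linarith)
  · obtain ⟨x, hx1, hx2, hx3, hx4⟩ := s.swap.near_side ha hb q hη hqa hqb k2 hk2
      (fun x h3 h4 h5 => h2 x h3 h4 (by rwa [EndC_swap_DD] at h5)) hε W hW
    exact s.disj _ (h x hx1 hx2 hx3) hx4
  · obtain ⟨x, hx1, hx2, hx3, hx4⟩ := s.near_side ha hb q hη hqa hqb k1 hk1 h1 hε W hW
    exact s.disj _ hx4 (h x hx1 hx2 hx3)

/-- (9.7) END: a separation with `AI A c d ∈ J` is impossible.  Proof: let `x1, x2` be abscissas of graph points in `U`, `V`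
(`s.neU`, `s.neV`), choose `c < a < min x1 x2`, `max x1 x2 < b < d`. `Sepn.dep` gives a coordinate on which `K = s.core` depends; let `t0` be the
least one (`Nat.find`). `exists_bad_q` with `B0 = AI A c d` gives `q, e, η`; `q ∉ A` because `c < a < pos q < b < d` and
`q ∉ AI A c d`. `s.half` gives `ε, W` and, say, all graph points of the left half box are in `U`. One of the full patterns
`k = (kap (lab q m))_m` and `update k t0 e` is on the side `V` over all non-exceptional `x` just left of `pos q`. `near_cell` with `e`, or with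
`kap (lab q t0)` for the first (`Function.update_eq_self`), gives the hypothesis `hk` of `Sepn.near_side`, applied to `s.swap` (its `DD` is the same set up to
the order of the conjuncts) : there is a graph point of the left half box in `V`. It is in `U` too: contradiction. Other cases symmetric. -/
theorem Sepn.false {D : Dat} {A : Set S} {c d : ℝ} (s : Sepn D A c d) (hA : AI A c d ∈ D.J) :
    False := by
  obtain ⟨x1, hc1, hd1, hx1⟩ := s.neU
  obtain ⟨x2, hc2, hd2, hx2⟩ := s.neV
  obtain ⟨a, hca, ha⟩ := exists_between (lt_min hc1 hc2)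
  obtain ⟨b, hb, hbd⟩ := exists_between (max_lt hd1 hd2)
  have ha1 : a < x1 := lt_of_lt_of_le ha (min_le_left _ _)
  have ha2 : a < x2 := lt_of_lt_of_le ha (min_le_right _ _)
  have hb1 : x1 < b := lt_of_le_of_lt (le_max_left _ _) hb
  have hb2 : x2 < b := lt_of_le_of_lt (le_max_right _ _) hb
  have hab : a < b := ha1.trans hb1
  have hdep := s.dep hca hab hbd ⟨x1, ha1, hb1, hx1⟩ ⟨x2, ha2, hb2, hx2⟩
  classical
  obtain ⟨q, e, η, hη, hqa, hqb, hqB, he, hcase⟩ := exists_bad_q D (s.core hca hab hbd)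
    (AI A c d) hA (Nat.find hdep) (Nat.find_spec hdep) (fun t ht => Nat.find_min hdep ht)
  have hqa' : a < pos q - η := hqa
  have hqb' : pos q < b := hqb
  have hqA : q ∉ A := fun h => hqB ⟨h, by linarith, by linarith⟩
  have hk1 : ∀ W ∈ 𝓝 (zq q), ∃ z ∈ W, z ∈ CC (fun m => kap (lab q m)) := by
    intro W hW
    obtain ⟨z, hz1, hz2⟩ := near_cell q W hW (Nat.find hdep) (kap (lab q (Nat.find hdep)))
      (fun p hp => absurd rfl hp)
    refine ⟨z, hz1, ?_⟩
    have h3 : Function.update (fun m => kap (lab q m)) (Nat.find hdep)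
        (kap (lab q (Nat.find hdep))) = fun m => kap (lab q m) :=
      Function.update_eq_self (Nat.find hdep) (fun m => kap (lab q m))
    rwa [h3] at hz2
  have hk2 : ∀ W ∈ 𝓝 (zq q), ∃ z ∈ W,
      z ∈ CC (Function.update (fun m => kap (lab q m)) (Nat.find hdep) e) := by
    intro W hW
    exact near_cell q W hW (Nat.find hdep) e he
  rcases hcase with h | h
  · exact EndC_absurd s hca hbd q hqA hη hqa' hqb' _ _ hk1 hk2
      (fun x h1 h2 h3 => (h x h1 h2 h3).1) (fun x h1 h2 h3 => (h x h1 h2 h3).2)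
  · exact EndC_absurd s hca hbd q hqA hη hqa' hqb' _ _ hk2 hk1
      (fun x h1 h2 h3 => (h x h1 h2 h3).2) (fun x h1 h2 h3 => (h x h1 h2 h3).1)

end Pool.Agent.H.MP_0e7155_gt.CE
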