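import Pool.Agent.H.MP_0e7155_gt.CE.EndA
import Pool.Agent.H.MP_0e7155_gt.CE.EndB
import Pool.Agent.H.MP_0e7155_gt.CE.Box4

open Set Topology Cardinal

namespace Pool.Agent.H.MP_0e7155_gt.CE

/-- `Core.change_low` for the other side. -/
theorem EndC1_change_low_V {L : Set P} (K : Core L) (s : ℕ) (hs : ∀ t < s, ¬ K.DepAt t) {x : ℝ}
    (ha : K.a < x) (hb : x < K.b) (hx : x ∉ K.E) (g g' : FP) (hg : ∀ m, s ≤ m → g m = g' m)
    (h : (x, g) ∈ K.V) : (x, g') ∈ K.V := by
  rcases K.cov x ha hb hx g' with h1 | h1
  · exact (K.disj _ (K.change_low s hs ha hb hx g' g (fun m hm => (hg m hm).symm) h1) h).elim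
  · exact h1

/-- (9.7), main part, combinatorial: from a leaf box at the least coordinate `s` on which the core `K` depends, with `B0 ∈ J`,
we get a special point `q ∉ B0` and two full patterns which differ from `(kap (lab q m))_m` only in the coordinate `s`, there only where `zq q s`
vanishes, and are on different sides over all abscissas near `pos q` (outside the exceptional set).
Proof. `Core.leaf_box` at `s`: box `B`, pivot `p ∈ B.Del ∩ D.Lam`, `B.Leaf p`. `NN p ∈ D.J` (`D.lamJ`). Exactly one of `B.a0.1 p`,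
`B.a1.1 p` is true; call `a` the corresponding one of `B.a0`, `B.a1` (so `a.1 p = true`). Let `M = max B.M (s + 1)`; `w` the full pattern with
`w s = a` and `w m = B.g m` otherwise. `exists_q` for `NN p ∪ B0`, `s`, `M`, the interval `(B.l, B.r)` and `w` gives `q`. `exists_minus a B.a0 B.a1 q`
gives `e`; note `p ∈ B.Del` and `q ∉ NN p`, so `e.1 p = false`. Let `k m = kap (lab q m)`; `k s = a`, `k m = B.g m` for `s < m < B.M`.
Take `x` with `B.l < x < B.r`, `x ∉ K.E` (recall `K.a ≤ B.l`, `B.r ≤ K.b`). Let `g' m = B.g m` for `m < s` and `g' m = k m` for `m ≥ s`: it agrees with `B.g` on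
`{m < B.M, m ≠ s}`. `update g' s a` and `k = update k s a` agree from `s` on, so by `Core.change_low` (and its version for `V`, obtained from `K.cov` and
`K.disj` by exchanging the roles of the two full patterns) they are on the same side; same for `update g' s e` and `update k s e`.
By the leaf property with the pattern `a` (`a = B.a0` off `B.Del`): `update g' s a` is in `U` if `a.1 p = B.a0.1 p`, in `V` if
`a.1 p = B.a1.1 p`. With the pattern `e` (equal to `a`, so to `B.a0`, off `B.Del`): `e.1 p = false` is the value at `p` of the other one of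
`B.a0`, `B.a1`, so `update g' s e` is on the other side. The first alternative of the conclusion is the case `a = B.a0`, the second the case
`a = B.a1`. Conclusion: take `η` with `B.l < pos q - η`. -/
theorem exists_bad_q (D : Dat) (K : Core D.Lam) (B0 : Set S) (hB0 : B0 ∈ D.J) (s : ℕ)
    (hs : K.DepAt s) (hmin : ∀ t < s, ¬ K.DepAt t) :
    ∃ (q : S) (e : Pat) (η : ℝ), 0 < η ∧ K.a < pos q - η ∧ pos q < K.b ∧ q ∉ B0 ∧
      (∀ p, e.1 p ≠ (kap (lab q s)).1 p → q ∈ T (vv s) ∧ q ∉ NN p) ∧
      ((∀ x, pos q - η < x → x < pos q → x ∉ K.E →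
          (x, fun m => kap (lab q m)) ∈ K.U ∧
          (x, Function.update (fun m => kap (lab q m)) s e) ∈ K.V) ∨
        (∀ x, pos q - η < x → x < pos q → x ∉ K.E →
          (x, fun m => kap (lab q m)) ∈ K.V ∧
          (x, Function.update (fun m => kap (lab q m)) s e) ∈ K.U)) := by
  obtain ⟨B, p, hpD, hpL, hleaf⟩ := K.leaf_box s D.lamT hs
  have hNN : NN p ∈ D.J := D.lamJ p hpL
  have hpD' : B.a0.1 p ≠ B.a1.1 p := hpD
  -- the common part
  have main : ∀ a : Pat, a.1 p = true → (∀ p', p' ∉ B.Del → a.1 p' = B.a0.1 p') →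
      ∃ (q : S) (e : Pat) (η : ℝ), 0 < η ∧ K.a < pos q - η ∧ pos q < K.b ∧ q ∉ B0 ∧
        (∀ p, e.1 p ≠ (kap (lab q s)).1 p → q ∈ T (vv s) ∧ q ∉ NN p) ∧
        ∃ g' : FP, (∀ m < B.M, m ≠ s → g' m = B.g m) ∧
          (∀ m, s ≤ m → Function.update g' s a m = (fun m => kap (lab q m)) m) ∧
          (∀ m, s ≤ m → Function.update g' s e m =
            Function.update (fun m => kap (lab q m)) s e m) ∧
          (∀ x, pos q - η < x → x < pos q → B.l < x ∧ x < B.r) ∧
          e.1 p = false ∧ (∀ p', p' ∉ B.Del → e.1 p' = B.a0.1 p') := by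
    intro a hap haD
    obtain ⟨q, hqT, hqB, hql, hqr, hk⟩ := exists_q D (NN p ∪ B0) (D.un _ _ hNN hB0) s
      (max B.M (s + 1)) (lt_of_lt_of_le (Nat.lt_succ_self s) (le_max_right _ _)) B.hlr
      (Function.update B.g s a)
    obtain ⟨e, he1, he2⟩ := exists_minus a B.a0 B.a1 q
    have hqN : q ∉ NN p := fun h => hqB (Or.inl h)
    have hqB0 : q ∉ B0 := fun h => hqB (Or.inr h)
    have hks : kap (lab q s) = a := by
      rw [hk s (_root_.le_refl s) (lt_of_lt_of_le (Nat.lt_succ_self s) (le_max_right _ _)),
        Function.update_self]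
    have hkm : ∀ m, s < m → m < B.M → kap (lab q m) = B.g m := by
      intro m hm hmM
      rw [hk m hm.le (lt_of_lt_of_le hmM (le_max_left _ _)), Function.update_of_ne hm.ne']
    refine ⟨q, e, (pos q - B.l) / 2, by linarith, by linarith [B.hl], by linarith [B.hr], hqB0,
      ?_, fun m => if m < s then B.g m else kap (lab q m), ?_, ?_, ?_, ?_, ?_, ?_⟩
    · intro p' hp'
      rw [hks] at hp'
      by_contra hcon
      apply hp'
      apply he2
      rintro ⟨_, h2⟩
      exact hcon ⟨hqT, h2⟩
    · intro m hm hms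
      by_cases h : m < s
      · simp only [h, if_true]
      · simp only [h, if_false]
        exact hkm m (lt_of_le_of_ne (not_lt.1 h) (Ne.symm hms)) hm
    · intro m hm
      by_cases h : m = s
      · subst h
        rw [Function.update_self]
        exact hks.symm
      · rw [Function.update_of_ne h]
        simp only [not_lt.2 hm, if_false]
    · intro m hm
      by_cases h : m = s
      · subst h
        rw [Function.update_self, Function.update_self]
      · rw [Function.update_of_ne h, Function.update_of_ne h]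
        simp only [not_lt.2 hm, if_false]
    · intro x hx1 hx2
      constructor <;> linarith
    · exact he1 p hpD' hqN
    · intro p' hp'
      rw [he2 p' (fun h => hp' h.1)]
      exact haD p' hp'
  rcases Bool.eq_false_or_eq_true (B.a0.1 p) with h0 | h0
  · -- the pattern is `a0`
    have h1 : B.a1.1 p = false := by
      rcases Bool.eq_false_or_eq_true (B.a1.1 p) with h | h
      · exact absurd (h0.trans h.symm) hpD'
      · exact h
    obtain ⟨q, e, η, hη, hηa, hqb, hqB0, he, g', hg', hua, hue, hxB, hep, heD⟩ :=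
      main B.a0 h0 (fun _ _ => rfl)
    refine ⟨q, e, η, hη, hηa, hqb, hqB0, he, Or.inl ?_⟩
    intro x hx1 hx2 hxE
    obtain ⟨hxl, hxr⟩ := hxB x hx1 hx2
    have hKa : K.a < x := by linarith [B.hl]
    have hKb : x < K.b := by linarith [B.hr]
    constructor
    · exact K.change_low s hmin hKa hKb hxE _ _ hua
        ((hleaf x hxl hxr hxE g' hg' B.a0 (fun _ _ => rfl)).1 rfl)
    · exact EndC1_change_low_V K s hmin hKa hKb hxE _ _ hue
        ((hleaf x hxl hxr hxE g' hg' e heD).2 (hep.trans h1.symm))
  · -- the pattern is `a1`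
    have h1 : B.a1.1 p = true := by
      rcases Bool.eq_false_or_eq_true (B.a1.1 p) with h | h
      · exact h
      · exact absurd (h0.trans h.symm) hpD'
    have hoff : ∀ p', p' ∉ B.Del → B.a1.1 p' = B.a0.1 p' := by
      intro p' hp'
      by_contra h'
      exact hp' (fun h'' => h' h''.symm)
    obtain ⟨q, e, η, hη, hηa, hqb, hqB0, he, g', hg', hua, hue, hxB, hep, heD⟩ :=
      main B.a1 h1 hoff
    refine ⟨q, e, η, hη, hηa, hqb, hqB0, he, Or.inr ?_⟩
    intro x hx1 hx2 hxE
    obtain ⟨hxl, hxr⟩ := hxB x hx1 hx2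
    have hKa : K.a < x := by linarith [B.hl]
    have hKb : x < K.b := by linarith [B.hr]
    constructor
    · exact EndC1_change_low_V K s hmin hKa hKb hxE _ _ hua
        ((hleaf x hxl hxr hxE g' hg' B.a1 hoff).2 rfl)
    · exact K.change_low s hmin hKa hKb hxE _ _ hue
        ((hleaf x hxl hxr hxE g' hg' e heD).1 (hep.trans h0.symm))

end Pool.Agent.H.MP_0e7155_gt.CE
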