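import Pool.Agent.H.MP_0e7155_gt.CE.ThmA
import Pool.Agent.H.MP_0e7155_gt.CE.ThmB

open Set Topology Cardinal

namespace Pool.Agent.H.MP_0e7155_gt.CE

/-- For every `A ∈ J` the set of all points except the special points with index in `A` is preconnected.  Proof: it is the union of
`YY D A (-n) n`, `n : ℕ`, `n ≥ 1` (Archimedean), all containing `pp D 0`; each is preconnected by `thmB` (`AI A (-n) n ⊆ A`,
`D.down`). `isPreconnected_iUnion` or `isPreconnected_of_forall (pp D 0)`. -/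
theorem all_but (D : Dat) (A : Set S) (hA : A ∈ D.J) :
    IsPreconnected {y : X D | ∀ q ∈ A, y ≠ kk D q} := by
  refine isPreconnected_of_forall (pp D 0) (fun y hy => ?_)
  obtain ⟨n, hn⟩ := exists_nat_gt |pi D y|
  have hn0 : (0 : ℝ) < n := lt_of_le_of_lt (abs_nonneg _) hn
  refine ⟨YY D A (-n) n, fun z hz => hz.2.2, ⟨?_, ?_, fun q _ => pp_ne_kk D 0 q⟩,
    ⟨(abs_lt.1 hn).1, (abs_lt.1 hn).2, hy⟩, ?_⟩
  · rw [pi_pp]; linarith
  · rw [pi_pp]; exact hn0
  · exact thmB D A (D.down _ _ (fun q hq => hq.1) hA)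

theorem X_conn (D : Dat) : ConnectedSpace (X D) := by
  have h := all_but D ∅ D.empty
  have h1 : {y : X D | ∀ q ∈ (∅ : Set S), y ≠ kk D q} = Set.univ := by
    ext y; simp
  rw [h1] at h
  exact { isPreconnected_univ := h, toNonempty := ⟨pp D 0⟩ }

theorem noncut (D : Dat) (q : S) : IsPreconnected ({kk D q}ᶜ : Set (X D)) := by
  have h := all_but D {q} (D.sing q)
  have h1 : {y : X D | ∀ q' ∈ ({q} : Set S), y ≠ kk D q'} = ({kk D q}ᶜ : Set (X D)) := by
    ext y; simp
  rwa [h1] at h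

/-- The complement of the set of all special points is the graph. -/
theorem compl_range_kk (D : Dat) : (Set.range (kk D))ᶜ = Set.range (pp D) := by
  ext y
  rcases X_cases D y with ⟨x, rfl⟩ | ⟨q, rfl⟩
  · exact ⟨fun _ => ⟨x, rfl⟩, fun _ => fun ⟨q, hq⟩ => pp_ne_kk D x q hq.symm⟩
  · exact ⟨fun h => absurd ⟨q, rfl⟩ h, fun ⟨x, hx⟩ => absurd hx (pp_ne_kk D x q)⟩

theorem cut_all (D : Dat) : ¬ IsPreconnected ((Set.range (kk D))ᶜ : Set (X D)) := by
  rw [compl_range_kk]
  exact graph_not D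

end Pool.Agent.H.MP_0e7155_gt.CE
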