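import Pool.Agent.H.MP_0e7155_gt.CE.Defs

open Set Topology Cardinal

namespace Pool.Agent.H.MP_0e7155_gt.CE

theorem TI_infinite (v : List ℕ) {a b : ℝ} (h : a < b) : (TI v a b).Infinite := by
  have h1 : {r : ℚ | a < (r : ℝ) ∧ (r : ℝ) < b}.Infinite := by
    obtain ⟨r1, hr1, hr1'⟩ := exists_rat_btwn h
    obtain ⟨r2, hr2, hr2'⟩ := exists_rat_btwn hr1'
    have h2 : (r1 : ℚ) < r2 := by exact_mod_cast hr2
    refine (Set.Ioo_infinite h2).mono ?_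
    intro r hr
    have k1 : (r1 : ℝ) < (r : ℝ) := by exact_mod_cast hr.1
    have k2 : (r : ℝ) < (r2 : ℝ) := by exact_mod_cast hr.2
    exact ⟨lt_trans hr1 k1, lt_trans k2 hr2'⟩
  have h2 : (fun r : ℚ => ((v, r) : S)) '' {r : ℚ | a < (r : ℝ) ∧ (r : ℝ) < b} ⊆ TI v a b := by
    rintro q ⟨r, hr, rfl⟩
    exact ⟨fun i _ => rfl, hr.1, hr.2⟩
  refine Set.Infinite.mono h2 (h1.image ?_)
  intro r _ r' _ hrr
  exact (Prod.mk.inj hrr).2

/-- admissible families -/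
def JJ_adm (J : Set (Set S)) : Prop :=
  (∀ A B, A ⊆ B → B ∈ J → A ∈ J) ∧ (∀ A B, A ∈ J → B ∈ J → A ∪ B ∈ J) ∧ (∀ q, {q} ∈ J) ∧
    (∀ v a b, a < b → TI v a b ∉ J)

theorem exists_J : ∃ J : Set (Set S), (∀ A B, A ⊆ B → B ∈ J → A ∈ J) ∧
    (∀ A B, A ∈ J → B ∈ J → A ∪ B ∈ J) ∧ (∀ q, {q} ∈ J) ∧
    (∀ v a b, a < b → TI v a b ∉ J) ∧
    (∀ A, A ∉ J → ∃ v a b, a < b ∧ TI v a b \ A ∈ J) := by
  have h0 : JJ_adm {A : Set S | A.Finite} := by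
    refine ⟨fun A B h1 h2 => h2.subset h1, fun A B h1 h2 => h1.union h2, fun q => Set.finite_singleton q, ?_⟩
    intro v a b h h1
    exact TI_infinite v h h1
  obtain ⟨J, hJ, hmax⟩ := zorn_subset_nonempty {J : Set (Set S) | JJ_adm J} (by
    intro c hc hchain hne
    refine ⟨⋃₀ c, ⟨?_, ?_, ?_, ?_⟩, fun s hs => Set.subset_sUnion_of_mem hs⟩
    · rintro A B hAB ⟨s, hs, hB⟩
      exact ⟨s, hs, (hc hs).1 A B hAB hB⟩
    · rintro A B ⟨s, hs, hA⟩ ⟨s', hs', hB⟩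
      rcases hchain.total hs hs' with h | h
      · exact ⟨s', hs', (hc hs').2.1 A B (h hA) hB⟩
      · exact ⟨s, hs, (hc hs).2.1 A B hA (h hB)⟩
    · intro q
      obtain ⟨s, hs⟩ := hne
      exact ⟨s, hs, (hc hs).2.2.1 q⟩
    · rintro v a b hab ⟨s, hs, hT⟩
      exact (hc hs).2.2.2 v a b hab hT) _ h0
  refine ⟨J, hmax.prop.1, hmax.prop.2.1, hmax.prop.2.2.1, hmax.prop.2.2.2, ?_⟩
  intro A hA
  by_contra hcon
  push Not at hcon
  have hE : (∅ : Set S) ∈ J := hmax.prop.1 _ _ (Set.empty_subset _) (hmax.prop.2.2.1 default)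
  have hadm : JJ_adm {N : Set S | ∃ B ∈ J, N ⊆ B ∪ A} := by
    refine ⟨?_, ?_, ?_, ?_⟩
    · rintro A' B' h1 ⟨B, hB, h2⟩
      exact ⟨B, hB, h1.trans h2⟩
    · rintro A' B' ⟨B, hB, h2⟩ ⟨B1, hB1, h3⟩
      refine ⟨B ∪ B1, hmax.prop.2.1 _ _ hB hB1, ?_⟩
      rintro x (hx | hx)
      · rcases h2 hx with h | h
        · exact Or.inl (Or.inl h)
        · exact Or.inr h
      · rcases h3 hx with h | h
        · exact Or.inl (Or.inr h)
        · exact Or.inr h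
    · intro q
      exact ⟨{q}, hmax.prop.2.2.1 q, Set.subset_union_left⟩
    · rintro v a b hab ⟨B, hB, h2⟩
      refine hcon v a b hab (hmax.prop.1 _ _ ?_ hB)
      rintro x ⟨hx, hxA⟩
      rcases h2 hx with h | h
      · exact h
      · exact (hxA h).elim
  have hsub : J ⊆ {N : Set S | ∃ B ∈ J, N ⊆ B ∪ A} := fun N hN => ⟨N, hN, Set.subset_union_left⟩
  have := hmax.le_of_ge hadm hsub
  exact hA (this ⟨∅, hE, by intro x hx; exact Or.inr hx⟩)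

end Pool.Agent.H.MP_0e7155_gt.CE
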