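import Pool.Agent.H.MP_0e7155_gt.CE.ZeroFree

open Set Topology Cardinal Filter

namespace Pool.Agent.H.MP_0e7155_gt.CE

theorem Piv_zg_congr {g g' : FP} {m : ℕ} (h : g' m = g m) : zg g' m = zg g m := by
  ext p
  show sg ((g' m).1 p) = sg ((g m).1 p)
  rw [h]

/-- (9.3) Openness in terms of full patterns.  Proof: `U` is a neighbourhood of `(x, zg g)`, so contains a product of a ball
around `x` and a basic neighbourhood of `zg g` in the product `ℕ → C(P, ℝ)`, which restricts only finitely many coordinates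
(`mem_nhds_prod_iff`, `nhds_pi`, `Filter.mem_pi` or `mem_nhds_pi`...). Take `M` above these coordinates: `zg g' m = zg g m`
when `g' m = g m`. -/
theorem zg_open (U : Set (ℝ × Z)) (hU : IsOpen U) (x : ℝ) (g : FP) (h : (x, zg g) ∈ U) :
    ∃ ε > 0, ∃ M : ℕ, ∀ x' g', |x' - x| < ε → (∀ m < M, g' m = g m) → (x', zg g') ∈ U := by
  have h1 : U ∈ 𝓝 (x, zg g) := hU.mem_nhds h
  obtain ⟨V, hV, W, hW, hVW⟩ := mem_nhds_prod_iff.1 h1
  obtain ⟨ε, hε, hεV⟩ := Metric.mem_nhds_iff.1 hV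
  rw [nhds_pi, Filter.mem_pi] at hW
  obtain ⟨I, hI, t, ht, htW⟩ := hW
  obtain ⟨M, hM⟩ := hI.bddAbove
  refine ⟨ε, hε, M + 1, fun x' g' hx' hg' => hVW ⟨hεV ?_, htW ?_⟩⟩
  · rw [Metric.mem_ball, Real.dist_eq]
    exact hx'
  · intro m hm
    have h2 : g' m = g m := hg' m (Nat.lt_succ_of_le (hM hm))
    show zg g' m ∈ t m
    rw [Piv_zg_congr h2]
    exact mem_of_mem_nhds (ht m)

open Classical in
/-- `2⁻¹ ^ (min k n)`, `k` the first difference of `p` and `p'` -/
noncomputable def Piv_e (p : P) : ℕ → P → ℝ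
  | 0, _ => 1
  | n + 1, p' => if p' ∈ cyl p (n + 1) then (2⁻¹ : ℝ) ^ (n + 1) else Piv_e p n p'

theorem Piv_cyl_congr {p p₁ p₂ : P} {n : ℕ} (h : ∀ i < n, p₁ i = p₂ i) (h1 : p₁ ∈ cyl p n) :
    p₂ ∈ cyl p n := fun i hi => by rw [← h i hi]; exact h1 i hi

theorem Piv_cyl_mono {p : P} {n m : ℕ} (h : n ≤ m) : cyl p m ⊆ cyl p n :=
  fun _ hp i hi => hp i (lt_of_lt_of_le hi h)

open Classical in
theorem Piv_e_dep (p : P) (n : ℕ) : Dep n (Piv_e p n) := by
  induction n with
  | zero => intro p₁ p₂ _; rfl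
  | succ n ih =>
    intro p₁ p₂ h
    show (if p₁ ∈ cyl p (n + 1) then (2⁻¹ : ℝ) ^ (n + 1) else Piv_e p n p₁)
      = (if p₂ ∈ cyl p (n + 1) then (2⁻¹ : ℝ) ^ (n + 1) else Piv_e p n p₂)
    by_cases h1 : p₁ ∈ cyl p (n + 1)
    · rw [if_pos h1, if_pos (Piv_cyl_congr h h1)]
    · have h2 : p₂ ∉ cyl p (n + 1) := fun h2 => h1 (Piv_cyl_congr (fun i hi => (h i hi).symm) h2)
      rw [if_neg h1, if_neg h2]
      exact ih p₁ p₂ (fun i hi => h i (Nat.lt_succ_of_lt hi))

open Classical in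
theorem Piv_e_pos (p : P) (n : ℕ) (p' : P) : 0 < Piv_e p n p' := by
  induction n with
  | zero => exact one_pos
  | succ n ih =>
    show 0 < (if p' ∈ cyl p (n + 1) then (2⁻¹ : ℝ) ^ (n + 1) else Piv_e p n p')
    split_ifs
    · positivity
    · exact ih

open Classical in
theorem Piv_e_of_mem {p : P} {n : ℕ} {p' : P} (h : p' ∈ cyl p n) : Piv_e p n p' = 2⁻¹ ^ n := by
  cases n with
  | zero => simp [Piv_e]
  | succ n =>
    show (if p' ∈ cyl p (n + 1) then (2⁻¹ : ℝ) ^ (n + 1) else Piv_e p n p') = _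
    rw [if_pos h]

theorem Piv_e_succ {p : P} {n : ℕ} {p' : P} (h : p' ∉ cyl p (n + 1)) :
    Piv_e p (n + 1) p' = Piv_e p n p' := if_neg h

theorem Piv_e_le {p : P} {n : ℕ} {p' : P} (h : p' ∈ cyl p n) : Piv_e p (n + 1) p' ≤ 2⁻¹ ^ n := by
  by_cases h1 : p' ∈ cyl p (n + 1)
  · rw [Piv_e_of_mem h1]
    exact pow_le_pow_of_le_one (by norm_num) (by norm_num) (Nat.le_succ n)
  · rw [Piv_e_succ h1, Piv_e_of_mem h]

theorem Piv_abs_sg (b : Bool) : |sg b| = 1 := by
  unfold sg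
  split_ifs <;> norm_num

/-- the approximating function in the pivot coordinate -/
noncomputable def Piv_w (p : P) (a : ℕ → Pat) (n : ℕ) : C(P, ℝ) :=
  ⟨fun p' => sg ((a n).1 p') * Piv_e p n p', by
    have h : Continuous sg := continuous_of_discreteTopology
    exact (h.comp (a n).cont).mul (Piv_e_dep p n).continuous⟩

theorem Piv_w_apply (p : P) (a : ℕ → Pat) (n : ℕ) (p' : P) :
    Piv_w p a n p' = sg ((a n).1 p') * Piv_e p n p' := rfl

theorem Piv_w_abs (p : P) (a : ℕ → Pat) (n : ℕ) (p' : P) : |Piv_w p a n p'| = Piv_e p n p' := by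
  rw [Piv_w_apply, abs_mul, Piv_abs_sg, one_mul, abs_of_pos (Piv_e_pos p n p')]

/-- (9.4) The pivot point.  Proof.  Let `δ p' = 2⁻¹ ^ k` where `k` is the first index with `p' k ≠ p k` if `p' ≠ p`
(`Nat.find`), and `δ p = 0`. It is continuous; `δ p' ≤ 2⁻¹ ^ n` for `p' ∈ cyl p n`, and `δ p' ≥ 2 * 2⁻¹ ^ n` if `p' ∉ cyl p n`.
Define `ζ m = zg (g (m + 1)) m` for `m ≠ t` and `ζ t p' = sg ((a0 (k + 1)).1 p') * δ p'` for `p' ≠ p` with `k` as above (note
`p' ∉ cyl p (k + 1)`, so this equals `sg ((a0 n).1 p') * δ p'` for all `n ≥ k + 1`), and `ζ t p = 0`. Continuity of `ζ t`: off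
`cyl p n` it equals the continuous function `sg (a0 n) * δ`, and `|ζ t p'| ≤ δ p'` gives continuity at `p`.
Approximations: `ζ0 n m = zg (g n) m` for `m ≠ t`, `ζ0 n t p' = sg ((a0 n).1 p') * max (δ p') (2⁻¹ ^ n)`; `ζ1 n` the same with
`a1`. They lie in the cells. Convergence (in the product, coordinate by coordinate, sup norm): for `m ≠ t`, `ζ0 n m = ζ m` for
`n ≥ m + 1` (by `h3`); for `m = t`: off `cyl p n` the two agree with `ζ t` (by `h4` and `δ p' ≥ 2⁻¹ ^ n`), on `cyl p n` both have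
absolute value at most `2⁻¹ ^ n`; so the distance is at most `2 * 2⁻¹ ^ n`.
Zeros of `ζ`: only `(t, p)`. -/
theorem pivot_point (t : ℕ) (p : P) (g : ℕ → FP) (a0 a1 : ℕ → Pat)
    (h3 : ∀ n n' m, m < n → n ≤ n' → m ≠ t → g n' m = g n m)
    (h4 : ∀ n n' p', n ≤ n' → p' ∉ cyl p n →
      (a0 n').1 p' = (a0 n).1 p' ∧ (a1 n').1 p' = (a0 n).1 p') :
    ∃ (ζ : Z) (ζ0 ζ1 : ℕ → Z), (∀ n, ζ0 n ∈ CC (Function.update (g n) t (a0 n))) ∧
      (∀ n, ζ1 n ∈ CC (Function.update (g n) t (a1 n))) ∧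
      Tendsto ζ0 atTop (𝓝 ζ) ∧ Tendsto ζ1 atTop (𝓝 ζ) ∧
      ∀ m p', ζ m p' = 0 → m = t ∧ p' = p := by
  have hd0 : ∀ n, dist (Piv_w p a0 n) (Piv_w p a0 (n + 1)) ≤ 2 * 2⁻¹ ^ n := by
    intro n
    refine (ContinuousMap.dist_le (by positivity)).2 fun p' => ?_
    rw [Real.dist_eq]
    by_cases h : p' ∈ cyl p n
    · have e1 : |Piv_w p a0 n p'| ≤ 2⁻¹ ^ n := by
        rw [Piv_w_abs, Piv_e_of_mem h]
      have e2 : |Piv_w p a0 (n + 1) p'| ≤ 2⁻¹ ^ n := by
        rw [Piv_w_abs]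
        exact Piv_e_le h
      have e3 := abs_sub (Piv_w p a0 n p') (Piv_w p a0 (n + 1) p')
      linarith
    · have h' : p' ∉ cyl p (n + 1) := fun h1 => h (Piv_cyl_mono (Nat.le_succ n) h1)
      rw [Piv_w_apply, Piv_w_apply, Piv_e_succ h', (h4 n (n + 1) p' (Nat.le_succ n) h).1, sub_self,
        abs_zero]
      positivity
  have hc : CauchySeq (Piv_w p a0) := by
    refine cauchySeq_of_le_geometric 2⁻¹ 2 (by norm_num) hd0
  obtain ⟨w, hw⟩ := cauchySeq_tendsto_of_complete hc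
  have hd1 : ∀ n, dist (Piv_w p a1 n) (Piv_w p a0 n) ≤ 2 * 2⁻¹ ^ n := by
    intro n
    refine (ContinuousMap.dist_le (by positivity)).2 fun p' => ?_
    rw [Real.dist_eq]
    by_cases h : p' ∈ cyl p n
    · have e1 : |Piv_w p a1 n p'| ≤ 2⁻¹ ^ n := by
        rw [Piv_w_abs, Piv_e_of_mem h]
      have e2 : |Piv_w p a0 n p'| ≤ 2⁻¹ ^ n := by
        rw [Piv_w_abs, Piv_e_of_mem h]
      have e3 := abs_sub (Piv_w p a1 n p') (Piv_w p a0 n p')
      linarith
    · rw [Piv_w_apply, Piv_w_apply, (h4 n n p' le_rfl h).2, sub_self, abs_zero]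
      positivity
  have hw1 : Tendsto (Piv_w p a1) atTop (𝓝 w) := by
    have hz : Tendsto (fun n : ℕ => 2 * (2⁻¹ : ℝ) ^ n) atTop (𝓝 0) := by
      have := (tendsto_pow_atTop_nhds_zero_of_lt_one (r := (2⁻¹ : ℝ)) (by norm_num)
        (by norm_num)).const_mul 2
      rwa [mul_zero] at this
    have h0 : Tendsto (fun n => dist (Piv_w p a1 n) (Piv_w p a0 n)) atTop (𝓝 0) :=
      squeeze_zero (fun _ => dist_nonneg) hd1 hz
    have h1 : Tendsto (fun n => dist (Piv_w p a1 n) w) atTop (𝓝 0) := by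
      have h2 := h0.add (tendsto_iff_dist_tendsto_zero.1 hw)
      rw [add_zero] at h2
      exact squeeze_zero (fun _ => dist_nonneg) (fun n => dist_triangle _ _ _) h2
    exact tendsto_iff_dist_tendsto_zero.2 h1
  -- the values of the limit
  have hval : ∀ p', p' ≠ p → w p' ≠ 0 := by
    intro p' hp'
    obtain ⟨i, hi⟩ : ∃ i, p' i ≠ p i := by
      by_contra hcon
      push Not at hcon
      exact hp' (funext hcon)
    have hn : p' ∉ cyl p (i + 1) := fun h => hi (h i (Nat.lt_succ_self i))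
    have hconst : ∀ n, i + 1 ≤ n → Piv_w p a0 n p' = Piv_w p a0 (i + 1) p' := by
      intro n hin
      induction n, hin using Nat.le_induction with
      | base => rfl
      | succ n hin ih =>
        have h' : p' ∉ cyl p (n + 1) := fun h1 => hn (Piv_cyl_mono (by omega) h1)
        have h'' : p' ∉ cyl p n := fun h1 => hn (Piv_cyl_mono hin h1)
        rw [← ih, Piv_w_apply, Piv_w_apply, Piv_e_succ h',
          (h4 n (n + 1) p' (Nat.le_succ n) h'').1]
    have ht : Tendsto (fun n => Piv_w p a0 n p') atTop (𝓝 (w p')) :=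
      ((continuous_eval_const p').tendsto w).comp hw
    have ht' : Tendsto (fun n => Piv_w p a0 n p') atTop (𝓝 (Piv_w p a0 (i + 1) p')) := by
      refine tendsto_const_nhds.congr' ?_
      filter_upwards [eventually_ge_atTop (i + 1)] with n hin
      exact (hconst n hin).symm
    rw [tendsto_nhds_unique ht ht']
    intro h0
    have h5 := Piv_w_abs p a0 (i + 1) p'
    rw [h0, abs_zero] at h5
    exact (Piv_e_pos p (i + 1) p').ne h5
  have hcell : ∀ (a : ℕ → Pat) (n : ℕ),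
      Function.update (zg (g n)) t (Piv_w p a n) ∈ CC (Function.update (g n) t (a n)) := by
    intro a n m p'
    by_cases hm : m = t
    · subst hm
      rw [Function.update_self, Function.update_self, Piv_w_apply, ← mul_assoc]
      have h5 : sg ((a n).1 p') * sg ((a n).1 p') = 1 := by
        unfold sg
        split_ifs <;> norm_num
      rw [h5, one_mul]
      exact Piv_e_pos p n p'
    · rw [Function.update_of_ne hm, Function.update_of_ne hm]
      exact zg_mem_CC (g n) m p'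
  have hlim : ∀ (a : ℕ → Pat), Tendsto (Piv_w p a) atTop (𝓝 w) →
      Tendsto (fun n => Function.update (zg (g n)) t (Piv_w p a n)) atTop
        (𝓝 (fun m => if m = t then w else zg (g (m + 1)) m)) := by
    intro a ha
    rw [tendsto_pi_nhds]
    intro m
    by_cases hm : m = t
    · subst hm
      simp only [Function.update_self, if_true]
      exact ha
    · simp only [if_neg hm]
      refine tendsto_const_nhds.congr' ?_
      filter_upwards [eventually_ge_atTop (m + 1)] with n hn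
      rw [Function.update_of_ne hm]
      exact (Piv_zg_congr (h3 (m + 1) n m (Nat.lt_succ_self m) hn hm)).symm
  refine ⟨fun m => if m = t then w else zg (g (m + 1)) m,
    fun n => Function.update (zg (g n)) t (Piv_w p a0 n),
    fun n => Function.update (zg (g n)) t (Piv_w p a1 n), hcell a0, hcell a1, hlim a0 hw,
    hlim a1 hw1, fun m p' h => ?_⟩
  by_cases hm : m = t
  · subst hm
    refine ⟨rfl, ?_⟩
    by_contra hp'
    apply hval p' hp'
    simpa using h
  · exfalso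
    simp only [if_neg hm] at h
    exact CC_ne (zg_mem_CC (g (m + 1))) m p' h

end Pool.Agent.H.MP_0e7155_gt.CE
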