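import Pool.Agent.H.MP_0e7155_gt.CE.Defs

open Set Topology Cardinal

namespace Pool.Agent.H.MP_0e7155_gt.CE

/-- SELECTION LEMMA.  Transfinite recursion along a well order of minimal type. -/
theorem select {I α : Type} (A : I → Set α) (hI : #I ≤ 𝔠) (hA : ∀ i, 𝔠 ≤ #(A i)) :
    ∃ g : I → α, Function.Injective g ∧ ∀ i, g i ∈ A i := by
  classical
  obtain ⟨r, wo, hr⟩ := Cardinal.ord_eq I
  have hcard : ∀ i, #{j | r j i} < 𝔠 := by
    intro i
    refine lt_of_lt_of_le ?_ hI
    have h1 : Ordinal.typein r i < Ordinal.type r := Ordinal.typein_lt_type r i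
    rw [← hr] at h1
    exact Cardinal.lt_ord.1 h1
  have hne : ∀ (i : I) (h : ∀ j, r j i → α),
      ∃ x ∈ A i, ∀ (j : I) (hj : r j i), h j hj ≠ x := by
    intro i h
    by_contra hcon
    push Not at hcon
    have h1 : A i ⊆ Set.range (fun j : {j | r j i} => h j.1 j.2) := by
      intro x hx
      obtain ⟨j, hj, hjx⟩ := hcon x hx
      exact ⟨⟨j, hj⟩, hjx⟩
    have h2 : #(A i) ≤ #{j | r j i} := (Cardinal.mk_le_mk_of_subset h1).trans Cardinal.mk_range_le
    exact absurd (lt_of_le_of_lt h2 (hcard i)) (not_lt.2 (hA i))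
  let F : ∀ i : I, (∀ j, r j i → α) → α := fun i h => Classical.choose (hne i h)
  let g : I → α := wo.toIsWellFounded.wf.fix F
  have hg : ∀ i, g i = F i (fun j _ => g j) := fun i => wo.toIsWellFounded.wf.fix_eq F i
  have hgs : ∀ i, g i ∈ A i ∧ ∀ j, r j i → g j ≠ g i := by
    intro i
    have := Classical.choose_spec (hne i (fun j _ => g j))
    have e : Classical.choose (hne i (fun j _ => g j)) = g i := (hg i).symm
    rw [e] at this
    exact this
  refine ⟨g, ?_, fun i => (hgs i).1⟩
  intro i j hij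
  rcases trichotomous_of r i j with h | h | h
  · exact absurd hij ((hgs j).2 i h)
  · exact h
  · exact absurd hij.symm ((hgs i).2 j h)

/-- All closed subsets of a second countable space, listed by sets of naturals. -/
theorem exists_list_closed (Y : Type) [TopologicalSpace Y] [SecondCountableTopology Y] :
    ∃ E : Set ℕ → Set Y, (∀ e, IsClosed (E e)) ∧ ∀ F : Set Y, IsClosed F → ∃ e, E e = F := by
  classical
  have hB := TopologicalSpace.isBasis_countableBasis Y
  have hc := TopologicalSpace.countable_countableBasis Y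
  obtain ⟨b, hb⟩ := Set.countable_iff_exists_subset_range.1 hc
  have hBo : ∀ n, b n ∈ TopologicalSpace.countableBasis Y → IsOpen (b n) :=
    fun n hn => hB.isOpen hn
  refine ⟨fun e => (⋃ n ∈ e, ⋃ (_ : b n ∈ TopologicalSpace.countableBasis Y), b n)ᶜ, ?_, ?_⟩
  · intro e
    rw [isClosed_compl_iff]
    exact isOpen_iUnion fun n => isOpen_iUnion fun _ => isOpen_iUnion fun hn => hBo n hn
  · intro F hF
    refine ⟨{n | b n ⊆ Fᶜ}, ?_⟩
    ext x
    simp only [Set.mem_compl_iff, Set.mem_iUnion, Set.mem_setOf_eq, not_exists]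
    constructor
    · intro h
      by_contra hx
      obtain ⟨s, hs, hxs, hsF⟩ := hB.exists_subset_of_mem_open (show x ∈ Fᶜ from hx) hF.isOpen_compl
      obtain ⟨n, rfl⟩ := hb hs
      exact h n hsF hs hxs
    · intro hx n hn _ hxn
      exact hn hxn hx

end Pool.Agent.H.MP_0e7155_gt.CE
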