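import Pool.Agent.H.MP_0e7155_gt.CE.XNhd
import Pool.Agent.H.MP_0e7155_gt.CE.Dense

open Set Topology Cardinal

namespace Pool.Agent.H.MP_0e7155_gt.CE

/-- A separation of the graph over `(c, d)` in `ℝ × Z` which is compatible with all special points over `(c, d)` with index
outside `A`. -/
structure Sepn (D : Dat) (A : Set S) (c d : ℝ) where
  U : Set (ℝ × Z)
  V : Set (ℝ × Z)
  oU : IsOpen U
  oV : IsOpen V
  disj : ∀ w, w ∈ U → w ∈ V → False
  cov : ∀ x, c < x → x < d → (x, D.f x) ∈ U ∨ (x, D.f x) ∈ V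
  neU : ∃ x, c < x ∧ x < d ∧ (x, D.f x) ∈ U
  neV : ∃ x, c < x ∧ x < d ∧ (x, D.f x) ∈ V
  half : ∀ q, q ∉ A → c < pos q → pos q < d → ∃ ε > 0, ∃ W ∈ 𝓝 (zq q),
    (∀ x, pos q - ε < x → x < pos q → D.f x ∈ W → (x, D.f x) ∈ U) ∨
    (∀ x, pos q - ε < x → x < pos q → D.f x ∈ W → (x, D.f x) ∈ V)

/-- The same with the two sides exchanged. -/
def Sepn.swap {D : Dat} {A : Set S} {c d : ℝ} (s : Sepn D A c d) : Sepn D A c d where
  U := s.V
  V := s.U
  oU := s.oV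
  oV := s.oU
  disj := fun w h1 h2 => s.disj w h2 h1
  cov := fun x h1 h2 => (s.cov x h1 h2).symm
  neU := s.neV
  neV := s.neU
  half := fun q h1 h2 h3 => by
    obtain ⟨ε, hε, W, hW, h⟩ := s.half q h1 h2 h3
    exact ⟨ε, hε, W, hW, h.symm⟩

/-- the union of all open sets over `(c, d)` whose preimage is in `O0` -/
def Sep0_UU (D : Dat) (c d : ℝ) (O0 : Set (X D)) : Set (ℝ × Z) :=
  ⋃₀ {O | IsOpen O ∧ iota D ⁻¹' O ⊆ O0 ∧ O ⊆ {w | c < w.1 ∧ w.1 < d}}

theorem Sep0_open (D : Dat) (c d : ℝ) (O0 : Set (X D)) : IsOpen (Sep0_UU D c d O0) :=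
  isOpen_sUnion fun _ h => h.1

theorem Sep0_of_mem {D : Dat} {c d : ℝ} {O0 : Set (X D)} {y : X D}
    (h : iota D y ∈ Sep0_UU D c d O0) : y ∈ O0 ∧ c < pi D y ∧ pi D y < d := by
  obtain ⟨O, ⟨_, h2, h3⟩, h4⟩ := h
  exact ⟨h2 h4, h3 h4⟩

theorem Sep0_mem_pp {D : Dat} {c d : ℝ} {O0 : Set (X D)} (hO : IsOpen O0) {x : ℝ}
    (h : pp D x ∈ O0) (hc : c < x) (hd : x < d) : (x, D.f x) ∈ Sep0_UU D c d O0 := by
  obtain ⟨W, hW, hsub⟩ := nhds_pp D x O0 (hO.mem_nhds h)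
  have hs : IsOpen {w : ℝ × Z | c < w.1 ∧ w.1 < d} :=
    (isOpen_lt continuous_const continuous_fst).inter (isOpen_lt continuous_fst continuous_const)
  refine ⟨interior W ∩ {w | c < w.1 ∧ w.1 < d}, ⟨isOpen_interior.inter hs, fun y hy => ?_,
    inter_subset_right⟩, ⟨mem_interior_iff_mem_nhds.2 hW, hc, hd⟩⟩
  exact hsub (show iota D y ∈ W from interior_subset hy.1)

theorem Sep0_half {D : Dat} {c d : ℝ} {O0 : Set (X D)} (hO : IsOpen O0) {q : S}
    (h : kk D q ∈ O0) (hc : c < pos q) (hd : pos q < d) : ∃ ε > 0, ∃ W ∈ 𝓝 (zq q),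
      ∀ x, pos q - ε < x → x < pos q → D.f x ∈ W → (x, D.f x) ∈ Sep0_UU D c d O0 := by
  obtain ⟨ε, hε, W, hW, hsub⟩ := nhds_kk D q O0 (hO.mem_nhds h)
  refine ⟨min ε (pos q - c), lt_min hε (by linarith), W, hW, fun x h1 h2 h3 => ?_⟩
  have h4 : pos q - ε < x := by
    have := min_le_left ε (pos q - c)
    linarith
  have h5 : c < x := by
    have := min_le_right ε (pos q - c)
    linarith
  exact Sep0_mem_pp hO (hsub (pp D x) h4 h2.le h3) h5 (h2.trans hd)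

theorem Sep0_ne {D : Dat} {A : Set S} {c d : ℝ} {O0 : Set (X D)} (hO : IsOpen O0)
    (h : (YY D A c d ∩ O0).Nonempty) : ∃ x, c < x ∧ x < d ∧ (x, D.f x) ∈ Sep0_UU D c d O0 := by
  obtain ⟨y, ⟨hc, hd, _⟩, hy⟩ := h
  rcases X_cases D y with ⟨x, rfl⟩ | ⟨q, rfl⟩
  · exact ⟨x, hc, hd, Sep0_mem_pp hO hy hc hd⟩
  · rw [pi_kk] at hc hd
    obtain ⟨ε, hε, W, hW, h1⟩ := Sep0_half hO hy hc hd
    obtain ⟨x, hx1, hx2, hx3⟩ := graph_dense' D (show pos q - ε < pos q by linarith) (interior W)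
      isOpen_interior ⟨zq q, mem_interior_iff_mem_nhds.2 hW⟩
    have h2 := h1 x hx1 hx2 (interior_subset hx3)
    have h3 := (Sep0_of_mem (y := pp D x) h2).2
    exact ⟨x, h3.1, h3.2, h2⟩

/-- (9), beginning, and (9.1).  Proof: not preconnected gives open `U0, V0` in `X D` with `YY D A c d ⊆ U0 ∪ V0`, both meeting
`YY D A c d`, and `YY D A c d ∩ (U0 ∩ V0)` empty. Let `U` be the union of all open `O ⊆ ℝ × Z` with `iota D ⁻¹' O ⊆ U0` and
`O ⊆ {w | c < w.1 ∧ w.1 < d}`, and `V` similarly with `V0`. They are open.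
* disjoint: `U ∩ V` is open; if it is nonempty it contains a point `(x, D.f x)` (`graph_dense`), then `c < x < d` and
  `pp D x ∈ U0 ∩ V0 ∩ YY D A c d`: contradiction (graph points over `(c, d)` are in `YY`).
* a graph point `pp D x`, `c < x < d`, which is in `U0` has `(x, D.f x) ∈ U` (`nhds_pp` for the neighbourhood `U0`, intersect
  the interior of `W` with the strip), same for `V`. This gives `cov`. Conversely `(x, D.f x) ∈ U` implies `pp D x ∈ U0`.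
* `half`: `kk D q` is in `YY`, hence in `U0` or `V0`, say `U0`. `nhds_kk` for `U0` gives `ε` and `W`; make `ε` so small that
  `c < pos q - ε`. For `pos q - ε < x < pos q` and `D.f x ∈ W` we get `pp D x ∈ U0` (take `y = pp D x`), so `(x, D.f x) ∈ U`.
* `neU`: `U0` contains a point of `YY`, either a graph point (done) or some `kk D q`; then as in `half` all graph points in a
  left half box of `kk D q` are in `U0`, and there are some (`graph_dense'` over `(pos q - ε, pos q)` with the interior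
  of `W`, which contains `zq q`). -/
theorem exists_Sepn (D : Dat) (A : Set S) {c d : ℝ} (h : ¬ IsPreconnected (YY D A c d)) :
    Nonempty (Sepn D A c d) := by
  unfold IsPreconnected at h
  push Not at h
  obtain ⟨U0, V0, hU0, hV0, hcov, hnU, hnV, hdis⟩ := h
  have hdis' : ∀ y, y ∈ YY D A c d → y ∈ U0 → y ∈ V0 → False := by
    intro y h1 h2 h3
    have h4 : y ∈ YY D A c d ∩ (U0 ∩ V0) := ⟨h1, h2, h3⟩
    rw [hdis] at h4
    exact h4
  have hpp : ∀ x, c < x → x < d → pp D x ∈ YY D A c d := fun x h1 h2 =>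
    ⟨h1, h2, fun q _ => pp_ne_kk D x q⟩
  refine ⟨⟨Sep0_UU D c d U0, Sep0_UU D c d V0, Sep0_open D c d U0, Sep0_open D c d V0, ?_, ?_,
    Sep0_ne hU0 hnU, Sep0_ne hV0 hnV, ?_⟩⟩
  · intro w h1 h2
    obtain ⟨x, hx1, hx2⟩ := graph_dense D _ ((Sep0_open D c d U0).inter (Sep0_open D c d V0))
      ⟨w, h1, h2⟩
    have h3 := Sep0_of_mem (y := pp D x) hx1
    have h4 := Sep0_of_mem (y := pp D x) hx2
    exact hdis' (pp D x) (hpp x h3.2.1 h3.2.2) h3.1 h4.1
  · intro x h1 h2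
    rcases hcov (hpp x h1 h2) with h3 | h3
    · exact Or.inl (Sep0_mem_pp hU0 h3 h1 h2)
    · exact Or.inr (Sep0_mem_pp hV0 h3 h1 h2)
  · intro q hq h1 h2
    have h3 : kk D q ∈ YY D A c d := ⟨h1, h2, fun q' hq' h4 => by
      rw [kk_inj D h4] at hq
      exact hq hq'⟩
    rcases hcov h3 with h4 | h4
    · obtain ⟨ε, hε, W, hW, h5⟩ := Sep0_half hU0 h4 h1 h2
      exact ⟨ε, hε, W, hW, Or.inl h5⟩
    · obtain ⟨ε, hε, W, hW, h5⟩ := Sep0_half hV0 h4 h1 h2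
      exact ⟨ε, hε, W, hW, Or.inr h5⟩

/-- The exceptional set of abscissas over `[a, b]`. -/
def Sepn.DD {D : Dat} {A : Set S} {c d : ℝ} (s : Sepn D A c d) (a b : ℝ) : Set ℝ :=
  {x | a ≤ x ∧ x ≤ b ∧ ∃ z, (x, z) ∉ s.U ∧ (x, z) ∉ s.V ∧ Good D.Lam z}

/-- It is small: apply `D.fmiss` to the closed set `{w | a ≤ w.1 ∧ w.1 ≤ b ∧ w ∉ U ∧ w ∉ V}`, missed by the graph by `cov`. -/
theorem Sepn.DD_small {D : Dat} {A : Set S} {c d : ℝ} (s : Sepn D A c d) {a b : ℝ} (ha : c < a)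
    (hb : b < d) : #(s.DD a b) < 𝔠 := by
  have hF : IsClosed {w : ℝ × Z | a ≤ w.1 ∧ w.1 ≤ b ∧ w ∉ s.U ∧ w ∉ s.V} := by
    refine (isClosed_le continuous_const continuous_fst).inter
      ((isClosed_le continuous_fst continuous_const).inter ?_)
    exact (isClosed_compl_iff.2 s.oU).inter (isClosed_compl_iff.2 s.oV)
  have h1 := D.fmiss _ hF (fun x hx => by
    rcases s.cov x (lt_of_lt_of_le ha hx.1) (lt_of_le_of_lt hx.2.1 hb) with h | h
    · exact hx.2.2.1 h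
    · exact hx.2.2.2 h)
  refine lt_of_le_of_lt (Cardinal.mk_le_mk_of_subset ?_) h1
  rintro x ⟨h2, h3, z, h4, h5, h6⟩
  exact ⟨z, ⟨h2, h3, h4, h5⟩, h6⟩

/-- (9.2) Over an abscissa which is not exceptional every cell is on one side.  Proof: all `z ∈ CC g` are good (`CC_good`), so
`(x, z) ∈ U` or `V`. The set `{x} × CC g`, i.e. the image of `CC g` under `z ↦ (x, z)`, is preconnected (`CC_preconnected`)
and contained in the union of the disjoint open sets `U`, `V`. -/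
theorem Sepn.cell {D : Dat} {A : Set S} {c d : ℝ} (s : Sepn D A c d) {a b x : ℝ} (ha : a ≤ x)
    (hb : x ≤ b) (hx : x ∉ s.DD a b) (g : FP) :
    (∀ z ∈ CC g, (x, z) ∈ s.U) ∨ (∀ z ∈ CC g, (x, z) ∈ s.V) := by
  have hUV : ∀ z ∈ CC g, (x, z) ∈ s.U ∨ (x, z) ∈ s.V := by
    intro z hz
    by_contra h
    rw [not_or] at h
    exact hx ⟨ha, hb, z, h.1, h.2, CC_good hz D.Lam⟩
  have hc : Continuous fun z : Z => (x, z) := continuous_const.prodMk continuous_id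
  by_contra hcon
  rw [not_or] at hcon
  push Not at hcon
  obtain ⟨⟨z1, hz1, hz1'⟩, ⟨z2, hz2, hz2'⟩⟩ := hcon
  obtain ⟨z, _, h1, h2⟩ := CC_preconnected g _ _ (s.oU.preimage hc) (s.oV.preimage hc)
    (fun z hz => hUV z hz) ⟨z2, hz2, (hUV z2 hz2).resolve_right hz2'⟩
    ⟨z1, hz1, (hUV z1 hz1).resolve_left hz1'⟩
  exact s.disj _ h1 h2

end Pool.Agent.H.MP_0e7155_gt.CE
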