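import Pool.Agent.H.MP_0e7155_gt.CE.Sep0
import Pool.Agent.H.MP_0e7155_gt.CE.Piv
import Pool.Agent.H.MP_0e7155_gt.CE.Core

open Set Topology Cardinal Filter

namespace Pool.Agent.H.MP_0e7155_gt.CE

variable {D : Dat} {A : Set S} {c d : ℝ}

/-- (9.4) PIVOT LEMMA.  Proof: `pivot_point` gives `ζ, ζ0, ζ1`. By `Sepn.cell` and `zg_mem_CC` (the hypothesis says that
`(x, zg (update (g n) t (a0 n)))` is in `U`, so the whole cell is on the side `U`, by disjointness not on the side `V`) all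
`(x, ζ0 n)` are in `U`, all `(x, ζ1 n)` in `V`. If `(x, ζ) ∈ U` then, `U` being open and `(x, ζ1 n) → (x, ζ)`, some `(x, ζ1 n) ∈ U`,
against disjointness; same for `V`. So `(x, ζ)` is in neither. If `p ∉ D.Lam` then `ζ` is good (its only zero is at `(t, p)`), so
`x ∈ s.DD a b`: contradiction. -/
theorem Sepn.pivot (s : Sepn D A c d) {a b x : ℝ} (ha : a ≤ x) (hb : x ≤ b) (hx : x ∉ s.DD a b)
    (t : ℕ) (p : P) (g : ℕ → FP) (a0 a1 : ℕ → Pat)
    (h1 : ∀ n, (x, zg (Function.update (g n) t (a0 n))) ∈ s.U)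
    (h2 : ∀ n, (x, zg (Function.update (g n) t (a1 n))) ∈ s.V)
    (h3 : ∀ n n' m, m < n → n ≤ n' → m ≠ t → g n' m = g n m)
    (h4 : ∀ n n' p', n ≤ n' → p' ∉ cyl p n →
      (a0 n').1 p' = (a0 n).1 p' ∧ (a1 n').1 p' = (a0 n).1 p') : p ∈ D.Lam := by
  obtain ⟨ζ, ζ0, ζ1, c0, c1, l0, l1, hz⟩ := pivot_point t p g a0 a1 h3 h4
  have hU : ∀ n, (x, ζ0 n) ∈ s.U := by
    intro n
    rcases s.cell ha hb hx (Function.update (g n) t (a0 n)) with h | h
    · exact h _ (c0 n)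
    · exact (s.disj _ (h1 n) (h _ (zg_mem_CC _))).elim
  have hV : ∀ n, (x, ζ1 n) ∈ s.V := by
    intro n
    rcases s.cell ha hb hx (Function.update (g n) t (a1 n)) with h | h
    · exact (s.disj _ (h _ (zg_mem_CC _)) (h2 n)).elim
    · exact h _ (c1 n)
  have hc : Continuous fun z : Z => (x, z) := continuous_const.prodMk continuous_id
  have nU : (x, ζ) ∉ s.U := by
    intro h
    have h5 : ∀ᶠ n in atTop, (x, ζ1 n) ∈ s.U :=
      l1.eventually ((s.oU.preimage hc).mem_nhds h)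
    obtain ⟨n, hn⟩ := h5.exists
    exact s.disj _ hn (hV n)
  have nV : (x, ζ) ∉ s.V := by
    intro h
    have h5 : ∀ᶠ n in atTop, (x, ζ0 n) ∈ s.V :=
      l0.eventually ((s.oV.preimage hc).mem_nhds h)
    obtain ⟨n, hn⟩ := h5.exists
    exact s.disj _ (hU n) hn
  by_contra hp
  refine hx ⟨ha, hb, ζ, nU, nV, fun m p' hp' h0 => ?_⟩
  obtain ⟨-, rfl⟩ := hz m p' h0
  exact hp hp'

/-- The core of a separation over `[a, b] ⊆ (c, d)`. -/
def Sepn.core (s : Sepn D A c d) {a b : ℝ} (ha : c < a) (hab : a < b) (hb : b < d) :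
    Core D.Lam where
  a := a
  b := b
  hab := hab
  E := s.DD a b
  small := s.DD_small ha hb
  U := {w | (w.1, zg w.2) ∈ s.U}
  V := {w | (w.1, zg w.2) ∈ s.V}
  opU := fun x g h => zg_open s.U s.oU x g h
  opV := fun x g h => zg_open s.V s.oV x g h
  disj := fun w h1 h2 => s.disj _ h1 h2
  cov := fun x h1 h2 h3 g => by
    rcases s.cell h1.le h2.le h3 g with h | h
    · exact Or.inl (h _ (zg_mem_CC g))
    · exact Or.inr (h _ (zg_mem_CC g))
  piv := fun x h1 h2 h3 t p g a0 a1 k1 k2 k3 k4 =>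
    s.pivot h1.le h2.le h3 t p g a0 a1 k1 k2 k3 k4

end Pool.Agent.H.MP_0e7155_gt.CE
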