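import Pool.Agent.H.MP_0e7155_gt.CE.XTop

open Set Topology Cardinal

namespace Pool.Agent.H.MP_0e7155_gt.CE

/-- the continuous formula for `hh` -/
noncomputable def XNhd_F (D : Dat) (q : S) (w : ℝ × Z) : ℝ :=
  max 0 (1 - ‖w.2 0 - zq q 0‖ / rho D q)

theorem XNhd_F_cont (D : Dat) (q : S) : Continuous (XNhd_F D q) := by
  unfold XNhd_F
  have h1 : Continuous fun w : ℝ × Z => w.2 0 := (continuous_apply 0).comp continuous_snd
  exact continuous_const.max (continuous_const.sub ((h1.sub continuous_const).norm.div_const _))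

theorem XNhd_hh_nonneg (D : Dat) (q : S) (w : ℝ × Z) : 0 ≤ hh D q w := by
  unfold hh
  split_ifs
  · exact le_max_left _ _
  · exact le_rfl

theorem XNhd_hh_le (D : Dat) (q : S) (w : ℝ × Z) : hh D q w ≤ XNhd_F D q w := by
  unfold hh XNhd_F
  split_ifs
  · exact le_rfl
  · exact le_max_left _ _

theorem XNhd_hh_gt (D : Dat) (q : S) (w : ℝ × Z) (h : pos q < w.1) : ContinuousAt (hh D q) w := by
  have h1 : ∀ᶠ w' : ℝ × Z in 𝓝 w, pos q < w'.1 :=
    continuous_fst.continuousAt.eventually_const_lt h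
  have h2 : XNhd_F D q =ᶠ[𝓝 w] hh D q := by
    filter_upwards [h1] with w' hw'
    unfold hh XNhd_F
    rw [if_pos hw']
  exact (XNhd_F_cont D q).continuousAt.congr h2

theorem XNhd_hh_zero (D : Dat) (q : S) (w : ℝ × Z) (h : w.1 ≤ pos q) : hh D q w = 0 := by
  unfold hh
  rw [if_neg (not_lt.2 h)]

theorem XNhd_hh_lt (D : Dat) (q : S) (w : ℝ × Z) (h : w.1 < pos q) : ContinuousAt (hh D q) w := by
  have h1 : ∀ᶠ w' : ℝ × Z in 𝓝 w, w'.1 < pos q :=
    continuous_fst.continuousAt.eventually_lt_const h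
  have h2 : (fun _ => (0 : ℝ)) =ᶠ[𝓝 w] hh D q := by
    filter_upwards [h1] with w' hw'
    exact (XNhd_hh_zero D q w' hw'.le).symm
  exact continuousAt_const.congr h2

theorem XNhd_hh_eq (D : Dat) (q : S) (w : ℝ × Z) (h : w.1 = pos q)
    (h2 : ‖w.2 0 - zq q 0‖ = rho D q) : ContinuousAt (hh D q) w := by
  have h3 : XNhd_F D q w = 0 := by
    unfold XNhd_F
    rw [h2, div_self (rho_pos D q).ne', sub_self, max_self]
  have h4 : hh D q w = 0 := XNhd_hh_zero D q w h.le
  unfold ContinuousAt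
  rw [h4]
  have h5 : Filter.Tendsto (XNhd_F D q) (𝓝 w) (𝓝 0) := by
    rw [← h3]
    exact (XNhd_F_cont D q).continuousAt
  exact squeeze_zero (XNhd_hh_nonneg D q) (XNhd_hh_le D q) h5

/-- the map which defines `Phi` -/
noncomputable def XNhd_G (D : Dat) (w : ℝ × Z) : (ℝ × Z) × (S → ℝ) := (w, fun q => hh D q w)

theorem XNhd_Phi (D : Dat) (y : X D) : Phi D y = XNhd_G D (iota D y) := rfl

/-- (X2) At a graph point the topology of `X D` is the one of `ℝ × Z`.  Proof: `𝓝 (pp D x)` is the comap under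
`Phi D` of `𝓝 (Phi D (pp D x))` (`nhds_induced`); it is enough that the map
`w ↦ (w, fun q => hh D q w)` from `ℝ × Z` to `(ℝ × Z) × (S → ℝ)` is continuous at `(x, D.f x)`, i.e. every `hh D q` is
continuous at `(x, D.f x)` (`continuousAt_pi`).
* If `pos q < x`: near the point `hh D q w = max 0 (1 - ‖w.2 0 - zq q 0‖ / rho D q)`, continuous.
* If `x < pos q`: near the point `hh D q = 0`.
* If `x = pos q`: `0 ≤ hh D q w ≤ max 0 (1 - ‖w.2 0 - zq q 0‖ / rho D q)` everywhere, the right hand side is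
  continuous and `0` at `(x, D.f x)` because there `‖w.2 0 - zq q 0‖ = rho D q > 0`; squeeze. -/
theorem nhds_pp (D : Dat) (x : ℝ) (O : Set (X D)) (hO : O ∈ 𝓝 (pp D x)) :
    ∃ W ∈ 𝓝 ((x, D.f x) : ℝ × Z), iota D ⁻¹' W ⊆ O := by
  rw [nhds_induced, Filter.mem_comap] at hO
  obtain ⟨W', hW', hsub⟩ := hO
  have hG : ContinuousAt (XNhd_G D) (x, D.f x) := by
    refine ContinuousAt.prodMk continuousAt_id (continuousAt_pi.2 fun q => ?_)
    rcases lt_trichotomy (pos q) x with h | h | h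
    · exact XNhd_hh_gt D q _ h
    · exact XNhd_hh_eq D q _ h.symm (by subst h; rfl)
    · exact XNhd_hh_lt D q _ h
  have hW : W' ∈ 𝓝 (XNhd_G D (x, D.f x)) := hW'
  exact ⟨XNhd_G D ⁻¹' W', hG hW, fun y hy => hsub hy⟩

/-- (X3) At a special point every neighbourhood contains all points of a left half box.  Proof: as for `nhds_pp`,
but with the filter `𝓝[{w | w.1 ≤ pos q}] (pos q, zq q)`: on `{w | w.1 ≤ pos q}` every `hh D q'` is continuous at
`(pos q, zq q)` (`ContinuousWithinAt`): if `pos q ≤ pos q'` it is identically `0` there, if `pos q' < pos q` it is given by the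
continuous formula near the point. Then translate `nhdsWithin` of a product into `ε` and `W`
(`mem_nhdsWithin`, `mem_nhds_prod_iff`, `Metric.mem_nhds_iff`). -/
theorem nhds_kk (D : Dat) (q : S) (O : Set (X D)) (hO : O ∈ 𝓝 (kk D q)) :
    ∃ ε > 0, ∃ W ∈ 𝓝 (zq q), ∀ y : X D, pos q - ε < pi D y → pi D y ≤ pos q →
      (iota D y).2 ∈ W → y ∈ O := by
  rw [nhds_induced, Filter.mem_comap] at hO
  obtain ⟨W', hW', hsub⟩ := hO
  have hG : ContinuousWithinAt (XNhd_G D) {w | w.1 ≤ pos q} (pos q, zq q) := by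
    refine ContinuousWithinAt.prodMk continuousWithinAt_id (continuousWithinAt_pi.2 fun q' => ?_)
    rcases lt_or_ge (pos q') (pos q) with h | h
    · exact (XNhd_hh_gt D q' _ h).continuousWithinAt
    · refine ContinuousWithinAt.congr (f := fun _ => (0 : ℝ)) continuousWithinAt_const ?_ ?_
      · intro w hw
        exact XNhd_hh_zero D q' w (le_trans hw h)
      · exact XNhd_hh_zero D q' _ h
  have hW : W' ∈ 𝓝 (XNhd_G D (pos q, zq q)) := hW'
  have h1 : XNhd_G D ⁻¹' W' ∈ 𝓝[{w | w.1 ≤ pos q}] (pos q, zq q) := hG hW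
  rw [mem_nhdsWithin_iff_exists_mem_nhds_inter] at h1
  obtain ⟨u, hu, hus⟩ := h1
  obtain ⟨U, hU, V, hV, hUV⟩ := mem_nhds_prod_iff.1 hu
  obtain ⟨ε, hε, hball⟩ := Metric.mem_nhds_iff.1 hU
  refine ⟨ε, hε, V, hV, fun y h2 h3 h4 => hsub ?_⟩
  have h5 : iota D y ∈ u := by
    apply hUV
    refine ⟨hball ?_, h4⟩
    rw [Metric.mem_ball, Real.dist_eq, abs_lt]
    have h6 : pi D y = (iota D y).1 := rfl
    rw [← h6]
    constructor <;> linarith
  exact hus ⟨h5, h3⟩

/-- (X4) A special point has a neighbourhood to the left of it.  Proof: the set of all `y` with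
`‖(iota D y).2 0 - zq q 0‖ < rho D q / 2` and `hh D q (iota D y) < 1 / 2` is a neighbourhood of `kk D q`
(both functions are continuous on `X D`; `hh D q (pos q, zq q) = 0`), and for `pi D y > pos q` in it we would have
`hh D q (iota D y) > 1 / 2`. -/
theorem left_nhd (D : Dat) (q : S) : {y : X D | pi D y ≤ pos q} ∈ 𝓝 (kk D q) := by
  have hr := rho_pos D q
  have h1 : Continuous fun y : X D => ‖(iota D y).2 0 - zq q 0‖ :=
    (((continuous_apply 0).comp (continuous_snd_iota D)).sub continuous_const).norm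
  have h2 : Continuous fun y : X D => hh D q (iota D y) :=
    (continuous_apply q).comp (continuous_snd.comp (continuous_Phi D))
  have h3 : ∀ᶠ y : X D in 𝓝 (kk D q), ‖(iota D y).2 0 - zq q 0‖ < rho D q / 2 := by
    apply h1.continuousAt.eventually_lt_const
    show ‖(iota D (kk D q)).2 0 - zq q 0‖ < rho D q / 2
    rw [iota_kk, sub_self, norm_zero]
    linarith
  have h4 : ∀ᶠ y : X D in 𝓝 (kk D q), hh D q (iota D y) < 1 / 2 := by
    apply h2.continuousAt.eventually_lt_const
    show hh D q (iota D (kk D q)) < 1 / 2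
    rw [XNhd_hh_zero D q _ (by rw [iota_kk])]
    norm_num
  filter_upwards [h3, h4] with y h5 h6
  by_contra h7
  have h8 : pos q < (iota D y).1 := not_le.1 h7
  have h9 : hh D q (iota D y) = max 0 (1 - ‖(iota D y).2 0 - zq q 0‖ / rho D q) := by
    unfold hh
    rw [if_pos h8]
  have h10 : ‖(iota D y).2 0 - zq q 0‖ / rho D q < 1 / 2 := by
    rw [div_lt_iff₀ hr]
    linarith
  have h11 : 1 - ‖(iota D y).2 0 - zq q 0‖ / rho D q ≤ hh D q (iota D y) := by
    rw [h9]
    exact le_max_right _ _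
  linarith

end Pool.Agent.H.MP_0e7155_gt.CE
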