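import Pool.Agent.H.MP_0e7155_gt.CE.Defs

open Set Topology Cardinal

namespace Pool.Agent.H.MP_0e7155_gt.CE

/-- Distinct special points differ in the coordinate `0` of the fibre: choose `p` with `q' ∈ NN p` and `q ∉ NN p`
(`p` = the sequence which is true exactly at `2 * Encodable.encode q'`); `T (vv 0) = univ` (`T_vv_zero`). -/
theorem zq_zero_one (q q' : S) (h : q ≠ q') :
    ∃ p, zq q 0 p = 0 ∧ (zq q' 0 p = 1 ∨ zq q' 0 p = -1) := by
  classical
  refine ⟨fun i => decide (i = 2 * Encodable.encode q'), ?_, ?_⟩
  · have h1 : q ∉ NN (fun i => decide (i = 2 * Encodable.encode q')) := by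
      intro h2
      have h3 : decide (2 * Encodable.encode q = 2 * Encodable.encode q') = true := h2
      have h4 : 2 * Encodable.encode q = 2 * Encodable.encode q' := of_decide_eq_true h3
      exact h (Encodable.encode_injective (by omega))
    have h2 : q ∈ T (vv 0) := by rw [T_vv_zero]; trivial
    exact if_pos ⟨h2, h1⟩
  · have h1 : q' ∈ NN (fun i => decide (i = 2 * Encodable.encode q')) := by
      show decide (2 * Encodable.encode q' = 2 * Encodable.encode q') = true
      exact decide_eq_true rfl
    have h2 : zq q' 0 (fun i => decide (i = 2 * Encodable.encode q'))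
        = sg ((kap (lab q' 0)).1 (fun i => decide (i = 2 * Encodable.encode q'))) :=
      if_neg fun h3 => h3.2 h1
    rw [h2]
    unfold sg
    split_ifs
    · exact Or.inl rfl
    · exact Or.inr rfl

/-- There is a protected leaf `(0, p)`, `p ∈ D.Lam`, `NN p = ∅`, at which all `zq q` vanish
(`D.lamE ∅ D.empty`, `T_vv_zero`). -/
theorem exists_p0 (D : Dat) : ∃ p ∈ D.Lam, ∀ q, zq q 0 p = 0 := by
  obtain ⟨p, hp, hp2⟩ := D.lamE ∅ D.empty
  refine ⟨p, hp, fun q => ?_⟩
  have h2 : q ∈ T (vv 0) := by rw [T_vv_zero]; trivial
  have h1 : q ∉ NN p := by rw [hp2]; exact Set.notMem_empty q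
  exact if_pos ⟨h2, h1⟩

/-- `rho D q > 0`: at the leaf of `exists_p0`, `D.f (pos q)` is nonzero (`D.fgood`) and `zq q` is zero, so the two
continuous functions are different. -/
theorem rho_pos (D : Dat) (q : S) : 0 < rho D q := by
  obtain ⟨p, hp, hp2⟩ := exists_p0 D
  unfold rho
  rw [norm_pos_iff, sub_ne_zero]
  intro h
  apply D.fgood (pos q) 0 p hp
  rw [h]
  exact hp2 q

theorem continuous_Phi (D : Dat) : Continuous (Phi D) := continuous_induced_dom

theorem continuous_iota (D : Dat) : Continuous (iota D) :=
  continuous_fst.comp (continuous_Phi D)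

theorem continuous_pi (D : Dat) : Continuous (pi D) := continuous_fst.comp (continuous_iota D)

theorem continuous_snd_iota (D : Dat) : Continuous (fun y : X D => (iota D y).2) :=
  continuous_snd.comp (continuous_iota D)

/-- Evaluation of the fibre part at a leaf is continuous (`continuous_snd_iota`, `continuous_apply`,
`ContinuousMap.continuous_eval_const`). -/
theorem continuous_ev (D : Dat) (m : ℕ) (p : P) : Continuous (fun y : X D => (iota D y).2 m p) :=
  (continuous_eval_const p).comp ((continuous_apply m).comp (continuous_snd_iota D))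

/-- The embedding is injective: graph points have different abscissas; a graph point and a special point differ
by `rho_pos`; special points by `zq_zero_one`. (Already `iota D` is injective.) -/
theorem iota_injective (D : Dat) : Function.Injective (iota D) := by
  intro y y' h
  rcases X_cases D y with ⟨x, rfl⟩ | ⟨q, rfl⟩ <;> rcases X_cases D y' with ⟨x', rfl⟩ | ⟨q', rfl⟩
  · have h1 : x = x' := congrArg Prod.fst h
    rw [h1]
  · exfalso
    rw [iota_pp, iota_kk] at h
    have h1 : x = pos q' := congrArg Prod.fst h
    have h2 : D.f x = zq q' := congrArg Prod.snd h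
    have h3 := rho_pos D q'
    unfold rho at h3
    rw [← h1, h2, sub_self, norm_zero] at h3
    exact lt_irrefl _ h3
  · exfalso
    rw [iota_pp, iota_kk] at h
    have h1 : pos q = x' := congrArg Prod.fst h
    have h2 : zq q = D.f x' := congrArg Prod.snd h
    have h3 := rho_pos D q
    unfold rho at h3
    rw [h1, h2, sub_self, norm_zero] at h3
    exact lt_irrefl _ h3
  · rw [iota_kk, iota_kk] at h
    by_contra hne
    have hqq : q ≠ q' := fun h1 => hne (by rw [h1])
    obtain ⟨p, hp1, hp2⟩ := zq_zero_one q q' hqq
    have h2 : zq q = zq q' := congrArg Prod.snd h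
    rw [h2] at hp1
    rcases hp2 with h3 | h3
    · rw [hp1] at h3
      norm_num at h3
    · rw [hp1] at h3
      norm_num at h3

theorem XTop_isEmbedding (D : Dat) : Topology.IsEmbedding (Phi D) :=
  ⟨⟨rfl⟩, fun _ _ h => iota_injective D (congrArg Prod.fst h)⟩

/-- `Phi D` is an embedding in the metrizable space `(ℝ × Z) × (S → ℝ)` (countable products, `S` is countable).
`Topology.IsEmbedding.metrizableSpace`; the topology of `X D` is induced by `Phi D`, `Phi D` is injective by
`iota_injective`. -/
theorem X_metrizable (D : Dat) : TopologicalSpace.MetrizableSpace (X D) := by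
  have : SecondCountableTopology (X D) := (XTop_isEmbedding D).secondCountableTopology
  have : T3Space (X D) := (XTop_isEmbedding D).t3Space
  exact TopologicalSpace.metrizableSpace_of_t3_secondCountable (X D)

/-- Second countability, `Topology.IsEmbedding.secondCountableTopology` or for induced topologies
`TopologicalSpace.secondCountableTopology_induced`. `C(P, ℝ)` is second countable (there is an instance). -/
theorem X_second (D : Dat) : SecondCountableTopology (X D) :=
  (XTop_isEmbedding D).secondCountableTopology

end Pool.Agent.H.MP_0e7155_gt.CE
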