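import Pool.Agent.H.MP_0e7155_gt.CE.Defs

open Set Topology Cardinal

namespace Pool.Agent.H.MP_0e7155_gt.CE

/-- Cylinders form a basis of neighbourhoods. -/
theorem ZeroFree_cyl_subset {p : P} {U : Set P} (hU : U ∈ 𝓝 p) : ∃ n, cyl p n ⊆ U := by
  obtain ⟨V, ⟨x, n, rfl⟩, hpV, hVU⟩ :=
    (PiNat.isTopologicalBasis_cylinders (fun _ : ℕ => Bool)).mem_nhds_iff.1 hU
  refine ⟨n, fun p' hp' => hVU ?_⟩
  rw [PiNat.mem_cylinder_iff] at hpV ⊢
  intro i hi
  rw [hp' i hi, hpV i hi]

/-- Compactness: a relation which holds locally on cylinders holds uniformly. -/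
theorem ZeroFree_unif (R : P → P → Prop)
    (h : ∀ p, ∃ n, ∀ p₁ ∈ cyl p n, ∀ p₂ ∈ cyl p n, R p₁ p₂) :
    ∃ n, ∀ p₁ p₂ : P, (∀ i < n, p₁ i = p₂ i) → R p₁ p₂ := by
  choose n hn using h
  obtain ⟨t, -, ht⟩ := (isCompact_univ (X := P)).elim_nhds_subcover (fun p => cyl p (n p))
    (fun p _ => (cyl_open p (n p)).mem_nhds (fun i _ => rfl))
  refine ⟨t.sup n, fun p₁ p₂ h12 => ?_⟩
  obtain ⟨x, hx, hx1⟩ := Set.mem_iUnion₂.1 (ht (Set.mem_univ p₁))
  refine hn x p₁ hx1 p₂ (fun i hi => ?_)
  rw [← hx1 i hi]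
  exact (h12 i (lt_of_lt_of_le hi (Finset.le_sup hx))).symm

theorem ZeroFree_real (f : C(P, ℝ)) {e : ℝ} (he : 0 < e) :
    ∃ n, ∀ p₁ p₂ : P, (∀ i < n, p₁ i = p₂ i) → |f p₁ - f p₂| < e := by
  refine ZeroFree_unif (fun p₁ p₂ => |f p₁ - f p₂| < e) (fun p => ?_)
  have h1 : f ⁻¹' Metric.ball (f p) (e / 2) ∈ 𝓝 p :=
    f.continuous.continuousAt.preimage_mem_nhds (Metric.ball_mem_nhds _ (half_pos he))
  obtain ⟨n, hn⟩ := ZeroFree_cyl_subset h1
  refine ⟨n, fun p₁ h₁ p₂ h₂ => ?_⟩
  have e1 := hn h₁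
  have e2 := hn h₂
  rw [Set.mem_preimage, Metric.mem_ball, Real.dist_eq] at e1 e2
  rw [abs_lt] at e1 e2 ⊢
  constructor <;> linarith [e1.1, e1.2, e2.1, e2.2]

/-- Approximation of a continuous function by a function without zeros. -/
theorem ZeroFree_approx (f : C(P, ℝ)) {e : ℝ} (he : 0 < e) :
    ∃ w : C(P, ℝ), (∀ p, w p ≠ 0) ∧ dist w f ≤ e := by
  classical
  obtain ⟨n, hn⟩ := ZeroFree_real f (half_pos he)
  let tr : P → P := fun p i => if i < n then p i else false
  let w₀ : P → ℝ := fun p => if f (tr p) = 0 then e / 2 else f (tr p)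
  have hdep : Dep n w₀ := by
    intro p p' hp
    have h1 : tr p = tr p' := by
      funext i
      show (if i < n then p i else false) = (if i < n then p' i else false)
      split_ifs with hi
      · exact hp i hi
      · rfl
    show (if f (tr p) = 0 then e / 2 else f (tr p)) = _
    rw [h1]
  refine ⟨⟨w₀, hdep.continuous⟩, fun p => ?_, ?_⟩
  · show (if f (tr p) = 0 then e / 2 else f (tr p)) ≠ 0
    split_ifs with h
    · exact (half_pos he).ne'
    · exact h
  · refine (ContinuousMap.dist_le he.le).2 (fun p => ?_)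
    have h1 : |f (tr p) - f p| < e / 2 := by
      refine hn _ _ (fun i hi => ?_)
      show (if i < n then p i else false) = p i
      rw [if_pos hi]
    rw [Real.dist_eq]
    show |(if f (tr p) = 0 then e / 2 else f (tr p)) - f p| ≤ e
    rw [abs_lt] at h1
    split_ifs with h
    · rw [h] at h1
      rw [abs_le]
      constructor <;> linarith [h1.1, h1.2]
    · rw [abs_le]
      constructor <;> linarith [h1.1, h1.2]

/-- Zero-free points are dense.  Proof: it is enough to treat a basic neighbourhood: finitely many coordinates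
`m ∈ s` and `ε > 0` (`nhds_pi`, `Filter.mem_pi`, `Metric.ball` in `C(P, ℝ)`). For every `m`: `z m` is uniformly
continuous on the compact space `P`; better: for every `m` and `ε > 0` there is a zero-free `w : C(P, ℝ)` with
`‖w - z m‖ < ε` (or `≤ ε / 2`): there is `n` with `|z m p - z m p'| < ε / 4` if `p, p'` agree below `n` (compactness:
cover `P` by cylinders on which `z m` oscillates less than that; or use `truncation`: the functions
`p ↦ z m (trunc n p)`, `trunc n p i = p i` for `i < n` and false otherwise, converge uniformly to `z m`), and put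
`w p = adj (z m (trunc n p))` with `adj t = t` if `t ≠ 0` and `adj 0 = ε / 4`. It is continuous because it depends
only on finitely many coordinates (`Dep.continuous`). -/
theorem exists_zero_free (z : Z) (O : Set Z) (hO : O ∈ 𝓝 z) : ∃ z' ∈ O, ∀ m p, z' m p ≠ 0 := by
  have h1 : ∀ (k m : ℕ), ∃ w : C(P, ℝ), (∀ p, w p ≠ 0) ∧ dist w (z m) ≤ 1 / ((k : ℝ) + 1) :=
    fun k m => ZeroFree_approx (z m) Nat.one_div_pos_of_nat
  choose w hw hd using h1
  have h2 : Filter.Tendsto w Filter.atTop (𝓝 z) := by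
    rw [tendsto_pi_nhds]
    intro m
    rw [tendsto_iff_dist_tendsto_zero]
    exact squeeze_zero (fun _ => dist_nonneg) (fun k => hd k m)
      tendsto_one_div_add_atTop_nhds_zero_nat
  obtain ⟨k, hk⟩ := (h2.eventually hO).exists
  exact ⟨w k, hk, fun m p => hw k m p⟩

/-- A zero-free `z` lies in a cell `CC g`.  Proof: for every `m` the function `p ↦ decide (0 < z m p)` on `P` is
locally constant (no zeros), hence by compactness of `P` depends on finitely many coordinates: cover `P` by
finitely many cylinders `cyl p_i n_i` on which it is constant and take `n = max n_i`. So it is a pattern. -/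
theorem exists_CC (z : Z) (hz : ∀ m p, z m p ≠ 0) : ∃ g : FP, z ∈ CC g := by
  have h1 : ∀ m, ∃ n, Dep n (fun p => decide (0 < z m p)) := by
    intro m
    refine ZeroFree_unif (fun p₁ p₂ => decide (0 < z m p₁) = decide (0 < z m p₂)) (fun p => ?_)
    rcases lt_or_gt_of_ne (hz m p) with h | h
    · obtain ⟨n, hn⟩ := ZeroFree_cyl_subset
        ((isOpen_lt (z m).continuous continuous_const).mem_nhds (show z m p < 0 from h))
      refine ⟨n, fun p₁ h₁ p₂ h₂ => ?_⟩
      have e1 : z m p₁ < 0 := hn h₁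
      have e2 : z m p₂ < 0 := hn h₂
      rw [decide_eq_false (not_lt.2 e1.le), decide_eq_false (not_lt.2 e2.le)]
    · obtain ⟨n, hn⟩ := ZeroFree_cyl_subset
        ((isOpen_lt continuous_const (z m).continuous).mem_nhds (show 0 < z m p from h))
      refine ⟨n, fun p₁ h₁ p₂ h₂ => ?_⟩
      have e1 : 0 < z m p₁ := hn h₁
      have e2 : 0 < z m p₂ := hn h₂
      rw [decide_eq_true e1, decide_eq_true e2]
  refine ⟨fun m => ⟨fun p => decide (0 < z m p), h1 m⟩, fun m p => ?_⟩
  show 0 < sg (decide (0 < z m p)) * z m p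
  rcases lt_or_gt_of_ne (hz m p) with h | h
  · rw [decide_eq_false (not_lt.2 h.le)]
    simp only [sg, Bool.false_eq_true, if_false]
    linarith
  · rw [decide_eq_true h]
    simp only [sg, if_true]
    linarith

theorem CC_ne {g : FP} {z : Z} (hz : z ∈ CC g) (m : ℕ) (p : P) : z m p ≠ 0 := by
  intro h
  have := hz m p
  rw [h, mul_zero] at this
  exact lt_irrefl _ this

theorem CC_good {g : FP} {z : Z} (hz : z ∈ CC g) (L : Set P) : Good L z :=
  fun m p _ => CC_ne hz m p

theorem zg_mem_CC (g : FP) : zg g ∈ CC g := by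
  intro m p
  show 0 < sg ((g m).1 p) * sg ((g m).1 p)
  unfold sg
  split_ifs <;> norm_num

/-- `CC g` is convex (`Convex ℝ (CC g)`), hence preconnected. -/
theorem CC_preconnected (g : FP) : IsPreconnected (CC g) := by
  refine Convex.isPreconnected (fun z hz w hw a b ha hb hab m p => ?_)
  show 0 < sg ((g m).1 p) * (a * z m p + b * w m p)
  have h1 := hz m p
  have h2 := hw m p
  have e : sg ((g m).1 p) * (a * z m p + b * w m p) =
      a * (sg ((g m).1 p) * z m p) + b * (sg ((g m).1 p) * w m p) := by ring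
  rw [e]
  rcases ha.eq_or_lt with h | h
  · rw [← h, zero_add] at hab
    rw [← h, hab, zero_mul, zero_add, one_mul]
    exact h2
  · exact add_pos_of_pos_of_nonneg (mul_pos h h1) (mul_nonneg hb h2.le)

end Pool.Agent.H.MP_0e7155_gt.CE
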